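import Pool.Agent.Lib.MP_263cac_an.Defs

/-!
# A1: the norm inequality (approximate ping-pong)

`B` a unital C*-algebra, `p, q` projections, `r` a unitary with `(1-q) r p = 0` (i.e. `r` maps the range of `p`
into the range of `q`), `u_j` unitaries, `y_j` contractions, `V_j = word u r j`.  Under the smallness assumptions
`h1 … h5` the sum of the `n` conjugates `T_j = V_j y_j V_j^*` has norm at most `4 sqrt (n + n³ δ)`.

## Proof
(almost_orth): if `‖D_j‖ ≤ κ` and `‖D_i^* D_j‖ ≤ ε` for `i ≠ j` (`i, j < n`), then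
  `‖Σ_{j<n} D_j‖² = ‖(Σ D_i)^* (Σ D_j)‖ ≤ n κ² + n² ε`.
Transport: for `i < j` put `Z_{ij} = V_i^* V_j = u_i r u_{i+1} r … u_{j-1} r`.  Claim
  (tr)  `Z_{ij} p = u_i q R + err`, `‖R‖ ≤ 1`, `‖err‖ ≤ (j-i-1) δ`,
more precisely with `R_{ij} = r u_{i+1} r … u_{j-1} r` (`Z_{ij} = u_i R_{ij}`): `‖(1-q) R_{ij} p‖ ≤ (j-i-1) δ`.
Proof by induction on `j - i`: `R_{j-1,j} = r`, and `R_{ij} p = r u_{i+1} R_{i+1,j} p`,
`R_{i+1,j} p = q R_{i+1,j} p + (1-q) R_{i+1,j} p`, `r u_{i+1} q = r p u_{i+1} q + r (1-p) u_{i+1} q`, `(1-q) r p = 0`, `h1`.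
Put `E_j = V_j (1-p) V_j^*` (projections), `T_j = T_j E_j + T_j (E_{j+1} - E_j) + T_j (1 - E_{j+1})`.
* `X₁ = Σ T_j E_j = Σ V_j y_j (1-p) V_j^*`.  For `i < j`: `‖(T_iE_i)^*(T_jE_j)‖ = ‖(1-p) y_i^* Z_{ij} y_j (1-p)‖`, now
  `y_j(1-p) = p y_j (1-p) + O(δ)` by `h2`, then (tr), then `(1-p) y_i^* u_i q = O(δ)` by `h3`: total `≤ (j-i+1) δ ≤ n δ`.
  (For `i > j` take adjoints.)  So `‖X₁‖² ≤ n + n³ δ`.
* `X₂ = Σ T_j (1-E_{j+1}) = Σ V_j y_j u_j r p V_{j+1}^*` (as `1 - E_{j+1} = V_j u_j r p r^* u_j^* V_j^*`).  For `i < j` the norm of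
  `D_i^* D_j` is `‖p r^* u_i^* y_i^* Z_{ij} y_j u_j r p‖`; `r p = q r p`, `y_j u_j q = p y_j u_j q + O(δ)` (`h4`), (tr), and
  `q u_i^* y_i^* u_i q = O(δ)` (adjoint of `h5`): total `≤ (j-i+1) δ`.  So `‖X₂‖² ≤ n + n³ δ`.
* `X₃ = Σ T_j (E_{j+1} - E_j)`: use `‖X₃‖² = ‖X₃ X₃^*‖` (almost_orth for the adjoints), `‖E_{j+1} - E_j‖ ≤ 2`.  For `a < b`:
  `‖E_a (1 - E_b)‖ = ‖(1-p) Z_{ab} p‖ ≤ (b-a) δ` by (tr) and `h1`; hence for `i < j`
  `(E_{i+1}-E_i)(E_{j+1}-E_j)` has norm `≤ 4 n δ` (each product `E_a E_b`, `a ≤ b`, is `E_a` up to `n δ`).  So `‖X₃‖² ≤ 4n + 4 n³ δ`.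
Sum: `‖Σ T_j‖ ≤ (1 + 1 + 2) sqrt (n + n³ δ)`.
(Note `‖1-p‖, ‖p‖, ‖q‖ ≤ 1`, unitaries have norm `≤ 1`; multiplying by a unitary does not change norms.)
-/

set_option autoImplicit false

namespace SimpCoh

variable {B : Type*} [CStarAlgebra B]

theorem norm_unit_le {v : B} (hv : v ∈ unitary B) : ‖v‖ ≤ 1 := by
  rcases subsingleton_or_nontrivial B with h | h
  · rw [Subsingleton.elim v 0, norm_zero]; exact zero_le_one
  · exact (CStarRing.norm_of_mem_unitary hv).le

theorem norm_proj_le {p : B} (hp : IsSelfAdjoint p) (hp2 : p * p = p) : ‖p‖ ≤ 1 := by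
  have h := CStarRing.norm_star_mul_self (x := p)
  rw [hp.star_eq, hp2] at h
  by_contra hlt
  push Not at hlt
  nlinarith [norm_nonneg p]

theorem norm_mul3_le (a x b : B) (ha : ‖a‖ ≤ 1) (hb : ‖b‖ ≤ 1) : ‖a * x * b‖ ≤ ‖x‖ := by
  calc ‖a * x * b‖ ≤ ‖a * x‖ * ‖b‖ := norm_mul_le _ _
    _ ≤ (‖a‖ * ‖x‖) * ‖b‖ := by gcongr; exact norm_mul_le _ _
    _ ≤ (1 * ‖x‖) * 1 := by gcongr
    _ = ‖x‖ := by ring

theorem norm_mul_le_left (a x : B) (ha : ‖a‖ ≤ 1) : ‖a * x‖ ≤ ‖x‖ := by
  calc ‖a * x‖ ≤ ‖a‖ * ‖x‖ := norm_mul_le _ _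
    _ ≤ 1 * ‖x‖ := by gcongr
    _ = ‖x‖ := by ring

theorem norm_mul_le_right (x b : B) (hb : ‖b‖ ≤ 1) : ‖x * b‖ ≤ ‖x‖ := by
  calc ‖x * b‖ ≤ ‖x‖ * ‖b‖ := norm_mul_le _ _
    _ ≤ ‖x‖ * 1 := by gcongr
    _ = ‖x‖ := by ring

theorem almost_orth (n : ℕ) (D : ℕ → B) (κ ε : ℝ) (hκ : 0 ≤ κ) (hε : 0 ≤ ε)
    (h1 : ∀ j < n, ‖D j‖ ≤ κ) (h2 : ∀ i < n, ∀ j < n, i ≠ j → ‖star (D i) * D j‖ ≤ ε) :
    ‖∑ j ∈ Finset.range n, D j‖ ^ 2 ≤ n * κ ^ 2 + n ^ 2 * ε := by
  have e : ‖∑ j ∈ Finset.range n, D j‖ ^ 2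
      = ‖∑ i ∈ Finset.range n, ∑ j ∈ Finset.range n, star (D i) * D j‖ := by
    rw [sq, ← CStarRing.norm_star_mul_self, star_sum, Finset.sum_mul_sum]
  rw [e]
  calc ‖∑ i ∈ Finset.range n, ∑ j ∈ Finset.range n, star (D i) * D j‖
      ≤ ∑ i ∈ Finset.range n, ∑ j ∈ Finset.range n, ‖star (D i) * D j‖ := by
        refine (norm_sum_le _ _).trans (Finset.sum_le_sum fun i _ => norm_sum_le _ _)
    _ ≤ ∑ i ∈ Finset.range n, ∑ j ∈ Finset.range n, ((if i = j then κ ^ 2 else 0) + ε) := by
        refine Finset.sum_le_sum fun i hi => Finset.sum_le_sum fun j hj => ?_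
        rw [Finset.mem_range] at hi hj
        by_cases hij : i = j
        · subst hij
          rw [CStarRing.norm_star_mul_self, if_pos rfl]
          have := h1 i hi
          nlinarith [norm_nonneg (D i)]
        · rw [if_neg hij, zero_add]
          exact h2 i hi j hj hij
    _ = n * κ ^ 2 + n ^ 2 * ε := by
        simp only [Finset.sum_add_distrib, Finset.sum_ite_eq, Finset.sum_const, Finset.card_range,
          nsmul_eq_mul]
        rw [Finset.sum_congr rfl (g := fun _ => κ ^ 2) (fun x hx => by rw [if_pos hx])]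
        simp only [Finset.sum_const, Finset.card_range, nsmul_eq_mul]
        ring

theorem almost_orth' (n : ℕ) (D : ℕ → B) (κ ε : ℝ) (hκ : 0 ≤ κ) (hε : 0 ≤ ε)
    (h1 : ∀ j < n, ‖D j‖ ≤ κ) (h2 : ∀ i j, i < j → j < n → ‖star (D i) * D j‖ ≤ ε) :
    ‖∑ j ∈ Finset.range n, D j‖ ^ 2 ≤ n * κ ^ 2 + n ^ 2 * ε := by
  refine almost_orth n D κ ε hκ hε h1 fun i hi j hj hij => ?_
  rcases lt_or_gt_of_ne hij with h | h
  · exact h2 i j h hj
  · have := h2 j i h hi
    rwa [← norm_star, star_mul, star_star] at this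

theorem word_unitary (u : ℕ → B) (r : B) (hr : r ∈ unitary B) (hu : ∀ j, u j ∈ unitary B)
    (j : ℕ) : word u r j ∈ unitary B := by
  induction j with
  | zero => exact one_mem _
  | succ j ih => exact mul_mem (mul_mem ih (hu j)) hr

/-- transport: `Rw u r i k = r u_{i+1} r u_{i+2} … r u_{i+k} r`. -/
def Rw (u : ℕ → B) (r : B) (i : ℕ) : ℕ → B
  | 0 => r
  | k + 1 => Rw u r i k * u (i + k + 1) * r

theorem Rw_unitary (u : ℕ → B) (r : B) (hr : r ∈ unitary B) (hu : ∀ j, u j ∈ unitary B)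
    (i k : ℕ) : Rw u r i k ∈ unitary B := by
  induction k with
  | zero => exact hr
  | succ k ih => exact mul_mem (mul_mem ih (hu _)) hr

theorem star_word_mul_word (u : ℕ → B) (r : B) (hr : r ∈ unitary B) (hu : ∀ j, u j ∈ unitary B)
    (i k : ℕ) : star (word u r i) * word u r (i + k + 1) = u i * Rw u r i k := by
  induction k with
  | zero =>
    have h := (Unitary.mem_iff.mp (word_unitary u r hr hu i)).1
    show star (word u r i) * (word u r i * u i * r) = u i * r
    rw [← mul_assoc, ← mul_assoc, h, one_mul]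
  | succ k ih =>
    show star (word u r i) * (word u r (i + k + 1) * u (i + k + 1) * r)
      = u i * (Rw u r i k * u (i + k + 1) * r)
    rw [← mul_assoc, ← mul_assoc, ih]
    simp only [mul_assoc]

theorem transport (p q r : B) (hp : IsSelfAdjoint p) (hp2 : p * p = p)
    (hq : IsSelfAdjoint q) (hq2 : q * q = q) (hr : r ∈ unitary B) (h0 : (1 - q) * r * p = 0)
    (δ : ℝ) (hδ : 0 ≤ δ) (u : ℕ → B) (hu : ∀ j, u j ∈ unitary B)
    (h1 : ∀ j, ‖(1 - p) * u j * q‖ ≤ δ) (i k : ℕ) :
    ‖(1 - q) * Rw u r i k * p‖ ≤ k * δ := by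
  have nr := norm_unit_le hr
  have np := norm_proj_le hp hp2
  have hq' : IsSelfAdjoint (1 - q) := (IsSelfAdjoint.one B).sub hq
  have hq2' : (1 - q) * (1 - q) = 1 - q := by
    calc (1 - q) * (1 - q) = 1 - q - q + q * q := by noncomm_ring
      _ = 1 - q := by rw [hq2]; abel
  have nq := norm_proj_le hq' hq2'
  have hqrp : q * r * p = r * p := by
    have : (1 - q) * r * p = r * p - q * r * p := by noncomm_ring
    rw [this] at h0
    exact (sub_eq_zero.mp h0).symm
  induction k with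
  | zero =>
    show ‖(1 - q) * r * p‖ ≤ _
    rw [h0]; simp
  | succ k ih =>
    have e : (1 - q) * Rw u r i (k + 1) * p
        = ((1 - q) * Rw u r i k * p) * (u (i + k + 1) * q * r * p)
          + ((1 - q) * Rw u r i k) * ((1 - p) * u (i + k + 1) * q) * (r * p) := by
      show (1 - q) * (Rw u r i k * u (i + k + 1) * r) * p = _
      have : r * p = q * (r * p) := by rw [← mul_assoc, hqrp]
      calc (1 - q) * (Rw u r i k * u (i + k + 1) * r) * p
          = (1 - q) * Rw u r i k * u (i + k + 1) * (r * p) := by noncomm_ring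
        _ = (1 - q) * Rw u r i k * u (i + k + 1) * (q * (r * p)) := by rw [← this]
        _ = _ := by noncomm_ring
    rw [e]
    have nR := norm_unit_le (Rw_unitary u r hr hu i k)
    have nu := norm_unit_le (hu (i + k + 1))
    have nq0 := norm_proj_le hq hq2
    have nrp : ‖r * p‖ ≤ 1 := (norm_mul_le_right r p np).trans nr
    have b1 : ‖((1 - q) * Rw u r i k * p) * (u (i + k + 1) * q * r * p)‖ ≤ k * δ := by
      refine (norm_mul_le_right _ _ ?_).trans ih
      calc ‖u (i + k + 1) * q * r * p‖ = ‖u (i + k + 1) * q * (r * p)‖ := by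
            rw [mul_assoc (u (i + k + 1) * q)]
        _ ≤ ‖q‖ := norm_mul3_le _ _ _ nu nrp
        _ ≤ 1 := nq0
    have b2 : ‖((1 - q) * Rw u r i k) * ((1 - p) * u (i + k + 1) * q) * (r * p)‖ ≤ δ := by
      refine (norm_mul3_le _ _ _ ?_ nrp).trans (h1 _)
      exact (norm_mul_le_left _ _ nq).trans nR
    refine (norm_add_le _ _).trans ?_
    push_cast
    linarith

/-- consequence of transport, for `x` a contraction. -/
theorem transport' (p q r : B) (hp : IsSelfAdjoint p) (hp2 : p * p = p)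
    (hq : IsSelfAdjoint q) (hq2 : q * q = q) (hr : r ∈ unitary B) (h0 : (1 - q) * r * p = 0)
    (δ : ℝ) (hδ : 0 ≤ δ) (u : ℕ → B) (hu : ∀ j, u j ∈ unitary B)
    (h1 : ∀ j, ‖(1 - p) * u j * q‖ ≤ δ) (i k : ℕ) (x : B) (hx : ‖x‖ ≤ 1) :
    ‖x * (star (word u r i) * word u r (i + k + 1)) * p‖ ≤ ‖x * u i * q‖ + k * δ := by
  have np := norm_proj_le hp hp2
  have nR := norm_unit_le (Rw_unitary u r hr hu i k)
  have nu := norm_unit_le (hu i)
  have nRp : ‖Rw u r i k * p‖ ≤ 1 := (norm_mul_le_right _ _ np).trans nR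
  rw [star_word_mul_word u r hr hu i k]
  have e : x * (u i * Rw u r i k) * p
      = (x * u i * q) * (Rw u r i k * p) + (x * u i) * ((1 - q) * Rw u r i k * p) := by
    noncomm_ring
  rw [e]
  refine (norm_add_le _ _).trans (add_le_add (norm_mul_le_right _ _ nRp) ?_)
  refine (norm_mul_le_left _ _ ?_).trans
    (transport p q r hp hp2 hq hq2 hr h0 δ hδ u hu h1 i k)
  exact (norm_mul_le_right _ _ nu).trans hx

theorem norm_word_sum (p q r : B) (hp : IsSelfAdjoint p) (hp2 : p * p = p)
    (hq : IsSelfAdjoint q) (hq2 : q * q = q) (hr : r ∈ unitary B) (h0 : (1 - q) * r * p = 0)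
    (n : ℕ) (δ : ℝ) (hδ : 0 ≤ δ) (u y : ℕ → B) (hu : ∀ j, u j ∈ unitary B)
    (hy : ∀ j, ‖y j‖ ≤ 1)
    (h1 : ∀ j, ‖(1 - p) * u j * q‖ ≤ δ)
    (h2 : ∀ j, ‖(1 - p) * y j * (1 - p)‖ ≤ δ)
    (h3 : ∀ j, ‖(1 - p) * (star (y j) * u j) * q‖ ≤ δ)
    (h4 : ∀ j, ‖(1 - p) * (y j * u j) * q‖ ≤ δ)
    (h5 : ∀ j, ‖q * (star (u j) * y j * u j) * q‖ ≤ δ) :
    ‖∑ j ∈ Finset.range n, word u r j * y j * star (word u r j)‖
      ≤ 4 * Real.sqrt (n + n ^ 3 * δ) := by
  have nr := norm_unit_le hr
  have np := norm_proj_le hp hp2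
  have nq := norm_proj_le hq hq2
  set m : B := 1 - p with hm_def
  have hm : IsSelfAdjoint m := (IsSelfAdjoint.one B).sub hp
  have hm2 : m * m = m := by
    calc (1 - p) * (1 - p) = 1 - p - p + p * p := by noncomm_ring
      _ = 1 - p := by rw [hp2]; abel
  have nm := norm_proj_le hm hm2
  have hpm : p + m = 1 := by rw [hm_def]; abel
  have hqrp : r * p = q * (r * p) := by
    have : (1 - q) * r * p = r * p - q * (r * p) := by noncomm_ring
    rw [this] at h0
    exact sub_eq_zero.mp h0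
  have nrp : ‖r * p‖ ≤ 1 := (norm_mul_le_right r p np).trans nr
  set V : ℕ → B := word u r with hV
  have hVu : ∀ j, V j ∈ unitary B := word_unitary u r hr hu
  have nV : ∀ j, ‖V j‖ ≤ 1 := fun j => norm_unit_le (hVu j)
  have nVs : ∀ j, ‖star (V j)‖ ≤ 1 := fun j => by rw [norm_star]; exact nV j
  have hVV : ∀ j, star (V j) * V j = 1 := fun j => (Unitary.mem_iff.mp (hVu j)).1
  have hVV' : ∀ j, V j * star (V j) = 1 := fun j => (Unitary.mem_iff.mp (hVu j)).2
  have hVs : ∀ j, V (j + 1) = V j * u j * r := fun j => rfl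
  have nu : ∀ j, ‖u j‖ ≤ 1 := fun j => norm_unit_le (hu j)
  have nus : ∀ j, ‖star (u j)‖ ≤ 1 := fun j => by rw [norm_star]; exact nu j
  have nys : ∀ j, ‖star (y j)‖ ≤ 1 := fun j => by rw [norm_star]; exact hy j
  have tr' := fun (i k : ℕ) (x : B) (hx : ‖x‖ ≤ 1) =>
    transport' p q r hp hp2 hq hq2 hr h0 δ hδ u hu h1 i k x hx
  -- the three families
  set D1 : ℕ → B := fun j => V j * y j * m * star (V j) with hD1
  set D2 : ℕ → B := fun j => V j * (y j * u j * (r * p)) * star (V (j + 1)) with hD2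
  set E : ℕ → B := fun j => V j * m * star (V j) with hE
  set D3 : ℕ → B := fun j => V j * y j * star (V j) * (E (j + 1) - E j) with hD3
  have hEp : ∀ j, 1 - E j = V j * p * star (V j) := by
    intro j
    have : (1 : B) = V j * (p + m) * star (V j) := by rw [hpm, mul_one, hVV']
    rw [hE]; 
    calc 1 - V j * m * star (V j) = V j * (p + m) * star (V j) - V j * m * star (V j) := by
          rw [← this]
      _ = V j * p * star (V j) := by noncomm_ring
  have dec : ∀ j, V j * y j * star (V j) = D1 j + D2 j + D3 j := by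
    intro j
    have e1 : V j * y j * star (V j) * E j = D1 j := by
      rw [hE, hD1]
      calc V j * y j * star (V j) * (V j * m * star (V j))
          = V j * y j * (star (V j) * V j) * m * star (V j) := by noncomm_ring
        _ = _ := by rw [hVV, mul_one]
    have e2 : V j * y j * star (V j) * (1 - E (j + 1)) = D2 j := by
      rw [hEp, hD2]
      calc V j * y j * star (V j) * (V (j + 1) * p * star (V (j + 1)))
          = V j * y j * (star (V j) * V (j + 1)) * p * star (V (j + 1)) := by noncomm_ring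
        _ = V j * y j * (star (V j) * (V j * u j * r)) * p * star (V (j + 1)) := by rw [hVs]
        _ = V j * y j * ((star (V j) * V j) * u j * r) * p * star (V (j + 1)) := by noncomm_ring
        _ = V j * (y j * u j * (r * p)) * star (V (j + 1)) := by
            rw [hVV, one_mul]; noncomm_ring
    rw [← e1, ← e2, hD3]
    noncomm_ring
  -- bound for D1
  have kn : ∀ k i j : ℕ, j = i + k + 1 → j < n → (k : ℝ) + 2 ≤ n := by
    intro k i j hj hjn
    have : k + 2 ≤ n := by omega
    exact_mod_cast this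
  have B1 : ‖∑ j ∈ Finset.range n, D1 j‖ ^ 2 ≤ n * 1 ^ 2 + n ^ 2 * (n * δ) := by
    refine almost_orth' n D1 1 (n * δ) zero_le_one (by positivity) (fun j _ => ?_) ?_
    · rw [hD1]
      calc ‖V j * y j * m * star (V j)‖ ≤ ‖V j * y j * m‖ := norm_mul_le_right _ _ (nVs j)
        _ ≤ ‖V j * y j‖ := norm_mul_le_right _ _ nm
        _ ≤ ‖y j‖ := norm_mul_le_left _ _ (nV j)
        _ ≤ 1 := hy j
    · intro i j hij hjn
      obtain ⟨k, rfl⟩ : ∃ k, j = i + k + 1 := ⟨j - i - 1, by omega⟩
      have hk := kn k i _ rfl hjn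
      set Z : B := star (V i) * V (i + k + 1) with hZ
      have nZ : ‖Z‖ ≤ 1 := (norm_mul_le_left _ _ (nVs i)).trans (nV _)
      have e : star (D1 i) * D1 (i + k + 1)
          = V i * (m * star (y i) * Z * (y (i + k + 1) * m)) * star (V (i + k + 1)) := by
        rw [hD1]
        simp only [star_mul, star_star, hm.star_eq, hZ]
        noncomm_ring
      rw [e]
      refine (norm_mul3_le _ _ _ (nV i) (nVs _)).trans ?_
      have e' : m * star (y i) * Z * (y (i + k + 1) * m)
          = (m * star (y i) * Z * p) * (y (i + k + 1) * m)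
            + (m * star (y i) * Z) * (m * y (i + k + 1) * m) := by
        calc m * star (y i) * Z * (y (i + k + 1) * m)
            = m * star (y i) * Z * ((p + m) * (y (i + k + 1) * m)) := by rw [hpm, one_mul]
          _ = _ := by noncomm_ring
      rw [e']
      have nx : ‖m * star (y i)‖ ≤ 1 := (norm_mul_le_left _ _ nm).trans (nys i)
      have a1 : ‖(m * star (y i) * Z * p) * (y (i + k + 1) * m)‖ ≤ δ + k * δ := by
        refine (norm_mul_le_right _ _ ((norm_mul_le_right _ _ nm).trans (hy _))).trans ?_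
        refine (tr' i k _ nx).trans ?_
        have := h3 i
        rw [← mul_assoc] at this
        linarith
      have a2 : ‖(m * star (y i) * Z) * (m * y (i + k + 1) * m)‖ ≤ δ := by
        refine (norm_mul_le_left _ _ ?_).trans (h2 _)
        exact (norm_mul_le_left _ _ nx).trans nZ
      refine (norm_add_le _ _).trans ?_
      nlinarith
  have B2 : ‖∑ j ∈ Finset.range n, D2 j‖ ^ 2 ≤ n * 1 ^ 2 + n ^ 2 * (n * δ) := by
    refine almost_orth' n D2 1 (n * δ) zero_le_one (by positivity) (fun j _ => ?_) ?_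
    · rw [hD2]
      refine (norm_mul3_le _ _ _ (nV j) (nVs _)).trans ?_
      refine (norm_mul_le_right _ _ nrp).trans ?_
      exact (norm_mul_le_right _ _ (nu j)).trans (hy j)
    · intro i j hij hjn
      obtain ⟨k, rfl⟩ : ∃ k, j = i + k + 1 := ⟨j - i - 1, by omega⟩
      have hk := kn k i _ rfl hjn
      set Z : B := star (V i) * V (i + k + 1) with hZ
      have nZ : ‖Z‖ ≤ 1 := (norm_mul_le_left _ _ (nVs i)).trans (nV _)
      set x : B := star (r * p) * (star (u i) * star (y i)) with hx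
      have nx : ‖x‖ ≤ 1 := by
        have a : ‖star (r * p)‖ ≤ 1 := by rw [norm_star]; exact nrp
        exact ((norm_mul_le_left _ _ a).trans (norm_mul_le_left _ _ (nus i))).trans (nys i)
      have e : star (D2 i) * D2 (i + k + 1)
          = V (i + 1) * (x * Z * (y (i + k + 1) * u (i + k + 1) * (r * p)))
              * star (V (i + k + 1 + 1)) := by
        rw [hD2]
        simp only [star_mul, star_star, hZ, hx]
        noncomm_ring
      rw [e]
      refine (norm_mul3_le _ _ _ (nV _) (nVs _)).trans ?_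
      have e' : x * Z * (y (i + k + 1) * u (i + k + 1) * (r * p))
          = (x * Z * p) * (y (i + k + 1) * u (i + k + 1) * (r * p))
            + (x * Z) * (m * (y (i + k + 1) * u (i + k + 1)) * q) * (r * p) := by
        calc x * Z * (y (i + k + 1) * u (i + k + 1) * (r * p))
            = x * Z * ((p + m) * (y (i + k + 1) * u (i + k + 1) * (r * p))) := by
              rw [hpm, one_mul]
          _ = (x * Z * p) * (y (i + k + 1) * u (i + k + 1) * (r * p))
            + (x * Z) * (m * (y (i + k + 1) * u (i + k + 1))) * (r * p) := by noncomm_ring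
          _ = (x * Z * p) * (y (i + k + 1) * u (i + k + 1) * (r * p))
            + (x * Z) * (m * (y (i + k + 1) * u (i + k + 1))) * (q * (r * p)) := by
              rw [← hqrp]
          _ = _ := by noncomm_ring
      rw [e']
      have nyu : ‖y (i + k + 1) * u (i + k + 1) * (r * p)‖ ≤ 1 :=
        (norm_mul_le_right _ _ nrp).trans ((norm_mul_le_right _ _ (nu _)).trans (hy _))
      have a1 : ‖(x * Z * p) * (y (i + k + 1) * u (i + k + 1) * (r * p))‖ ≤ δ + k * δ := by
        refine (norm_mul_le_right _ _ nyu).trans ?_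
        refine (tr' i k x nx).trans ?_
        have e5 : x * u i * q = star (r * p) * (q * (star (u i) * star (y i) * u i) * q) := by
          have : star (r * p) = star (r * p) * q := by
            conv_lhs => rw [hqrp]
            rw [star_mul, hq.star_eq]
          rw [hx]
          calc star (r * p) * (star (u i) * star (y i)) * u i * q
              = (star (r * p)) * (star (u i) * star (y i) * u i * q) := by noncomm_ring
            _ = (star (r * p) * q) * (star (u i) * star (y i) * u i * q) := by rw [← this]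
            _ = _ := by noncomm_ring
        have n5 : ‖q * (star (u i) * star (y i) * u i) * q‖ ≤ δ := by
          have h := h5 i
          rw [← norm_star] at h
          simp only [star_mul, star_star, hq.star_eq] at h
          have e6 : q * (star (u i) * star (y i) * u i) * q
              = q * (star (u i) * (star (y i) * u i) * q) := by noncomm_ring
          rw [e6]
          simpa [mul_assoc] using h
        have : ‖x * u i * q‖ ≤ δ := by
          rw [e5]
          refine (norm_mul_le_left _ _ ?_).trans n5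
          rw [norm_star]; exact nrp
        linarith
      have a2 : ‖(x * Z) * (m * (y (i + k + 1) * u (i + k + 1)) * q) * (r * p)‖ ≤ δ := by
        refine (norm_mul3_le _ _ _ ?_ nrp).trans (h4 _)
        exact (norm_mul_le_left _ _ nx).trans nZ
      refine (norm_add_le _ _).trans ?_
      nlinarith
  have nE : ∀ j, ‖E j‖ ≤ 1 := by
    intro j
    rw [hE]
    exact (norm_mul3_le _ _ _ (nV j) (nVs j)).trans nm
  have hEs : ∀ j, star (E j) = E j := by
    intro j
    rw [hE]
    simp only [star_mul, star_star, hm.star_eq, mul_assoc]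
  -- E_a (1 - E_b) small for a ≤ b
  have hEab : ∀ a b : ℕ, a ≤ b → b ≤ n → ‖E a - E a * E b‖ ≤ n * δ := by
    intro a b hab hbn
    have e : E a - E a * E b = E a * (1 - E b) := by rw [mul_sub, mul_one]
    rw [e, hEp, hE]
    rcases Nat.eq_or_lt_of_le hab with h | h
    · subst h
      have : V a * m * star (V a) * (V a * p * star (V a)) = 0 := by
        calc V a * m * star (V a) * (V a * p * star (V a))
            = V a * m * (star (V a) * V a) * p * star (V a) := by noncomm_ring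
          _ = V a * (m * p) * star (V a) := by rw [hVV, mul_one]; noncomm_ring
          _ = 0 := by
            have : m * p = 0 := by rw [hm_def, sub_mul, one_mul, hp2, sub_self]
            rw [this]; simp
      rw [this, norm_zero]; positivity
    · obtain ⟨k, rfl⟩ : ∃ k, b = a + k + 1 := ⟨b - a - 1, by omega⟩
      have e2 : V a * m * star (V a) * (V (a + k + 1) * p * star (V (a + k + 1)))
          = V a * (m * (star (V a) * V (a + k + 1)) * p) * star (V (a + k + 1)) := by
        noncomm_ring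
      rw [e2]
      refine (norm_mul3_le _ _ _ (nV _) (nVs _)).trans ?_
      refine (tr' a k m nm).trans ?_
      have hk : ((k : ℝ) + 1) ≤ n := by
        have : k + 1 ≤ n := by omega
        exact_mod_cast this
      have := h1 a
      nlinarith
  have B3 : ‖∑ j ∈ Finset.range n, D3 j‖ ^ 2 ≤ n * 2 ^ 2 + n ^ 2 * (4 * n * δ) := by
    have : ‖∑ j ∈ Finset.range n, D3 j‖ = ‖∑ j ∈ Finset.range n, star (D3 j)‖ := by
      rw [← norm_star, star_sum]
    rw [this]
    refine almost_orth' n (fun j => star (D3 j)) 2 (4 * n * δ) (by norm_num) (by positivity)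
      (fun j _ => ?_) ?_
    · rw [norm_star, hD3]
      have a : ‖V j * y j * star (V j)‖ ≤ 1 := by
        refine (norm_mul3_le _ _ _ (nV j) (nVs j)).trans (hy j)
      refine (norm_mul_le_left _ _ a).trans ?_
      refine (norm_sub_le _ _).trans ?_
      linarith [nE j, nE (j + 1)]
    · intro i j hij hjn
      simp only [star_star]
      have e : D3 i * star (D3 j) = (V i * y i * star (V i))
          * ((E (i + 1) - E i) * (E (j + 1) - E j)) * (V j * star (y j) * star (V j)) := by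
        rw [hD3]
        simp only [star_mul, star_sub, star_star, hEs]
        noncomm_ring
      rw [e]
      have a : ‖V i * y i * star (V i)‖ ≤ 1 := (norm_mul3_le _ _ _ (nV i) (nVs i)).trans (hy i)
      have b : ‖V j * star (y j) * star (V j)‖ ≤ 1 :=
        (norm_mul3_le _ _ _ (nV j) (nVs j)).trans (nys j)
      refine (norm_mul3_le _ _ _ a b).trans ?_
      have e4 : (E (i + 1) - E i) * (E (j + 1) - E j)
          = -(E (i + 1) - E (i + 1) * E (j + 1)) + (E (i + 1) - E (i + 1) * E j)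
            + (E i - E i * E (j + 1)) - (E i - E i * E j) := by noncomm_ring
      rw [e4]
      have c1 := hEab (i + 1) (j + 1) (by omega) (by omega)
      have c2 := hEab (i + 1) j (by omega) (by omega)
      have c3 := hEab i (j + 1) (by omega) (by omega)
      have c4 := hEab i j (by omega) (by omega)
      calc _ ≤ ‖-(E (i + 1) - E (i + 1) * E (j + 1)) + (E (i + 1) - E (i + 1) * E j)
            + (E i - E i * E (j + 1))‖ + ‖E i - E i * E j‖ := norm_sub_le _ _
        _ ≤ (‖-(E (i + 1) - E (i + 1) * E (j + 1)) + (E (i + 1) - E (i + 1) * E j)‖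
            + ‖E i - E i * E (j + 1)‖) + ‖E i - E i * E j‖ := by gcongr; exact norm_add_le _ _
        _ ≤ ((‖-(E (i + 1) - E (i + 1) * E (j + 1))‖ + ‖E (i + 1) - E (i + 1) * E j‖)
            + ‖E i - E i * E (j + 1)‖) + ‖E i - E i * E j‖ := by gcongr; exact norm_add_le _ _
        _ ≤ 4 * n * δ := by rw [norm_neg]; linarith
  have hs : ∑ j ∈ Finset.range n, V j * y j * star (V j)
      = ∑ j ∈ Finset.range n, D1 j + ∑ j ∈ Finset.range n, D2 j
        + ∑ j ∈ Finset.range n, D3 j := by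
    rw [← Finset.sum_add_distrib, ← Finset.sum_add_distrib]
    exact Finset.sum_congr rfl fun j _ => dec j
  rw [hs]
  set s : ℝ := n + n ^ 3 * δ with hs_def
  have hs0 : 0 ≤ s := by positivity
  have r1 : ‖∑ j ∈ Finset.range n, D1 j‖ ≤ Real.sqrt s := by
    apply Real.le_sqrt_of_sq_le
    calc _ ≤ _ := B1
      _ = s := by rw [hs_def]; ring
  have r2 : ‖∑ j ∈ Finset.range n, D2 j‖ ≤ Real.sqrt s := by
    apply Real.le_sqrt_of_sq_le
    calc _ ≤ _ := B2
      _ = s := by rw [hs_def]; ring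
  have r3 : ‖∑ j ∈ Finset.range n, D3 j‖ ≤ 2 * Real.sqrt s := by
    have : ‖∑ j ∈ Finset.range n, D3 j‖ ≤ Real.sqrt (2 ^ 2 * s) := by
      apply Real.le_sqrt_of_sq_le
      calc _ ≤ _ := B3
        _ = 2 ^ 2 * s := by rw [hs_def]; ring
    rwa [Real.sqrt_mul (by norm_num), Real.sqrt_sq (by norm_num)] at this
  refine (norm_add_le _ _).trans ?_
  have := norm_add_le (∑ j ∈ Finset.range n, D1 j) (∑ j ∈ Finset.range n, D2 j)
  linarith

end SimpCoh
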