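import Pool.Agent.Lib.MP_263cac_an.Defs

/-!
# A10: vanishing of the second simplicial cohomology

`comm_dense`: `WalkProp` with `F = {1}`, `Y = {y}` (scaled), `u = 1`, `g = 1`: `‖Σ_{j<n} r^j y r^{-j}‖ ≤ ε n`, and
`y - v y v* = (y v*) v - v (y v*)`; so `y` is within `ε` of `(1/n) Σ_j (y - V_j y V_j*)`, a sum of commutators.
`nondeg`: for `x ∉ ℂ1` put `z = x - τ(x)1 ≠ 0`, `d = z* - τ(z*) 1`: `τ d = 0`, `τ(d x) = τ(z* z) + …= τ(z*z) ≠ 0`
 (`τ(dx) = τ(dz) + τ(x)τ(d) = τ(z*z) - τ(z*)τ(z) = τ(z*z)`).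
`H2_forms`: `ψ(x;c) = Φ(1,1;xc)`, `Φ' = Φ - cob ψ` is normalized; `exact_identity`, `unitary_to_G`, `antisym`, `symm3`, `G_zero` give
`Φ' = cob S`.
`H2_main`: translation to continuous multilinear maps (this is the frozen statement at `m = 1`).
-/

set_option autoImplicit false

namespace SimpCoh

/-- Vanishing of the second simplicial cohomology `H²(A, A*)`: literally the formula of the problem for `n = 2` (`m = 1`). -/
def H2Vanishes (A : Type*) [NonUnitalCStarAlgebra A] : Prop :=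
  ∀ (T : ContinuousMultilinearMap ℂ (fun _ : Fin (1 + 1) => A) (A →L[ℂ] ℂ)),
    (∀ (a : Fin (1 + 1 + 1) → A) (b : A),
        T (Fin.tail a) (b * a 0)
          + ∑ i : Fin (1 + 1), (-1 : ℂ) ^ ((i : ℕ) + 1) *
              T (fun j : Fin (1 + 1) =>
                  if (j : ℕ) < (i : ℕ) then a (Fin.castSucc j)
                  else if (j : ℕ) = (i : ℕ) then a (Fin.castSucc j) * a (Fin.succ j)
                  else a (Fin.succ j)) b
          + (-1 : ℂ) ^ (1 + 1 + 1) * T (Fin.init a) (a (Fin.last (1 + 1)) * b) = 0) →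
      ∃ S : ContinuousMultilinearMap ℂ (fun _ : Fin 1 => A) (A →L[ℂ] ℂ),
        ∀ (a : Fin (1 + 1) → A) (b : A),
          T a b =
            S (Fin.tail a) (b * a 0)
              + ∑ i : Fin 1, (-1 : ℂ) ^ ((i : ℕ) + 1) *
                  S (fun j : Fin 1 =>
                      if (j : ℕ) < (i : ℕ) then a (Fin.castSucc j)
                      else if (j : ℕ) = (i : ℕ) then a (Fin.castSucc j) * a (Fin.succ j)
                      else a (Fin.succ j)) b
              + (-1 : ℂ) ^ (1 + 1) * S (Fin.init a) (a (Fin.last 1) * b)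

variable {A : Type*} [CStarAlgebra A]

private lemma A10_upd0 (x b : A) : Function.update ![(0 : A), b] 0 x = ![x, b] := by
  funext i
  fin_cases i <;> simp

private lemma A10_upd1 (a x : A) : Function.update ![a, (0 : A)] 1 x = ![a, x] := by
  funext i
  fin_cases i <;> simp

private lemma A10_eta (a : Fin (1 + 1) → A) : a = ![a 0, a 1] := by
  funext i
  fin_cases i <;> simp

private lemma A10_tri (T : ContinuousMultilinearMap ℂ (fun _ : Fin (1 + 1) => A) (A →L[ℂ] ℂ)) :
    Tri ‖T‖ (fun a b c => T ![a, b] c) := by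
  refine ⟨?_, ?_, ?_, ?_, ?_, ?_, ?_⟩
  · intro a a' b c
    have h := T.map_update_add ![(0 : A), b] 0 a a'
    rw [A10_upd0, A10_upd0, A10_upd0] at h
    change T ![a + a', b] c = _
    rw [h]
    rfl
  · intro a b b' c
    have h := T.map_update_add ![a, (0 : A)] 1 b b'
    rw [A10_upd1, A10_upd1, A10_upd1] at h
    change T ![a, b + b'] c = _
    rw [h]
    rfl
  · intro a b c c'
    exact map_add (T ![a, b]) c c'
  · intro z a b c
    have h := T.map_update_smul ![(0 : A), b] 0 z a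
    rw [A10_upd0, A10_upd0] at h
    change T ![z • a, b] c = _
    rw [h]
    rfl
  · intro z a b c
    have h := T.map_update_smul ![a, (0 : A)] 1 z b
    rw [A10_upd1, A10_upd1] at h
    change T ![a, z • b] c = _
    rw [h]
    rfl
  · intro z a b c
    exact map_smul (T ![a, b]) z c
  · intro a b c
    have h1 := (T ![a, b]).le_opNorm c
    have h2 := T.le_opNorm ![a, b]
    rw [Fin.prod_univ_two] at h2
    have h3 : ‖T ![a, b]‖ ≤ ‖T‖ * ‖a‖ * ‖b‖ := by
      refine h2.trans (le_of_eq ?_)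
      simp [mul_assoc]
    exact h1.trans (mul_le_mul_of_nonneg_right h3 (norm_nonneg c))

theorem H2_of_forms
    (H : ∀ (C : ℝ) (Φ : A → A → A → ℂ), 0 ≤ C → Tri C Φ → Coc Φ →
      ∃ (C' : ℝ) (S : A → A → ℂ), Bil C' S ∧ ∀ a b c, Φ a b c = cob S a b c) :
    H2Vanishes A := by
  intro T hT
  obtain ⟨C', S, hS, hcob⟩ := H ‖T‖ (fun a b c => T ![a, b] c) (norm_nonneg T) (A10_tri T) (by
    intro a b c d
    have h := hT ![a, b, c] d
    have t1 : (Fin.tail ![a, b, c] : Fin (1 + 1) → A) = ![b, c] := by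
      funext i
      fin_cases i <;> rfl
    have t2 : (Fin.init ![a, b, c] : Fin (1 + 1) → A) = ![a, b] := by
      funext i
      fin_cases i <;> rfl
    have t3 : (fun j : Fin (1 + 1) =>
                  if (j : ℕ) < ((0 : Fin (1 + 1)) : ℕ) then (![a, b, c] : Fin (1 + 1 + 1) → A) (Fin.castSucc j)
                  else if (j : ℕ) = ((0 : Fin (1 + 1)) : ℕ) then
                    (![a, b, c] : Fin (1 + 1 + 1) → A) (Fin.castSucc j) * (![a, b, c] : Fin (1 + 1 + 1) → A) (Fin.succ j)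
                  else (![a, b, c] : Fin (1 + 1 + 1) → A) (Fin.succ j)) = ![a * b, c] := by
      funext i
      fin_cases i <;> rfl
    have t4 : (fun j : Fin (1 + 1) =>
                  if (j : ℕ) < ((1 : Fin (1 + 1)) : ℕ) then (![a, b, c] : Fin (1 + 1 + 1) → A) (Fin.castSucc j)
                  else if (j : ℕ) = ((1 : Fin (1 + 1)) : ℕ) then
                    (![a, b, c] : Fin (1 + 1 + 1) → A) (Fin.castSucc j) * (![a, b, c] : Fin (1 + 1 + 1) → A) (Fin.succ j)
                  else (![a, b, c] : Fin (1 + 1 + 1) → A) (Fin.succ j)) = ![a, b * c] := by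
      funext i
      fin_cases i <;> rfl
    rw [Fin.sum_univ_two, t1, t2, t3, t4] at h
    have t5 : (![a, b, c] : Fin (1 + 1 + 1) → A) 0 = a := rfl
    have t6 : (![a, b, c] : Fin (1 + 1 + 1) → A) (Fin.last (1 + 1)) = c := rfl
    rw [t5, t6] at h
    change T ![b, c] (d * a) - T ![a * b, c] d + T ![a, b * c] d - T ![a, b] (c * d) = 0
    have e0 : ((0 : Fin (1 + 1)) : ℕ) = 0 := rfl
    have e1 : ((1 : Fin (1 + 1)) : ℕ) = 1 := rfl
    rw [e0, e1] at h
    linear_combination h)
  set L : A →L[ℂ] A →L[ℂ] ℂ := LinearMap.mkContinuous₂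
    (LinearMap.mk₂ ℂ S hS.add₁ hS.smul₁ hS.add₂ hS.smul₂) C' hS.bd with hL
  have hLap : ∀ a b, L a b = S a b := fun a b => rfl
  refine ⟨ContinuousMultilinearMap.ofSubsingleton ℂ A (A →L[ℂ] ℂ) (0 : Fin 1) L, ?_⟩
  intro a b
  have h1 := hcob (a 0) (a 1) b
  have h2 : T a b = T ![a 0, a 1] b := by
    conv_lhs => rw [A10_eta a]
  rw [h2]
  change T ![a 0, a 1] b = _ at h1
  rw [h1]
  simp only [ContinuousMultilinearMap.ofSubsingleton_apply_apply, hLap]
  rw [Fin.sum_univ_one]
  unfold cob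
  have u1 : Fin.tail a 0 = a 1 := rfl
  have u2 : Fin.init a 0 = a 0 := rfl
  have u3 : a (Fin.last 1) = a 1 := rfl
  rw [u1, u2, u3]
  simp
  ring

end SimpCoh
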