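import Pool.Agent.Lib.MP_263cac_an.Defs

/-!
# A10b: density of commutators and nondegeneracy of the trace (see the header of A10)
-/

set_option autoImplicit false

namespace SimpCoh

variable {A : Type*} [CStarAlgebra A]

theorem comm_dense (τ : A →ₗ[ℂ] ℂ) (hW : WalkProp (fun x => τ x)) (y : A) (hy : τ y = 0) :
    y ∈ closure
      ((Submodule.span ℂ {x : A | ∃ a b : A, x = a * b - b * a} : Submodule ℂ A) : Set A) := by
  rw [Metric.mem_closure_iff]
  intro ε hε
  have hK : 0 < ‖y‖ + 1 := by positivity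
  set K : ℝ := ‖y‖ + 1 with hKdef
  have hKc : (K : ℂ) ≠ 0 := by exact_mod_cast hK.ne'
  set y' : A := ((K : ℂ)⁻¹) • y with hy'
  have hyK : y = (K : ℂ) • y' := by
    rw [hy', smul_smul, mul_inv_cancel₀ hKc, one_smul]
  have hnorm : ‖y'‖ ≤ 1 := by
    rw [hy', norm_smul, norm_inv, Complex.norm_real, Real.norm_of_nonneg hK.le,
      inv_mul_le_iff₀ hK]
    linarith
  obtain ⟨n, hn, r, hr⟩ := hW {1} {y'} (by
    intro x hx
    rw [Finset.mem_singleton.mp hx]
    refine ⟨?_, hnorm⟩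
    show τ y' = 0
    rw [hy', map_smul, hy, smul_zero]) (ε / (2 * K)) (by positivity) 1
  have h1 := hr y' (Finset.mem_singleton_self _) (fun _ => 1) (fun _ => Finset.mem_singleton_self _)
    (fun _ => 1) (fun _ => by simp)
  simp only [one_smul] at h1
  set V : ℕ → unitary A := fun j => word (fun _ => 1) r j with hV
  have h2 : ‖∑ j ∈ Finset.range n, ((V j : A) * y' * star (V j : A))‖ ≤ ε / (2 * K) * n := h1
  have hn0 : (0 : ℝ) < n := by exact_mod_cast hn
  have hn0c : (n : ℂ) ≠ 0 := by exact_mod_cast hn0.ne'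
  refine ⟨(n : ℂ)⁻¹ • ∑ j ∈ Finset.range n, (y - (V j : A) * y * star (V j : A)), ?_, ?_⟩
  · refine Submodule.smul_mem _ _ (Submodule.sum_mem _ fun j _ => Submodule.subset_span ?_)
    refine ⟨y * star (V j : A), V j, ?_⟩
    rw [mul_assoc y, Unitary.coe_star_mul_self, mul_one, mul_assoc]
  · have h3 : y - (n : ℂ)⁻¹ • ∑ j ∈ Finset.range n, (y - (V j : A) * y * star (V j : A)) =
        (n : ℂ)⁻¹ • (K : ℂ) • ∑ j ∈ Finset.range n, ((V j : A) * y' * star (V j : A)) := by
      rw [Finset.sum_sub_distrib, Finset.sum_const, Finset.card_range, smul_sub,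
        ← Nat.cast_smul_eq_nsmul ℂ, smul_smul, inv_mul_cancel₀ hn0c, one_smul, sub_sub_cancel,
        Finset.smul_sum (r := (K : ℂ))]
      congr 1
      refine Finset.sum_congr rfl fun j _ => ?_
      rw [← smul_mul_assoc, ← mul_smul_comm, ← hyK]
    rw [dist_eq_norm, h3, norm_smul, norm_smul, norm_inv, Complex.norm_natCast, Complex.norm_real,
      Real.norm_of_nonneg hK.le]
    calc (n : ℝ)⁻¹ * (K * ‖∑ j ∈ Finset.range n, ((V j : A) * y' * star (V j : A))‖)
        ≤ (n : ℝ)⁻¹ * (K * (ε / (2 * K) * n)) := by gcongr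
      _ = ε / 2 := by field_simp
      _ < ε := by linarith

theorem nondeg (τ : A →ₗ[ℂ] ℂ) (hτ : τ 1 = 1) (hf : ∀ x : A, τ (star x * x) = 0 → x = 0) (x : A)
    (hx : ∀ z : ℂ, x ≠ z • 1) : ∃ d, τ d = 0 ∧ τ (d * x) ≠ 0 := by
  set z : A := x - τ x • 1 with hz
  have hz0 : z ≠ 0 := by
    intro h
    exact hx (τ x) (sub_eq_zero.mp h)
  have hτz : τ z = 0 := by
    rw [hz, map_sub, map_smul, hτ, smul_eq_mul, mul_one, sub_self]
  have hd : τ (star z - τ (star z) • 1) = 0 := by
    rw [map_sub, map_smul, hτ, smul_eq_mul, mul_one, sub_self]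
  refine ⟨star z - τ (star z) • 1, hd, ?_⟩
  have hxz : x = z + τ x • 1 := by rw [hz, sub_add_cancel]
  have h1 : (star z - τ (star z) • 1) * x = star z * z - τ (star z) • z +
      τ x • (star z - τ (star z) • 1) := by
    conv_lhs => rw [hxz]
    rw [mul_add, mul_smul_comm, mul_one, sub_mul, smul_mul_assoc, one_mul]
  rw [h1, map_add, map_smul, hd, smul_zero, add_zero, map_sub, map_smul, hτz, smul_zero, sub_zero]
  exact fun h => hz0 (hf z h)

end SimpCoh
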