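import Pool.Agent.Lib.MP_263cac_an.Defs

/-!
# A7: Taylor expansion at the identity of a bilinear form vanishing on all pairs `(u, u*)`

`Ψ` bounded bilinear, `Ψ(u, u*) = 0` for all unitaries.  For `x` self-adjoint put `e(t) = exp(i t x)` (unitary, `e(t)* = e(-t) = exp(-i t x)`)
and `f_{jk}(t) = Ψ(x^j e(t), x^k e(-t))`; then `f_{jk}' = i (f_{j+1,k} - f_{j,k+1})` and `f_{00} = 0` identically, so
`f_{10} - f_{01} = 0`, `f_{20} - 2 f_{11} + f_{02} = 0`, `f_{30} - 3 f_{21} + 3 f_{12} - f_{03} = 0` identically; put `t = 0`.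
(`hasDerivAt_exp_smul_const` gives the derivative of `t ↦ exp(t • (i x))`; turn `Ψ` into a continuous bilinear map, or use
the product rule for it: `LinearMap.mkContinuous₂`.)
-/

set_option autoImplicit false

namespace SimpCoh

variable {A : Type*} [CStarAlgebra A]

open NormedSpace in
private noncomputable def a7u (x : A) (j : ℕ) (t : ℝ) : A := x ^ j * exp (t • (Complex.I • x))

open NormedSpace in
private noncomputable def a7v (x : A) (j : ℕ) (t : ℝ) : A := x ^ j * exp (t • (-(Complex.I • x)))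

private theorem a7_smul_pow (x : A) (j : ℕ) (y : A) :
    x ^ j * ((Complex.I • x) * y) = Complex.I • (x ^ (j + 1) * y) := by
  rw [smul_mul_assoc, mul_smul_comm, pow_succ, mul_assoc]

private theorem a7_du (x : A) (j : ℕ) (t : ℝ) :
    HasDerivAt (a7u x j) (Complex.I • a7u x (j + 1) t) t := by
  have h1 := (hasDerivAt_exp_smul_const' (𝕂 := ℝ) (Complex.I • x) t).const_mul (x ^ j)
  rw [a7_smul_pow] at h1
  exact h1

private theorem a7_dv (x : A) (j : ℕ) (t : ℝ) :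
    HasDerivAt (a7v x j) ((-Complex.I) • a7v x (j + 1) t) t := by
  have h1 := (hasDerivAt_exp_smul_const' (𝕂 := ℝ) (-(Complex.I • x)) t).const_mul (x ^ j)
  rw [neg_mul, mul_neg, a7_smul_pow] at h1
  rw [neg_smul]
  exact h1

private noncomputable def a7B (Ψ : A → A → ℂ) {C : ℝ} (h : Bil C Ψ) : A →L[ℝ] A →L[ℝ] ℂ :=
  LinearMap.mkContinuous₂ (LinearMap.mk₂ ℝ Ψ h.add₁
    (fun c a b => by rw [← Complex.coe_smul, h.smul₁, Complex.real_smul]) h.add₂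
    (fun c a b => by rw [← Complex.coe_smul, h.smul₂, Complex.real_smul])) C h.bd

private theorem a7_df (Ψ : A → A → ℂ) {C : ℝ} (h : Bil C Ψ) (x : A) (j k : ℕ) (t : ℝ) :
    HasDerivAt (fun t => Ψ (a7u x j t) (a7v x k t))
      (Complex.I * (Ψ (a7u x (j + 1) t) (a7v x k t) - Ψ (a7u x j t) (a7v x (k + 1) t))) t := by
  have h1 : HasDerivAt (fun t => a7B Ψ h (a7u x j t) (a7v x k t))
      (a7B Ψ h (a7u x j t) ((-Complex.I) • a7v x (k + 1) t) +
        a7B Ψ h (Complex.I • a7u x (j + 1) t) (a7v x k t)) t :=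
    (a7B Ψ h).hasDerivAt_of_bilinear (fun _ => a7_du x j t) (fun _ => a7_dv x k t)
  have h2 : a7B Ψ h (a7u x j t) ((-Complex.I) • a7v x (k + 1) t) +
      a7B Ψ h (Complex.I • a7u x (j + 1) t) (a7v x k t) =
      Complex.I * (Ψ (a7u x (j + 1) t) (a7v x k t) - Ψ (a7u x j t) (a7v x (k + 1) t)) := by
    show Ψ (a7u x j t) ((-Complex.I) • a7v x (k + 1) t) +
      Ψ (Complex.I • a7u x (j + 1) t) (a7v x k t) = _
    rw [h.smul₁, h.smul₂]
    ring
  rw [h2] at h1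
  exact h1

private theorem a7_zero (Ψ : A → A → ℂ) (h0 : ∀ u : unitary A, Ψ (u : A) (star (u : A)) = 0)
    (x : A) (hx : IsSelfAdjoint x) (t : ℝ) : Ψ (a7u x 0 t) (a7v x 0 t) = 0 := by
  let +nondep : NormedAlgebra ℚ A := .restrictScalars ℚ ℂ A
  have hs : star (t • (Complex.I • x)) = t • (-(Complex.I • x)) := by
    rw [star_smul, star_smul, hx.star_eq, star_trivial, Complex.star_def, Complex.conj_I, neg_smul]
  have h1 : NormedSpace.exp (t • (Complex.I • x)) ∈ unitary A := by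
    refine NormedSpace.exp_mem_unitary_of_mem_skewAdjoint ?_
    rw [skewAdjoint.mem_iff, hs, smul_neg]
  have h2 := h0 ⟨_, h1⟩
  have h3 : star (NormedSpace.exp (t • (Complex.I • x))) =
      NormedSpace.exp (t • (-(Complex.I • x))) := by
    rw [NormedSpace.star_exp, hs]
  simp only [a7u, a7v, pow_zero, one_mul]
  rw [← h3]
  exact h2

private theorem a7_at_zero (x : A) (j : ℕ) : a7u x j 0 = x ^ j ∧ a7v x j 0 = x ^ j := by
  constructor
  · rw [a7u, zero_smul, NormedSpace.exp_zero, mul_one]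
  · rw [a7v, zero_smul, NormedSpace.exp_zero, mul_one]

private theorem a7_deriv_zero {f : ℝ → ℂ} {d : ℂ} {t : ℝ} (hf : ∀ s, f s = 0)
    (h : HasDerivAt f d t) : d = 0 := by
  have h1 : f = fun _ => 0 := funext hf
  rw [h1] at h
  exact h.unique (hasDerivAt_const t 0)

theorem taylor (Ψ : A → A → ℂ) {C : ℝ} (h : Bil C Ψ)
    (h0 : ∀ u : unitary A, Ψ (u : A) (star (u : A)) = 0) (x : A) (hx : IsSelfAdjoint x) :
    Ψ 1 1 = 0 ∧ Ψ x 1 = Ψ 1 x ∧ Ψ (x ^ 2) 1 - 2 * Ψ x x + Ψ 1 (x ^ 2) = 0 ∧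
      Ψ (x ^ 3) 1 - 3 * Ψ (x ^ 2) x + 3 * Ψ x (x ^ 2) - Ψ 1 (x ^ 3) = 0 := by
  have f0 : ∀ t : ℝ, Ψ (a7u x 0 t) (a7v x 0 t) = 0 := a7_zero Ψ h0 x hx
  have hI : Complex.I ≠ 0 := Complex.I_ne_zero
  have f1 : ∀ t : ℝ, Ψ (a7u x 1 t) (a7v x 0 t) - Ψ (a7u x 0 t) (a7v x 1 t) = 0 := by
    intro t
    have h1 := a7_deriv_zero f0 (a7_df Ψ h x 0 0 t)
    exact (mul_eq_zero.1 h1).resolve_left hI
  have f2 : ∀ t : ℝ, Ψ (a7u x 2 t) (a7v x 0 t) - 2 * Ψ (a7u x 1 t) (a7v x 1 t) +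
      Ψ (a7u x 0 t) (a7v x 2 t) = 0 := by
    intro t
    have h1 := a7_deriv_zero f1 ((a7_df Ψ h x 1 0 t).sub (a7_df Ψ h x 0 1 t))
    have h2 : Complex.I * (Ψ (a7u x 2 t) (a7v x 0 t) - 2 * Ψ (a7u x 1 t) (a7v x 1 t) +
      Ψ (a7u x 0 t) (a7v x 2 t)) = 0 := by
      rw [← h1]
      ring
    exact (mul_eq_zero.1 h2).resolve_left hI
  have f3 : ∀ t : ℝ, Ψ (a7u x 3 t) (a7v x 0 t) - 3 * Ψ (a7u x 2 t) (a7v x 1 t) +
      3 * Ψ (a7u x 1 t) (a7v x 2 t) - Ψ (a7u x 0 t) (a7v x 3 t) = 0 := by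
    intro t
    have h1 := a7_deriv_zero f2 (((a7_df Ψ h x 2 0 t).sub
      ((a7_df Ψ h x 1 1 t).const_mul 2)).add (a7_df Ψ h x 0 2 t))
    have h2 : Complex.I * (Ψ (a7u x 3 t) (a7v x 0 t) - 3 * Ψ (a7u x 2 t) (a7v x 1 t) +
      3 * Ψ (a7u x 1 t) (a7v x 2 t) - Ψ (a7u x 0 t) (a7v x 3 t)) = 0 := by
      rw [← h1]
      ring
    exact (mul_eq_zero.1 h2).resolve_left hI
  have g0 := f0 0
  have g1 := f1 0
  have g2 := f2 0
  have g3 := f3 0
  rw [(a7_at_zero x 0).1, (a7_at_zero x 0).2, pow_zero] at g0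
  rw [(a7_at_zero x 0).1, (a7_at_zero x 0).2, (a7_at_zero x 1).1, (a7_at_zero x 1).2, pow_zero,
    pow_one, sub_eq_zero] at g1
  rw [(a7_at_zero x 0).1, (a7_at_zero x 0).2, (a7_at_zero x 1).1, (a7_at_zero x 1).2,
    (a7_at_zero x 2).1, (a7_at_zero x 2).2, pow_zero, pow_one] at g2
  rw [(a7_at_zero x 0).1, (a7_at_zero x 0).2, (a7_at_zero x 1).1, (a7_at_zero x 1).2,
    (a7_at_zero x 2).1, (a7_at_zero x 2).2, (a7_at_zero x 3).1, (a7_at_zero x 3).2,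
    pow_zero, pow_one] at g3
  exact ⟨g0, g1, g2, g3⟩

end SimpCoh
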