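import Pool.Agent.Lib.MP_263cac_an.Defs
import Pool.Agent.Lib.MP_263cac_an.A7

/-!
# A8: from the identity on unitaries to an antisymmetric cocycle

`Φ` normalized cocycle (`Φ(1,1;c) = 0`), `Φ(u,u*;y) = Af(u;u*y) + Bf(u*;yu)` for all unitaries.
`taylor` for `Ψ(a,b) = Φ(a,b;y) - Af(a; b y) - Bf(b; y a)`: order 0: `Af(1;y) + Bf(1;y) = 0`; order 1 (for self-adjoint `h`, with
`Φ(h,1;y) = Φ(1,h;y) = 0`): `Bf(h;y) = Af(h;y) - Af(1;hy) - Af(1;yh)`, hence for all `x` (real and imaginary part):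
`Bf(x;y) = Af(x;y) - Af(1;xy) - Af(1;yx)`.  Put `S(x;y) = Af(x;y) - Af(1;yx)`; then `G = Φ - cob S` satisfies `G(u,u*;y) = 0`:
`S(u;u*y) = Af(u;u*y) - Af(1;u*yu)`, `S(u*;yu) = Af(u*;yu) - Af(1;y)`, `S(1;y) = 0`,
`G(u,u*;y) = Bf(u*;yu) + Af(1;u*yu) - Af(u*;yu) + Af(1;y) = 0`.

`antisym`, `symm3`: `taylor` for `Ψ = G(·,·;y)` with `G(1,x) = G(x,1) = 0`: `G(h,h) = 0`, so `G(h,k) = - G(k,h)` for self-adjoint `h, k`
(polarize `h + k`), hence for all; order 3: `-3 G(h²,h) + 3 G(h,h²) = 0`, so `G(h,h²) = 0` for `h` self-adjoint; polarize: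
`L(a,b,c) = G(a,bc+cb) + G(b,ac+ca) + G(c,ab+ba)` is symmetric trilinear and
`L(a,b,c) = Q(a+b+c) - Q(a+b) - Q(a+c) - Q(b+c) + Q(a) + Q(b) + Q(c)` with `Q(h) = G(h,h²)`, so `L = 0` on self-adjoint elements, hence everywhere.
-/

set_option autoImplicit false

namespace SimpCoh

variable {A : Type*} [CStarAlgebra A]

/-- a linear functional that vanishes on self-adjoint elements is zero -/
theorem a8_ext (f : A → ℂ) (hadd : ∀ a b, f (a + b) = f a + f b)
    (hsmul : ∀ (z : ℂ) a, f (z • a) = z * f a) (h : ∀ x, IsSelfAdjoint x → f x = 0) (a : A) :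
    f a = 0 := by
  rw [← realPart_add_I_smul_imaginaryPart a, hadd, hsmul, h _ (realPart a).2,
    h _ (imaginaryPart a).2]
  simp

theorem a8_abs {C : ℝ} (x y : ℝ) (z : ℂ) (hx : 0 ≤ x) (hy : 0 ≤ y) (h : ‖z‖ ≤ C * x * y) :
    ‖z‖ ≤ |C| * x * y := by
  refine h.trans ?_
  exact mul_le_mul_of_nonneg_right (mul_le_mul_of_nonneg_right (le_abs_self C) hx) hy

theorem unitary_to_G {C Ca Cb : ℝ} {Φ : A → A → A → ℂ} (h : Tri C Φ) (hc : Coc Φ)
    (hn : ∀ c, Φ 1 1 c = 0) {Af Bf : A → A → ℂ} (ha : Bil Ca Af) (hb : Bil Cb Bf)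
    (hE : ∀ (u : unitary A) (y : A), Φ (u : A) (star (u : A)) y
        = Af (u : A) (star (u : A) * y) + Bf (star (u : A)) (y * (u : A))) :
    ∀ (u : unitary A) (y : A), Φ (u : A) (star (u : A)) y
      - cob (fun x y => Af x y - Af 1 (y * x)) (u : A) (star (u : A)) y = 0 := by
  have hl : ∀ x d, Φ 1 x d = 0 := fun x d => by rw [coc_one_left hc, hn]
  have hr : ∀ x d, Φ x 1 d = 0 := fun x d => by rw [coc_one_right hc, hn]
  have hbil : ∀ y : A, Bil ((|C| + |Ca| + |Cb|) * ‖y‖)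
      (fun a b => Φ a b y - Af a (b * y) - Bf b (y * a)) := by
    intro y
    refine ⟨?_, ?_, ?_, ?_, ?_⟩
    · intro a a' b
      simp only [h.add₁, ha.add₁, mul_add, hb.add₂]
      ring
    · intro a b b'
      simp only [h.add₂, add_mul, ha.add₂, hb.add₁]
      ring
    · intro z a b
      simp only [h.smul₁, ha.smul₁, mul_smul_comm, hb.smul₂]
      ring
    · intro z a b
      simp only [h.smul₂, smul_mul_assoc, ha.smul₂, hb.smul₁]
      ring
    · intro a b
      have h1 : ‖Φ a b y‖ ≤ |C| * ‖a‖ * ‖b‖ * ‖y‖ := by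
        refine (h.bd a b y).trans ?_
        have := le_abs_self C
        gcongr
      have h2 : ‖Af a (b * y)‖ ≤ |Ca| * ‖a‖ * (‖b‖ * ‖y‖) := by
        refine (a8_abs ‖a‖ ‖b * y‖ _ (norm_nonneg _) (norm_nonneg _) (ha.bd a (b * y))).trans ?_
        have := norm_mul_le b y
        gcongr
      have h3 : ‖Bf b (y * a)‖ ≤ |Cb| * ‖b‖ * (‖y‖ * ‖a‖) := by
        refine (a8_abs ‖b‖ ‖y * a‖ _ (norm_nonneg _) (norm_nonneg _) (hb.bd b (y * a))).trans ?_
        have := norm_mul_le y a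
        gcongr
      have h4 := norm_sub_le (Φ a b y - Af a (b * y)) (Bf b (y * a))
      have h5 := norm_sub_le (Φ a b y) (Af a (b * y))
      calc ‖Φ a b y - Af a (b * y) - Bf b (y * a)‖
          ≤ |C| * ‖a‖ * ‖b‖ * ‖y‖ + |Ca| * ‖a‖ * (‖b‖ * ‖y‖) + |Cb| * ‖b‖ * (‖y‖ * ‖a‖) := by
            linarith
        _ = (|C| + |Ca| + |Cb|) * ‖y‖ * ‖a‖ * ‖b‖ := by ring
  have h0 : ∀ (y : A) (u : unitary A),
      (fun a b => Φ a b y - Af a (b * y) - Bf b (y * a)) (u : A) (star (u : A)) = 0 := by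
    intro y u
    simp only
    rw [hE u y]
    ring
  have ht := fun (y x : A) (hx : IsSelfAdjoint x) => taylor _ (hbil y) (h0 y) x hx
  have hone : ∀ y, Af 1 y + Bf 1 y = 0 := by
    intro y
    have h1 := (ht y 0 (IsSelfAdjoint.zero A)).1
    simp only [one_mul, mul_one, hn] at h1
    linear_combination -h1
  have hBf : ∀ y x, Bf x y - Af x y + Af 1 (y * x) + Af 1 (x * y) = 0 := by
    intro y
    refine a8_ext _ ?_ ?_ ?_
    · intro a b
      simp only [hb.add₁, ha.add₁, mul_add, add_mul, ha.add₂]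
      ring
    · intro z a
      simp only [hb.smul₁, ha.smul₁, mul_smul_comm, smul_mul_assoc, ha.smul₂]
      ring
    · intro x hx
      have h1 := (ht y x hx).2.1
      simp only [one_mul, mul_one, hl, hr] at h1
      have h2 := hone (y * x)
      linear_combination h1 + h2
  intro u y
  have h1 := hBf (y * u) (star (u : A))
  have h2 : (u : A) * star (u : A) = 1 := Unitary.mul_star_self_of_mem u.2
  have h3 : y * (u : A) * star (u : A) = y := by rw [mul_assoc, h2, mul_one]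
  rw [h3] at h1
  rw [hE u y]
  simp only [cob, h2, h3, mul_one]
  rw [← mul_assoc] at h1
  linear_combination h1

theorem a8_bilG {C : ℝ} {G : A → A → A → ℂ} (h : Tri C G) (y : A) :
    Bil (|C| * ‖y‖) (fun a b => G a b y) := by
  refine ⟨fun a a' b => h.add₁ a a' b y, fun a b b' => h.add₂ a b b' y,
    fun z a b => h.smul₁ z a b y, fun z a b => h.smul₂ z a b y, fun a b => ?_⟩
  have h1 : C * ‖a‖ * ‖b‖ * ‖y‖ ≤ |C| * ‖a‖ * ‖b‖ * ‖y‖ := by
    have := le_abs_self C
    gcongr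
  have h2 := (h.bd a b y).trans h1
  calc ‖G a b y‖ ≤ |C| * ‖a‖ * ‖b‖ * ‖y‖ := h2
    _ = |C| * ‖y‖ * ‖a‖ * ‖b‖ := by ring

theorem antisym {C : ℝ} {G : A → A → A → ℂ} (h : Tri C G) (hc : Coc G) (hn : ∀ c, G 1 1 c = 0)
    (h0 : ∀ (u : unitary A) (y : A), G (u : A) (star (u : A)) y = 0) (a b c : A) :
    G a b c = - G b a c := by
  have hl : ∀ x d, G 1 x d = 0 := fun x d => by rw [coc_one_left hc, hn]
  have hr : ∀ x d, G x 1 d = 0 := fun x d => by rw [coc_one_right hc, hn]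
  have h1 : ∀ x, IsSelfAdjoint x → G x x c = 0 := by
    intro x hx
    have h2 := (taylor _ (a8_bilG h c) (fun u => h0 u c) x hx).2.2.1
    simp only [hl, hr] at h2
    linear_combination (-1 / 2) * h2
  have h2 : ∀ x, IsSelfAdjoint x → ∀ y, G x y c + G y x c = 0 := by
    intro x hx
    refine a8_ext _ ?_ ?_ ?_
    · intro a b
      rw [h.add₁, h.add₂]
      ring
    · intro z a
      rw [h.smul₁, h.smul₂]
      ring
    · intro y hy
      have h3 := h1 (x + y) (hx.add hy)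
      rw [h.add₁, h.add₂, h.add₂, h1 x hx, h1 y hy] at h3
      linear_combination h3
  have h3 : ∀ y x, G x y c + G y x c = 0 := by
    intro y
    refine a8_ext _ ?_ ?_ (fun x hx => h2 x hx y)
    · intro a b
      rw [h.add₁, h.add₂]
      ring
    · intro z a
      rw [h.smul₁, h.smul₂]
      ring
  linear_combination h3 b a

theorem symm3 {C : ℝ} {G : A → A → A → ℂ} (h : Tri C G) (hc : Coc G) (hn : ∀ c, G 1 1 c = 0)
    (h0 : ∀ (u : unitary A) (y : A), G (u : A) (star (u : A)) y = 0) (a b c d : A) :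
    G a (b * c + c * b) d + G b (a * c + c * a) d + G c (a * b + b * a) d = 0 := by
  have hl : ∀ x d, G 1 x d = 0 := fun x d => by rw [coc_one_left hc, hn]
  have hr : ∀ x d, G x 1 d = 0 := fun x d => by rw [coc_one_right hc, hn]
  have h1 : ∀ x, IsSelfAdjoint x → G x (x * x) d = 0 := by
    intro x hx
    have h2 := (taylor _ (a8_bilG h d) (fun u => h0 u d) x hx).2.2.2
    simp only [hl, hr] at h2
    rw [antisym h hc hn h0 (x ^ 2) x d, pow_two] at h2
    linear_combination (1 / 6) * h2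
  have h2 : ∀ x y z : A, IsSelfAdjoint x → IsSelfAdjoint y → IsSelfAdjoint z →
      G x (y * z + z * y) d + G y (x * z + z * x) d + G z (x * y + y * x) d = 0 := by
    intro x y z hx hy hz
    have e1 := h1 x hx
    have e2 := h1 y hy
    have e3 := h1 z hz
    have e4 := h1 (x + y) (hx.add hy)
    have e5 := h1 (x + z) (hx.add hz)
    have e6 := h1 (y + z) (hy.add hz)
    have e7 := h1 (x + y + z) ((hx.add hy).add hz)
    simp only [add_mul, mul_add, h.add₁, h.add₂] at e1 e2 e3 e4 e5 e6 e7 ⊢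
    linear_combination e7 - e4 - e5 - e6 + e1 + e2 + e3
  have h3 : ∀ x y : A, IsSelfAdjoint x → IsSelfAdjoint y → ∀ z : A,
      G x (y * z + z * y) d + G y (x * z + z * x) d + G z (x * y + y * x) d = 0 := by
    intro x y hx hy
    refine a8_ext _ ?_ ?_ (fun z hz => h2 x y z hx hy hz)
    · intro a b
      simp only [add_mul, mul_add, h.add₁, h.add₂]
      ring
    · intro z a
      simp only [smul_mul_assoc, mul_smul_comm, h.add₂, h.smul₁, h.smul₂]
      ring
  have h4 : ∀ x : A, IsSelfAdjoint x → ∀ z y : A,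
      G x (y * z + z * y) d + G y (x * z + z * x) d + G z (x * y + y * x) d = 0 := by
    intro x hx z
    refine a8_ext _ ?_ ?_ (fun y hy => h3 x y hx hy z)
    · intro a b
      simp only [add_mul, mul_add, h.add₁, h.add₂]
      ring
    · intro z a
      simp only [smul_mul_assoc, mul_smul_comm, h.add₂, h.smul₁, h.smul₂]
      ring
  have h5 : ∀ z y x : A,
      G x (y * z + z * y) d + G y (x * z + z * x) d + G z (x * y + y * x) d = 0 := by
    intro z y
    refine a8_ext _ ?_ ?_ (fun x hx => h4 x hx z y)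
    · intro a b
      simp only [add_mul, mul_add, h.add₁, h.add₂]
      ring
    · intro z a
      simp only [smul_mul_assoc, mul_smul_comm, h.add₂, h.smul₁, h.smul₂]
      ring
  exact h5 c b a

end SimpCoh
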