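import Pool.Agent.Lib.MP_263cac_an.Defs

/-!
# A9: an antisymmetric cocycle with `symm3` vanishes (Lie algebra argument)

`G` bounded trilinear, cocycle, `G(1,1;c) = 0`, antisymmetric (`ha`), `hL`: `G(a,bc+cb;d) + G(b,ac+ca;d) + G(c,ab+ba;d) = 0`.
(iv) `G(a, zc; d) + G(c, za; d) = G(a,z;dc) + G(c,z;da)`:
   add the cocycle identities at (a,c,z;d) and (c,a,z;d), the terms `G(a,c;zd) + G(c,a;zd)` cancel:
   `G(ac+ca,z;d) = G(c,z;da) + G(a,z;dc) + G(a,cz;d) + G(c,az;d)`; and `hL(a,c,z)` + antisymmetry: `G(ac+ca,z) = G(a,cz+zc) + G(c,az+za)`.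
(v) `G(ab - ba, c; d) = G(a,b; dc - cd)`: cocycle at (a,b,c;d): `G(ab,c;d) = G(b,c;da) + G(a,bc;d) - G(a,b;cd)`;
   (iv) with `z = b`: `G(a,bc;d) = G(c,b;da) + G(a,b;dc) - G(c,ba;d) = -G(b,c;da) + G(a,b;dc) + G(ba,c;d)`.
With `[x,y] = xy - yx` and `T(a,b,c;d) := G([a,b],c;d) = - G(a,b;[c,d])`:
(t1) `T(a,b,c) = - T(b,a,c)`.
(t2) for `a = [a',a'']` a commutator: `T(a,b,c;d) = - G([a',a''],b;[c,d]) = G(a',a'';[b,[c,d]])`, so
   `T(a,b,c;d) - T(a,c,b;d) = G(a',a'';[[b,c],d]) = - G([a',a''],[b,c];d) = G([b,c],a;d) = T(b,c,a;d)`.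
(t3) Jacobi: `[[a,b],c] + [[b,c],a] + [[c,a],b] = 0`, so (apply `G(·, w; d)`, (v) on each term: `G([[a,b],c],w;d) = - G([a,b],c;[w,d]) = - T(a,b,c;[w,d])`)
   `T(a,b,c;[w,d]) + T(b,c,a;[w,d]) + T(c,a,b;[w,d]) = 0`.
(t2) at `[w,d]`: `T(b,c,a) = T(a,b,c) - T(a,c,b) = T(a,b,c) + T(c,a,b)`, with (t3): `T(b,c,a;[w,d]) = - T(b,c,a;[w,d])`, so it is `0`:
(vi) `G([b,c], a; [w,d]) = 0` for all `b, c, w, d` and every commutator `a = [a',a'']`.
By linearity and continuity `G(x, y; z) = 0` for `x, y, z` in the closure of the span of commutators, i.e. for `τ x = τ y = τ z = 0` (`hK`).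
As `G(1,x;c) = G(x,1;c) = 0` (cocycle + `hn`): `G(x,y;z) = G(x,y;1) τ(z)` for all `x,y,z`  (write `x = τ(x) 1 + x°` etc.; `τ 1 = 1`).
Finally (iv) with `a = c = x`: `G(x, zx; d) = G(x,z;dx)`, so `G(x,zx;1) τ(d) = G(x,z;1) τ(dx)` for all `d`; if `x ∉ ℂ 1` take `d` with `τ d = 0`,
`τ(dx) ≠ 0` (`hnd`): `G(x,z;1) = 0`; if `x ∈ ℂ1` it is `0` anyway.  So `G = 0`.
-/

set_option autoImplicit false

namespace SimpCoh

variable {A : Type*} [CStarAlgebra A]

namespace Tri
variable {C : ℝ} {G : A → A → A → ℂ}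

theorem neg₁ (h : Tri C G) (a b c : A) : G (-a) b c = - G a b c := by
  have := h.smul₁ (-1) a b c
  simpa using this

theorem neg₂ (h : Tri C G) (a b c : A) : G a (-b) c = - G a b c := by
  have := h.smul₂ (-1) a b c
  simpa using this

theorem neg₃ (h : Tri C G) (a b c : A) : G a b (-c) = - G a b c := by
  have := h.smul₃ (-1) a b c
  simpa using this

theorem sub₁ (h : Tri C G) (a a' b c : A) : G (a - a') b c = G a b c - G a' b c := by
  rw [sub_eq_add_neg, h.add₁, h.neg₁]; ring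

theorem sub₂ (h : Tri C G) (a b b' c : A) : G a (b - b') c = G a b c - G a b' c := by
  rw [sub_eq_add_neg, h.add₂, h.neg₂]; ring

theorem sub₃ (h : Tri C G) (a b c c' : A) : G a b (c - c') = G a b c - G a b c' := by
  rw [sub_eq_add_neg, h.add₃, h.neg₃]; ring

theorem zero₁ (h : Tri C G) (b c : A) : G 0 b c = 0 := by
  have := h.smul₁ 0 0 b c
  simpa using this

theorem zero₂ (h : Tri C G) (a c : A) : G a 0 c = 0 := by
  have := h.smul₂ 0 a 0 c
  simpa using this

theorem zero₃ (h : Tri C G) (a b : A) : G a b 0 = 0 := by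
  have := h.smul₃ 0 a b 0
  simpa using this

end Tri

theorem iv {C : ℝ} {G : A → A → A → ℂ} (h : Tri C G) (hc : Coc G)
    (ha : ∀ a b c, G a b c = - G b a c)
    (hL : ∀ a b c d, G a (b * c + c * b) d + G b (a * c + c * a) d + G c (a * b + b * a) d = 0)
    (a c z d : A) : G a (z * c) d + G c (z * a) d = G a z (d * c) + G c z (d * a) := by
  have e1 := hc a c z d
  have e2 := hc c a z d
  have e3 := hL a c z d
  have e4 := ha a c (z * d)
  have e5 := ha z (a * c) d
  have e6 := ha z (c * a) d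
  simp only [h.add₂] at e3
  linear_combination e3 - e1 - e2 - e5 - e6 - e4

theorem five {C : ℝ} {G : A → A → A → ℂ} (h : Tri C G) (hc : Coc G)
    (ha : ∀ a b c, G a b c = - G b a c)
    (hL : ∀ a b c d, G a (b * c + c * b) d + G b (a * c + c * a) d + G c (a * b + b * a) d = 0)
    (a b c d : A) : G (a * b - b * a) c d = G a b (d * c - c * d) := by
  have e1 := hc a b c d
  have e2 := iv h hc ha hL a c b d
  have e3 := ha c b (d * a)
  have e4 := ha c (b * a) d
  rw [h.sub₁, h.sub₃]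
  linear_combination -e1 + e2 - e4 + e3

theorem six {C : ℝ} {G : A → A → A → ℂ} (h : Tri C G) 
    (ha : ∀ a b c, G a b c = - G b a c)
    (hv : ∀ a b c d, G (a * b - b * a) c d = G a b (d * c - c * d))
    (b c a' a'' w d : A) :
    G (b * c - c * b) (a' * a'' - a'' * a') (w * d - d * w) = 0 := by
  set a : A := a' * a'' - a'' * a' with ha_def
  set W : A := w * d - d * w with hW
  -- (t2)
  have t2a : G (a * b - b * a) c W = G a' a'' ((W * c - c * W) * b - b * (W * c - c * W)) := by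
    rw [hv a b c W, ha_def, hv a' a'' b (W * c - c * W)]
  have t2b : G (a * c - c * a) b W = G a' a'' ((W * b - b * W) * c - c * (W * b - b * W)) := by
    rw [hv a c b W, ha_def, hv a' a'' c (W * b - b * W)]
  have t2c : G (b * c - c * b) a W = - G a' a'' (W * (b * c - c * b) - (b * c - c * b) * W) := by
    rw [ha (b * c - c * b) a W, ha_def, hv a' a'' (b * c - c * b) W]
  have t2 : G (a * b - b * a) c W - G (a * c - c * a) b W = G (b * c - c * b) a W := by
    rw [t2a, t2b, t2c, ← h.sub₃, ← h.neg₃]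
    congr 1
    noncomm_ring
  -- (t3)
  have key : ∀ x y z : A, G (x * y - y * x) z W
      = - G ((x * y - y * x) * z - z * (x * y - y * x)) w d := by
    intro x y z
    rw [hv (x * y - y * x) z w d, ← h.neg₃]
    congr 1
    rw [hW]; abel
  have t3 : G (a * b - b * a) c W + G (b * c - c * b) a W + G (c * a - a * c) b W = 0 := by
    rw [key a b c, key b c a, key c a b]
    have : G (((a * b - b * a) * c - c * (a * b - b * a))
        + ((b * c - c * b) * a - a * (b * c - c * b))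
        + ((c * a - a * c) * b - b * (c * a - a * c))) w d = 0 := by
      have e : ((a * b - b * a) * c - c * (a * b - b * a))
        + ((b * c - c * b) * a - a * (b * c - c * b))
        + ((c * a - a * c) * b - b * (c * a - a * c)) = 0 := by noncomm_ring
      rw [e, h.zero₁]
    rw [h.add₁, h.add₁] at this
    linear_combination -this
  have t4 : G (a * c - c * a) b W = - G (c * a - a * c) b W := by
    rw [← h.neg₁]; congr 1; abel
  have : (2 : ℂ) * G (b * c - c * b) a W = 0 := by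
    linear_combination -t2 + t3 - t4
  simpa using this

/-- the bilinear consequence of continuity: vanishing on the span and on the closure -/
theorem Tri.zero_of_closure {C : ℝ} {G : A → A → A → ℂ} (h : Tri C G) (K : Set A)
    (h0 : ∀ x ∈ K, ∀ y ∈ K, ∀ z ∈ K, G x y z = 0) :
    ∀ x ∈ closure ((Submodule.span ℂ K : Submodule ℂ A) : Set A),
    ∀ y ∈ closure ((Submodule.span ℂ K : Submodule ℂ A) : Set A),
    ∀ z ∈ closure ((Submodule.span ℂ K : Submodule ℂ A) : Set A), G x y z = 0 := by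
  -- a general one variable principle
  have one : ∀ (f : A → ℂ) (M : ℝ), (∀ a b, f (a + b) = f a + f b) →
      (∀ (z : ℂ) a, f (z • a) = z * f a) → (∀ a, ‖f a‖ ≤ M * ‖a‖) → (∀ x ∈ K, f x = 0) →
      ∀ x ∈ closure ((Submodule.span ℂ K : Submodule ℂ A) : Set A), f x = 0 := by
    intro f M hadd hsm hbd hK
    let F : A →L[ℂ] ℂ := LinearMap.mkContinuous
      { toFun := f, map_add' := hadd, map_smul' := by intro z a; simpa using hsm z a } M hbd
    have hF : ∀ x, F x = f x := fun x => rfl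
    have hspan : ∀ x ∈ (Submodule.span ℂ K : Submodule ℂ A), F x = 0 := by
      intro x hx
      have : (Submodule.span ℂ K : Submodule ℂ A) ≤ LinearMap.ker (F : A →ₗ[ℂ] ℂ) := by
        rw [Submodule.span_le]
        intro y hy
        simpa [LinearMap.mem_ker] using (hF y).trans (hK y hy)
      simpa using this hx
    intro x hx
    rw [← hF]
    have hclosed : IsClosed {x | F x = 0} := isClosed_eq F.continuous continuous_const
    exact closure_minimal (fun y hy => hspan y hy) hclosed hx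
  intro x hx y hy z hz
  have s1 : ∀ y ∈ K, ∀ z ∈ K, G x y z = 0 := by
    intro y hy z hz
    refine one (fun x => G x y z) (C * ‖y‖ * ‖z‖) (fun a b => h.add₁ a b y z)
      (fun c a => h.smul₁ c a y z) (fun a => ?_) (fun x hx => h0 x hx y hy z hz) x hx
    have := h.bd a y z
    calc ‖G a y z‖ ≤ C * ‖a‖ * ‖y‖ * ‖z‖ := this
      _ = C * ‖y‖ * ‖z‖ * ‖a‖ := by ring
  have s2 : ∀ z ∈ K, G x y z = 0 := by
    intro z hz
    refine one (fun y => G x y z) (C * ‖x‖ * ‖z‖) (fun a b => h.add₂ x a b z)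
      (fun c a => h.smul₂ c x a z) (fun a => ?_) (fun y hy => s1 y hy z hz) y hy
    calc ‖G x a z‖ ≤ C * ‖x‖ * ‖a‖ * ‖z‖ := h.bd x a z
      _ = C * ‖x‖ * ‖z‖ * ‖a‖ := by ring
  exact one (fun z => G x y z) (C * ‖x‖ * ‖y‖) (fun a b => h.add₃ x y a b)
      (fun c a => h.smul₃ c x y a) (fun a => h.bd x y a) s2 z hz

theorem G_zero (τ : A →ₗ[ℂ] ℂ) (hτ1 : τ 1 = 1)
    (hK : ∀ y, τ y = 0 → y ∈ closure
      ((Submodule.span ℂ {x : A | ∃ a b : A, x = a * b - b * a} : Submodule ℂ A) : Set A))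
    (hnd : ∀ x : A, (∀ z : ℂ, x ≠ z • 1) → ∃ d, τ d = 0 ∧ τ (d * x) ≠ 0)
    {C : ℝ} {G : A → A → A → ℂ} (h : Tri C G) (hc : Coc G) (hn : ∀ c, G 1 1 c = 0)
    (ha : ∀ a b c, G a b c = - G b a c)
    (hL : ∀ a b c d, G a (b * c + c * b) d + G b (a * c + c * a) d + G c (a * b + b * a) d = 0) :
    ∀ x y z, G x y z = 0 := by
  have hv := five h hc ha hL
  have h6 := six h ha hv
  have hl : ∀ x c, G 1 x c = 0 := fun x c => by rw [coc_one_left hc, hn]
  have hr : ∀ x c, G x 1 c = 0 := fun x c => by rw [coc_one_right hc, hn]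
  have hcl := h.zero_of_closure {x : A | ∃ a b : A, x = a * b - b * a} (by
    rintro x ⟨x1, x2, rfl⟩ y ⟨y1, y2, rfl⟩ z ⟨z1, z2, rfl⟩
    exact h6 x1 x2 y1 y2 z1 z2)
  -- factorization through the trace
  have fac : ∀ x y z, G x y z = G x y 1 * τ z := by
    intro x y z
    set x0 := x - τ x • (1 : A) with hx0
    set y0 := y - τ y • (1 : A) with hy0
    set z0 := z - τ z • (1 : A) with hz0
    have tx : τ x0 = 0 := by simp [hx0, hτ1]
    have ty : τ y0 = 0 := by simp [hy0, hτ1]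
    have tz : τ z0 = 0 := by simp [hz0, hτ1]
    have e0 := hcl x0 (hK _ tx) y0 (hK _ ty) z0 (hK _ tz)
    have e1 : ∀ c, G x y c = G x0 y0 c := by
      intro c
      rw [hx0, hy0, h.sub₁, h.smul₁, hl, h.sub₂, h.smul₂, hr]; ring
    rw [hz0, h.sub₃, h.smul₃] at e0
    rw [e1 z, e1 1]
    linear_combination e0
  intro x y z
  by_cases hx : ∀ c : ℂ, x ≠ c • 1
  · obtain ⟨d, hd, hdx⟩ := hnd x hx
    have e := iv h hc ha hL x x y d
    have e' : G x (y * x) d = G x y (d * x) := by linear_combination e / 2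
    rw [fac x (y * x) d, fac x y (d * x), hd, mul_zero] at e'
    have : G x y 1 = 0 := by
      rcases mul_eq_zero.mp e'.symm with h' | h'
      · exact h'
      · exact absurd h' hdx
    rw [fac, this, zero_mul]
  · push Not at hx
    obtain ⟨c, rfl⟩ := hx
    rw [h.smul₁, hl, mul_zero]

end SimpCoh
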