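import Pool.Agent.Lib.MP_263cac_an.A6
import Pool.Agent.Lib.MP_263cac_an.A8
import Pool.Agent.Lib.MP_263cac_an.A9
import Pool.Agent.Lib.MP_263cac_an.A10
import Pool.Agent.Lib.MP_263cac_an.A10b

/-!
# A10c: `H2_forms` (see the header of A10)
-/

set_option autoImplicit false

namespace SimpCoh

variable {A : Type*} [CStarAlgebra A]

theorem A10c_cob_tri {C : ℝ} (hC : 0 ≤ C) {S : A → A → ℂ} (h : Bil C S) : Tri (3 * C) (cob S) where
  add₁ a a' b c := by
    simp only [cob, mul_add, add_mul, h.add₁, h.add₂]; ring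
  add₂ a b b' c := by
    simp only [cob, mul_add, add_mul, h.add₁, h.add₂]; ring
  add₃ a b c c' := by
    simp only [cob, mul_add, add_mul, h.add₂]; ring
  smul₁ z a b c := by
    simp only [cob, mul_smul_comm, smul_mul_assoc, h.smul₁, h.smul₂]; ring
  smul₂ z a b c := by
    simp only [cob, mul_smul_comm, smul_mul_assoc, h.smul₁, h.smul₂]; ring
  smul₃ z a b c := by
    simp only [cob, mul_smul_comm, smul_mul_assoc, h.smul₂]; ring
  bd a b c := by
    have h1 : ‖S b (c * a)‖ ≤ C * ‖a‖ * ‖b‖ * ‖c‖ := by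
      refine (h.bd _ _).trans ?_
      calc C * ‖b‖ * ‖c * a‖ ≤ C * ‖b‖ * (‖c‖ * ‖a‖) :=
            mul_le_mul_of_nonneg_left (norm_mul_le _ _) (by positivity)
        _ = _ := by ring
    have h2 : ‖S (a * b) c‖ ≤ C * ‖a‖ * ‖b‖ * ‖c‖ := by
      refine (h.bd _ _).trans ?_
      calc C * ‖a * b‖ * ‖c‖ ≤ C * (‖a‖ * ‖b‖) * ‖c‖ :=
            mul_le_mul_of_nonneg_right (mul_le_mul_of_nonneg_left (norm_mul_le _ _) hC)
              (norm_nonneg _)
        _ = _ := by ring
    have h3 : ‖S a (b * c)‖ ≤ C * ‖a‖ * ‖b‖ * ‖c‖ := by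
      refine (h.bd _ _).trans ?_
      calc C * ‖a‖ * ‖b * c‖ ≤ C * ‖a‖ * (‖b‖ * ‖c‖) :=
            mul_le_mul_of_nonneg_left (norm_mul_le _ _) (by positivity)
        _ = _ := by ring
    calc ‖cob S a b c‖ ≤ ‖S b (c * a) - S (a * b) c‖ + ‖S a (b * c)‖ := norm_add_le _ _
      _ ≤ ‖S b (c * a)‖ + ‖S (a * b) c‖ + ‖S a (b * c)‖ :=
          add_le_add (norm_sub_le _ _) le_rfl
      _ ≤ 3 * C * ‖a‖ * ‖b‖ * ‖c‖ := by linarith

theorem A10c_cob_coc (S : A → A → ℂ) : Coc (cob S) := by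
  intro a b c d
  simp only [cob, mul_assoc]
  ring

theorem A10c_sub_tri {C C' : ℝ} {f g : A → A → A → ℂ} (hf : Tri C f) (hg : Tri C' g) :
    Tri (C + C') (fun a b c => f a b c - g a b c) where
  add₁ a a' b c := by rw [hf.add₁, hg.add₁]; ring
  add₂ a b b' c := by rw [hf.add₂, hg.add₂]; ring
  add₃ a b c c' := by rw [hf.add₃, hg.add₃]; ring
  smul₁ z a b c := by rw [hf.smul₁, hg.smul₁]; ring
  smul₂ z a b c := by rw [hf.smul₂, hg.smul₂]; ring
  smul₃ z a b c := by rw [hf.smul₃, hg.smul₃]; ring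
  bd a b c := by
    refine (norm_sub_le _ _).trans ?_
    have h1 := hf.bd a b c
    have h2 := hg.bd a b c
    linarith

theorem A10c_sub_coc {f g : A → A → A → ℂ} (hf : Coc f) (hg : Coc g) :
    Coc (fun a b c => f a b c - g a b c) := by
  intro a b c d
  have h1 := hf a b c d
  have h2 := hg a b c d
  linear_combination h1 - h2

theorem A10c_bil_add {C C' : ℝ} {f g : A → A → ℂ} (hf : Bil C f) (hg : Bil C' g) :
    Bil (C + C') (fun a b => f a b + g a b) where
  add₁ a a' b := by rw [hf.add₁, hg.add₁]; ring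
  add₂ a b b' := by rw [hf.add₂, hg.add₂]; ring
  smul₁ z a b := by rw [hf.smul₁, hg.smul₁]; ring
  smul₂ z a b := by rw [hf.smul₂, hg.smul₂]; ring
  bd a b := by
    refine (norm_add_le _ _).trans ?_
    have h1 := hf.bd a b
    have h2 := hg.bd a b
    linarith

theorem A10c_bil_sub {C C' : ℝ} {f g : A → A → ℂ} (hf : Bil C f) (hg : Bil C' g) :
    Bil (C + C') (fun a b => f a b - g a b) where
  add₁ a a' b := by rw [hf.add₁, hg.add₁]; ring
  add₂ a b b' := by rw [hf.add₂, hg.add₂]; ring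
  smul₁ z a b := by rw [hf.smul₁, hg.smul₁]; ring
  smul₂ z a b := by rw [hf.smul₂, hg.smul₂]; ring
  bd a b := by
    refine (norm_sub_le _ _).trans ?_
    have h1 := hf.bd a b
    have h2 := hg.bd a b
    linarith

theorem H2_forms (τ : A →ₗ[ℂ] ℂ) (hτ : τ 1 = 1) (hf : ∀ x : A, τ (star x * x) = 0 → x = 0)
    (hW : WalkProp (fun x => τ x)) {C : ℝ} (hC : 0 ≤ C) {Φ : A → A → A → ℂ} (h : Tri C Φ)
    (hc : Coc Φ) : ∃ (C' : ℝ) (S : A → A → ℂ), Bil C' S ∧ ∀ a b c, Φ a b c = cob S a b c := by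
  have hnt : Nontrivial A := by
    refine ⟨⟨0, 1, fun h0 => ?_⟩⟩
    have h1 : τ 0 = τ 1 := congrArg τ h0
    rw [map_zero, hτ] at h1
    exact zero_ne_one h1
  have hone : ‖(1 : A)‖ = 1 := CStarRing.norm_one
  -- normalisation
  have hψ : Bil C (fun x c => Φ 1 1 (x * c)) :=
    { add₁ := fun a a' b => by simp only [add_mul, h.add₃]
      add₂ := fun a b b' => by simp only [mul_add, h.add₃]
      smul₁ := fun z a b => by simp only [smul_mul_assoc, h.smul₃]
      smul₂ := fun z a b => by simp only [mul_smul_comm, h.smul₃]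
      bd := fun a b => by
        refine (h.bd _ _ _).trans ?_
        rw [hone, mul_one, mul_one, mul_assoc]
        exact mul_le_mul_of_nonneg_left (norm_mul_le _ _) hC }
  have h' := A10c_sub_tri h (A10c_cob_tri hC hψ)
  have hc' := A10c_sub_coc hc (A10c_cob_coc (fun x c => Φ 1 1 (x * c)))
  have hn' : ∀ c, Φ 1 1 c - cob (fun x c => Φ 1 1 (x * c)) 1 1 c = 0 := by
    intro c
    simp only [cob, mul_one, one_mul]
    ring
  have hC4 : 0 ≤ C + 3 * C := by linarith
  obtain ⟨Af, Bf, hA, hB, hE⟩ := exact_identity τ hτ hW hC4 h' hc'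
  have h0 := unitary_to_G h' hc' hn' hA hB hE
  have hA1 : Bil (7 * (C + 3 * C)) (fun x y => Af 1 (y * x)) :=
    { add₁ := fun a a' b => by simp only [mul_add, hA.add₂]
      add₂ := fun a b b' => by simp only [add_mul, hA.add₂]
      smul₁ := fun z a b => by simp only [mul_smul_comm, hA.smul₂]
      smul₂ := fun z a b => by simp only [smul_mul_assoc, hA.smul₂]
      bd := fun a b => by
        refine (hA.bd _ _).trans ?_
        rw [hone, mul_one]
        calc 7 * (C + 3 * C) * ‖b * a‖ ≤ 7 * (C + 3 * C) * (‖b‖ * ‖a‖) :=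
              mul_le_mul_of_nonneg_left (norm_mul_le _ _) (by positivity)
          _ = _ := by ring }
  have hS := A10c_bil_sub hA hA1
  have hCS : 0 ≤ 7 * (C + 3 * C) + 7 * (C + 3 * C) := by positivity
  have hG := A10c_sub_tri h' (A10c_cob_tri hCS hS)
  have hGc := A10c_sub_coc hc' (A10c_cob_coc (fun x y => Af x y - Af 1 (y * x)))
  have hGn : ∀ c, (Φ 1 1 c - cob (fun x c => Φ 1 1 (x * c)) 1 1 c) -
      cob (fun x y => Af x y - Af 1 (y * x)) 1 1 c = 0 := by
    intro c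
    rw [hn' c]
    simp only [cob, mul_one, one_mul]
    ring
  have hanti := antisym hG hGc hGn h0
  have hsym := symm3 hG hGc hGn h0
  have hzero := G_zero τ hτ (comm_dense τ hW) (nondeg τ hτ hf) hG hGc hGn hanti hsym
  refine ⟨_, _, A10c_bil_add hψ hS, fun a b c => ?_⟩
  have h2 := hzero a b c
  simp only [cob] at h2 ⊢
  linear_combination h2

theorem H2_main (τ : A →ₗ[ℂ] ℂ) (hτ : τ 1 = 1) (hf : ∀ x : A, τ (star x * x) = 0 → x = 0)
    (hW : WalkProp (fun x => τ x)) : H2Vanishes A :=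
  H2_of_forms fun _ _ hC h hc => H2_forms τ hτ hf hW hC h hc

end SimpCoh
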