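import Pool.Agent.Lib.MP_263cac_an.A1
import Pool.Agent.Lib.MP_263cac_an.A10c

/-!
# A11: the ping-pong property implies the walk property

Given `F, Y, ε, N`: choose `n ≥ N`, `n ≥ 1`, `32 ≤ ε² n`, `δ = 1/n²`.  Apply the hypothesis to
`X = F ∪ Y ∪ {y* u} ∪ {y u} ∪ {u* y u}` (`u ∈ F, y ∈ Y`) and `δ`, get `r, Pp, Pm`.  In `B` put `p = 1 - Pm`, `q = Pp`,
`u_j = π(u j)`, `y_j = g_j • π y`.  `norm_word_sum` applies: h1: `‖Pm π(u) Pp‖ ≤ δ`; h2: `‖Pm g π(y) Pm‖ ≤ δ` since `τ y = 0`;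
h3, h4: `X`; h5: `τ(u* y u) = τ(y) = 0` by the trace property.  So `‖Σ‖ ≤ 4 sqrt (n + n³/n²) = 4 sqrt(2n) ≤ ε n`; `π` is isometric
(injective) and `π (word u r j) = word (π ∘ u) (π r) j`.
-/

set_option autoImplicit false

namespace SimpCoh

variable {A B : Type*} [CStarAlgebra A] [CStarAlgebra B]

/-- Ping-pong property of `(A, τ)` in the representation `π : A → B`. -/
def PingPongRep (π : A →⋆ₐ[ℂ] B) (τ : A → ℂ) : Prop :=
  ∀ (X : Finset A) (δ : ℝ), 0 < δ → ∃ (r : unitary A) (Pp Pm : B),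
    IsSelfAdjoint Pp ∧ Pp * Pp = Pp ∧ IsSelfAdjoint Pm ∧ Pm * Pm = Pm ∧
    (1 - Pp) * π (r : A) * (1 - Pm) = 0 ∧
    ∀ x ∈ X, ‖Pm * π x * Pp‖ ≤ δ ∧ ‖Pp * π x * Pp - τ x • Pp‖ ≤ δ ∧
      ‖Pm * π x * Pm - τ x • Pm‖ ≤ δ

theorem walk_of_pp (π : A →⋆ₐ[ℂ] B) (hπ : Function.Injective π) (τ : A →ₗ[ℂ] ℂ)
    (htr : ∀ x y, τ (x * y) = τ (y * x)) (hpp : PingPongRep π (fun x => τ x)) :
    WalkProp (fun x => τ x) := by
  classical
  intro F Y hY ε hε N
  -- choice of `n`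
  obtain ⟨n, hnN, hn1, hnε⟩ : ∃ n : ℕ, N ≤ n ∧ 1 ≤ n ∧ 32 ≤ ε ^ 2 * n := by
    obtain ⟨m, hm⟩ := exists_nat_ge (32 / ε ^ 2)
    refine ⟨max N (max 1 m), le_max_left _ _, (le_max_left _ _).trans (le_max_right _ _), ?_⟩
    have h1 : (m : ℝ) ≤ ((max N (max 1 m) : ℕ) : ℝ) := by
      exact_mod_cast (le_max_right 1 m).trans (le_max_right N (max 1 m))
    have h2 : 32 / ε ^ 2 ≤ ((max N (max 1 m) : ℕ) : ℝ) := hm.trans h1
    rw [div_le_iff₀' (by positivity)] at h2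
    exact h2
  have hnpos : (0 : ℝ) < n := by exact_mod_cast hn1
  refine ⟨n, hnN, ?_⟩
  let X : Finset A := (F.image fun u : unitary A => (u : A)) ∪ Y ∪
    ((F ×ˢ Y).image fun q => star q.2 * (q.1 : A)) ∪ ((F ×ˢ Y).image fun q => q.2 * (q.1 : A)) ∪
    ((F ×ˢ Y).image fun q => star (q.1 : A) * q.2 * (q.1 : A))
  have hX1 : ∀ u ∈ F, (u : A) ∈ X := by
    intro u hu
    simp only [X, Finset.mem_union, Finset.mem_image]
    exact Or.inl (Or.inl (Or.inl (Or.inl ⟨u, hu, rfl⟩)))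
  have hX2 : ∀ y ∈ Y, y ∈ X := by
    intro y hy
    simp only [X, Finset.mem_union]
    exact Or.inl (Or.inl (Or.inl (Or.inr hy)))
  have hX3 : ∀ u ∈ F, ∀ y ∈ Y, star y * (u : A) ∈ X := by
    intro u hu y hy
    simp only [X, Finset.mem_union, Finset.mem_image]
    exact Or.inl (Or.inl (Or.inr ⟨(u, y), Finset.mk_mem_product hu hy, rfl⟩))
  have hX4 : ∀ u ∈ F, ∀ y ∈ Y, y * (u : A) ∈ X := by
    intro u hu y hy
    simp only [X, Finset.mem_union, Finset.mem_image]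
    exact Or.inl (Or.inr ⟨(u, y), Finset.mk_mem_product hu hy, rfl⟩)
  have hX5 : ∀ u ∈ F, ∀ y ∈ Y, star (u : A) * y * (u : A) ∈ X := by
    intro u hu y hy
    simp only [X, Finset.mem_union, Finset.mem_image]
    exact Or.inr ⟨(u, y), Finset.mk_mem_product hu hy, rfl⟩
  obtain ⟨r, Pp, Pm, hPp, hPp2, hPm, hPm2, h0, hXb⟩ := hpp X (1 / (n : ℝ) ^ 2) (by positivity)
  refine ⟨r, fun y hy u hu g hg => ?_⟩
  have hτy : τ y = 0 := (hY y hy).1
  have hyn : ‖y‖ ≤ 1 := (hY y hy).2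
  have hπu : ∀ v : unitary A, π (v : A) ∈ unitary B := by
    intro v
    rw [Unitary.mem_iff]
    constructor
    · rw [← map_star, ← map_mul, (Unitary.mem_iff.mp v.2).1, map_one]
    · rw [← map_star, ← map_mul, (Unitary.mem_iff.mp v.2).2, map_one]
  have hword : ∀ j, π ((word u r j : unitary A) : A) =
      word (fun j => π (u j : A)) (π (r : A)) j := by
    intro j
    induction j with
    | zero => simp [word]
    | succ j ih => simp only [word, Submonoid.coe_mul, map_mul, ih]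
  have hsm : ∀ (z : ℂ) (x : B) (δ : ℝ), ‖z‖ ≤ 1 → ‖x‖ ≤ δ → ‖z • x‖ ≤ δ := by
    intro z x δ hz hx
    rw [norm_smul]
    calc ‖z‖ * ‖x‖ ≤ 1 * ‖x‖ := mul_le_mul_of_nonneg_right hz (norm_nonneg _)
      _ ≤ δ := by rw [one_mul]; exact hx
  have key := norm_word_sum (1 - Pm) Pp (π (r : A))
    ((IsSelfAdjoint.one B).sub hPm)
    (by rw [sub_mul, mul_sub, mul_sub, hPm2]; simp)
    hPp hPp2 (hπu r) h0 n (1 / (n : ℝ) ^ 2) (by positivity)
    (fun j => π (u j : A)) (fun j => g j • π y) (fun j => hπu (u j))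
    (fun j => hsm _ _ _ (hg j) ((NonUnitalStarAlgHom.norm_map π hπ y).le.trans hyn))
    (fun j => by
      rw [sub_sub_cancel]
      exact (hXb _ (hX1 _ (hu j))).1)
    (fun j => by
      rw [sub_sub_cancel, mul_smul_comm, smul_mul_assoc]
      refine hsm _ _ _ (hg j) ?_
      have h1 := (hXb _ (hX2 _ hy)).2.2
      simp only [hτy, zero_smul, sub_zero] at h1
      exact h1)
    (fun j => by
      rw [sub_sub_cancel, star_smul, smul_mul_assoc, mul_smul_comm, smul_mul_assoc, ← map_star,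
        ← map_mul]
      exact hsm _ _ _ (by rw [norm_star]; exact hg j) (hXb _ (hX3 _ (hu j) _ hy)).1)
    (fun j => by
      rw [sub_sub_cancel, smul_mul_assoc, mul_smul_comm, smul_mul_assoc, ← map_mul]
      exact hsm _ _ _ (hg j) (hXb _ (hX4 _ (hu j) _ hy)).1)
    (fun j => by
      rw [mul_smul_comm, smul_mul_assoc, mul_smul_comm, smul_mul_assoc, ← map_star, ← map_mul,
        ← map_mul]
      refine hsm _ _ _ (hg j) ?_
      have h1 := (hXb _ (hX5 _ (hu j) _ hy)).2.1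
      have h2 : τ (star (u j : A) * y * (u j : A)) = 0 := by
        rw [htr, ← mul_assoc, (Unitary.mem_iff.mp (u j).2).2, one_mul, hτy]
      simp only [h2, zero_smul, sub_zero] at h1
      exact h1)
  have hπs : π (∑ j ∈ Finset.range n,
      g j • ((word u r j : unitary A) * y * star ((word u r j : unitary A) : A))) =
      ∑ j ∈ Finset.range n, word (fun j => π (u j : A)) (π (r : A)) j * (g j • π y) *
        star (word (fun j => π (u j : A)) (π (r : A)) j) := by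
    rw [map_sum]
    refine Finset.sum_congr rfl fun j _ => ?_
    rw [map_smul, map_mul, map_mul, map_star, hword, mul_smul_comm, smul_mul_assoc]
  rw [← NonUnitalStarAlgHom.norm_map π hπ, hπs]
  refine key.trans ?_
  have h1 : (n : ℝ) + (n : ℝ) ^ 3 * (1 / (n : ℝ) ^ 2) = 2 * n := by
    field_simp
    ring
  rw [h1]
  have h2 : Real.sqrt (2 * n) ≤ ε * n / 4 := by
    rw [Real.sqrt_le_left (by positivity)]
    nlinarith [mul_le_mul_of_nonneg_right hnε hnpos.le]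
  linarith

/-- The abstract theorem. -/
theorem H2_of_pingPong (π : A →⋆ₐ[ℂ] B) (hπ : Function.Injective π) (τ : A →ₗ[ℂ] ℂ)
    (hτ : τ 1 = 1) (htr : ∀ x y, τ (x * y) = τ (y * x))
    (hf : ∀ x : A, τ (star x * x) = 0 → x = 0) (hpp : PingPongRep π (fun x => τ x)) :
    H2Vanishes A :=
  H2_main τ hτ hf (walk_of_pp π hπ τ htr hpp)

end SimpCoh
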