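import Pool.Agent.Lib.MP_263cac_an.B2
import Pool.Agent.Lib.MP_263cac_an.A11

/-!
# B3: ping-pong groups

`PPGroup G`: for every finite `E ⊆ G \ {1}` there are `g ∈ G` and disjoint `Sp, Sm ⊆ G` with `g (G \ Sm) ⊆ Sp` and
`e (Sp ∪ Sm) ∩ (Sp ∪ Sm) = ∅` for `e ∈ E`.
Given `X ⊆ C*_r(G)` finite and `δ`: choose for `x ∈ X` an element `x'` of the span of `λ(G)` with `‖x - x'‖ ≤ δ/2`, let `E` be the set of all
group elements `≠ 1` occurring in the `x'`; `r = λ(g)`, `Pp = ind Sp`, `Pm = ind Sm`.  `Pm λ(s) Pp = 0` for `s ∈ E ∪ {1}`, `Pp λ(s) Pp = 0 = Pm λ(s) Pm`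
for `s ∈ E`; `(1-Pp) λ(g) (1-Pm) = 0`; so `Pm x' Pp = 0`, `Pp x' Pp = tr(x') Pp`, `Pm x' Pm = tr(x') Pm` and `|tr x - tr x'| ≤ δ/2`.
-/

set_option autoImplicit false

namespace SimpCoh

variable {G : Type*} [Group G]

/-- Ping-pong groups. -/
def PPGroup (G : Type*) [Group G] : Prop :=
  ∀ E : Finset G, 1 ∉ E → ∃ (g : G) (Sp Sm : Set G), Disjoint Sp Sm ∧
    (∀ x, x ∉ Sm → g * x ∈ Sp) ∧ ∀ e ∈ E, ∀ x ∈ Sp ∪ Sm, e * x ∉ Sp ∪ Sm

/-- if the support condition holds then the corner of `λ(s)` vanishes -/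
theorem corner_zero (S T : Set G) (s : G) (h : ∀ x ∈ T, s * x ∉ S) :
    ind S * lam s * ind T = 0 := by
  apply ContinuousLinearMap.ext
  intro f
  apply lp.ext
  funext x
  rw [ContinuousLinearMap.mul_apply, ContinuousLinearMap.mul_apply, ind_apply]
  rw [ContinuousLinearMap.zero_apply, lp.coeFn_zero, Pi.zero_apply]
  by_cases hx : x ∈ S
  · rw [Set.indicator_of_mem hx, lam_apply, ind_apply]
    apply Set.indicator_of_notMem
    intro h1
    have h2 := h _ h1
    rw [mul_inv_cancel_left] at h2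
    exact h2 hx
  · rw [Set.indicator_of_notMem hx]

theorem corner_compl (Sp Sm : Set G) (g : G) (h : ∀ x, x ∉ Sm → g * x ∈ Sp) :
    (1 - ind Sp) * lam g * (1 - ind Sm) = 0 := by
  apply ContinuousLinearMap.ext
  intro f
  apply lp.ext
  funext x
  rw [ContinuousLinearMap.mul_apply, ContinuousLinearMap.mul_apply]
  rw [ContinuousLinearMap.zero_apply, lp.coeFn_zero, Pi.zero_apply]
  rw [ContinuousLinearMap.sub_apply, lp.coeFn_sub, Pi.sub_apply, ContinuousLinearMap.one_apply,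
    ind_apply]
  by_cases hx : x ∈ Sp
  · rw [Set.indicator_of_mem hx, sub_self]
  · rw [Set.indicator_of_notMem hx, sub_zero, lam_apply]
    rw [ContinuousLinearMap.sub_apply, lp.coeFn_sub, Pi.sub_apply, ContinuousLinearMap.one_apply,
      ind_apply]
    have hm : g⁻¹ * x ∈ Sm := by
      by_contra hm
      have h2 := h _ hm
      rw [mul_inv_cancel_left] at h2
      exact hx h2
    rw [Set.indicator_of_mem hm, sub_self]

theorem b3_gen_norm {B : Type*} [CStarAlgebra B] (p : B) (h0 : IsSelfAdjoint p)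
    (h : p * p = p) : ‖p‖ ≤ 1 := by
  have h1 : ‖star p * p‖ = ‖p‖ * ‖p‖ := CStarRing.norm_star_mul_self
  rw [h0.star_eq, h] at h1
  by_contra h2
  push Not at h2
  nlinarith

theorem b3_gen_corner {B : Type*} [CStarAlgebra B] (p q x : B) (hp : ‖p‖ ≤ 1) (hq : ‖q‖ ≤ 1) :
    ‖p * x * q‖ ≤ ‖x‖ := by
  have h1 := norm_mul_le (p * x) q
  have h2 := norm_mul_le p x
  have h5 := norm_nonneg x
  have h6 := norm_nonneg q
  have h8 : ‖p‖ * ‖x‖ ≤ 1 * ‖x‖ := mul_le_mul_of_nonneg_right hp h5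
  have h9 : ‖p * x‖ * ‖q‖ ≤ ‖x‖ * 1 :=
    mul_le_mul (by linarith) hq h6 h5
  linarith

theorem b3_gen_off {B : Type*} [CStarAlgebra B] (p q x y : B) (hp : ‖p‖ ≤ 1) (hq : ‖q‖ ≤ 1)
    (δ : ℝ) (hδ : 0 < δ) (hxy : ‖x - y‖ ≤ δ / 2) (hy : p * y * q = 0) : ‖p * x * q‖ ≤ δ := by
  have h1 : p * x * q = p * (x - y) * q := by
    rw [mul_sub, sub_mul, hy, sub_zero]
  rw [h1]
  have h2 := b3_gen_corner p q (x - y) hp hq
  linarith

theorem b3_gen_diag {B : Type*} [CStarAlgebra B] (p x y : B) (hp : ‖p‖ ≤ 1)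
    (δ : ℝ) (hδ : 0 < δ) (hxy : ‖x - y‖ ≤ δ / 2) (t c : ℂ) (ht : ‖t - c‖ ≤ δ / 2)
    (hy : p * y * p = c • p) : ‖p * x * p - t • p‖ ≤ δ := by
  have h1 : p * x * p - t • p = p * (x - y) * p - (t - c) • p := by
    rw [mul_sub, sub_mul, hy, sub_smul]
    abel
  rw [h1]
  refine (norm_sub_le _ _).trans ?_
  have h2 := (b3_gen_corner p p (x - y) hp hp).trans hxy
  have h3 : ‖(t - c) • p‖ ≤ δ / 2 := by
    rw [norm_smul]
    have h6 := mul_le_mul ht hp (norm_nonneg p) (half_pos hδ).le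
    linarith
  linarith

theorem b3_ind_norm (S : Set G) : ‖ind S‖ ≤ 1 :=
  b3_gen_norm (ind S) (ind_selfAdjoint S) (by rw [ind_mul, Set.inter_self])

theorem b3_corner_sum (S T : Set G) (c : G →₀ ℂ)
    (h : ∀ s ∈ c.support, s ≠ 1 → ind S * lam s * ind T = 0) :
    ind S * (c.sum fun s a => a • lam s) * ind T = c 1 • (ind S * ind T) := by
  classical
  rw [Finsupp.sum, Finset.mul_sum, Finset.sum_mul]
  have h1 : ∀ s ∈ c.support, ind S * (c s • lam s) * ind T
      = if s = 1 then c 1 • (ind S * ind T) else 0 := by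
    intro s hs
    split_ifs with h1
    · rw [h1, lam_one, mul_smul_comm, smul_mul_assoc, mul_one]
    · rw [mul_smul_comm, smul_mul_assoc, h s hs h1, smul_zero]
  rw [Finset.sum_congr rfl h1, Finset.sum_ite_eq']
  split_ifs with h2
  · rfl
  · rw [Finsupp.notMem_support_iff.1 h2, zero_smul]

open Classical in
/-- the matrix coefficient at the unit -/
noncomputable def b3phi (G : Type*) [Group G] : (ell2 G →L[ℂ] ell2 G) →ₗ[ℂ] ℂ where
  toFun T := (T (del 1)) 1
  map_add' S T := by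
    rw [ContinuousLinearMap.add_apply, lp.coeFn_add, Pi.add_apply]
  map_smul' z T := by
    rw [ContinuousLinearMap.smul_apply, lp.coeFn_smul, Pi.smul_apply, RingHom.id_apply]

theorem b3phi_one : b3phi G (lam 1) = 1 := by
  classical
  show (lam (1 : G) (del 1)) 1 = _
  rw [lam_del, del_apply, mul_one, if_pos rfl]

theorem b3phi_ne (s : G) (hs : s ≠ 1) : b3phi G (lam s) = 0 := by
  classical
  show (lam s (del 1)) 1 = _
  rw [lam_del, del_apply, mul_one, if_neg (fun h' => hs h'.symm)]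

theorem b3phi_sum (c : G →₀ ℂ) : b3phi G (c.sum fun s a => a • lam s) = c 1 := by
  classical
  rw [Finsupp.sum, map_sum]
  have h1 : ∀ s ∈ c.support, b3phi G (c s • lam s) = if s = 1 then c 1 else 0 := by
    intro s _
    rw [map_smul]
    split_ifs with h1
    · rw [h1, b3phi_one, smul_eq_mul, mul_one]
    · rw [b3phi_ne s h1, smul_zero]
  rw [Finset.sum_congr rfl h1, Finset.sum_ite_eq']
  split_ifs with h2
  · rfl
  · rw [Finsupp.notMem_support_iff.1 h2]

theorem b3_lam_mem (g : G) : lam g ∈ redCstar G :=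
  StarSubalgebra.le_topologicalClosure _ (StarAlgebra.subset_adjoin ℂ _ ⟨g, rfl⟩)

theorem b3_sum_mem (c : G →₀ ℂ) : (c.sum fun s a => a • lam s) ∈ redCstar G := by
  rw [Finsupp.sum]
  exact sum_mem fun s _ => (redCstar G).smul_mem (b3_lam_mem s) _

theorem pp_of_group (h : PPGroup G) :
    PingPongRep (redCstar G).subtype (fun x => tr G x) := by
  classical
  intro X δ hδ
  have happ : ∀ x : redCstar G, ∃ c : G →₀ ℂ,
      ‖(x : ell2 G →L[ℂ] ell2 G) - c.sum fun s a => a • lam s‖ ≤ δ / 2 := by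
    intro x
    have h1 : (x : ell2 G →L[ℂ] ell2 G) ∈ closure
        ((Submodule.span ℂ (Set.range (lam (G := G))) : Submodule ℂ _) : Set _) := by
      rw [← redCstar_eq_closure_span]
      exact x.2
    obtain ⟨y, hy, hxy⟩ := Metric.mem_closure_iff.1 h1 (δ / 2) (half_pos hδ)
    obtain ⟨c, hc⟩ := (Finsupp.mem_span_range_iff_exists_finsupp).1 hy
    refine ⟨c, ?_⟩
    rw [hc, ← dist_eq_norm]
    exact hxy.le
  choose c hc using happ
  obtain ⟨g, Sp, Sm, hdis, hg, hE⟩ := h ((X.biUnion fun x => (c x).support).erase 1)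
    (Finset.notMem_erase _ _)
  have hu : (⟨lam g, b3_lam_mem g⟩ : redCstar G) ∈ unitary (redCstar G) := by
    rw [Unitary.mem_iff]
    have h1 := Unitary.mem_iff.1 (lam_unitary g)
    exact ⟨Subtype.ext h1.1, Subtype.ext h1.2⟩
  refine ⟨⟨⟨lam g, b3_lam_mem g⟩, hu⟩, ind Sp, ind Sm, ind_selfAdjoint _, ?_, ind_selfAdjoint _, ?_,
    corner_compl Sp Sm g hg, ?_⟩
  · rw [ind_mul, Set.inter_self]
  · rw [ind_mul, Set.inter_self]
  intro x hx
  have hsupp : ∀ s ∈ (c x).support, s ≠ 1 → ∀ y ∈ Sp ∪ Sm, s * y ∉ Sp ∪ Sm := by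
    intro s hs hs1
    exact hE s (Finset.mem_erase.2 ⟨hs1, Finset.mem_biUnion.2 ⟨x, hx, hs⟩⟩)
  have hcor : ∀ S T : Set G, S ⊆ Sp ∪ Sm → T ⊆ Sp ∪ Sm →
      ind S * ((c x).sum fun s a => a • lam s) * ind T = (c x) 1 • (ind S * ind T) := by
    intro S T hS hT
    apply b3_corner_sum
    intro s hs hs1
    apply corner_zero
    intro y hy hy'
    exact hsupp s hs hs1 y (hT hy) (hS hy')
  have htr : ‖tr G x - (c x) 1‖ ≤ δ / 2 := by
    have h1 := tr_bd (x - ⟨_, b3_sum_mem (c x)⟩)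
    have h2 : tr G (x - ⟨_, b3_sum_mem (c x)⟩) = tr G x - (c x) 1 := by
      rw [map_sub]
      congr 1
      exact b3phi_sum (c x)
    rw [h2] at h1
    exact h1.trans (hc x)
  refine ⟨?_, ?_, ?_⟩
  · refine b3_gen_off (ind Sm) (ind Sp) _ _ (b3_ind_norm Sm) (b3_ind_norm Sp) δ hδ (hc x) ?_
    rw [hcor Sm Sp Set.subset_union_right Set.subset_union_left]
    have h2 : ind Sm * ind Sp = 0 := by
      have h3 := corner_zero Sm Sp 1 (fun y hy hy' => by
        rw [one_mul] at hy'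
        exact Set.disjoint_left.1 hdis hy hy')
      rw [lam_one, mul_one] at h3
      exact h3
    rw [h2, smul_zero]
  · refine b3_gen_diag (ind Sp) _ _ (b3_ind_norm Sp) δ hδ (hc x) _ _ htr ?_
    rw [hcor Sp Sp Set.subset_union_left Set.subset_union_left, ind_mul, Set.inter_self]
  · refine b3_gen_diag (ind Sm) _ _ (b3_ind_norm Sm) δ hδ (hc x) _ _ htr ?_
    rw [hcor Sm Sm Set.subset_union_right Set.subset_union_right, ind_mul, Set.inter_self]

theorem H2_group (h : PPGroup G) : H2Vanishes (redCstar G) :=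
  H2_of_pingPong (redCstar G).subtype Subtype.val_injective (tr G) tr_one tr_comm tr_faithful
    (pp_of_group h)

end SimpCoh
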