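import Pool.Agent.Lib.MP_263cac_an.Defs

/-!
# The definitions used in the statement: `H2Zero`, `ExtremeFree`, `IsRedOn`
-/

set_option autoImplicit false

namespace SimpCoh

/-- `H²(A, A*) = 0`.  A bounded bilinear map `T : A × A → A*` is the bounded trilinear form `Φ a b c = T(a,b)(c)`, a bounded linear
map `ψ : A → A*` is the bounded bilinear form `S a c = ψ(a)(c)`.  With `(a·φ)(x) = φ(xa)` and `(φ·a)(x) = φ(ax)` the cocycle identity
`a·T(b,c) - T(ab,c) + T(a,bc) - T(a,b)·c = 0` is `Coc Φ`, and `T(a,b) = a·ψ(b) - ψ(ab) + ψ(a)·b` is `Φ a b c = cob S a b c`. -/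
def H2Zero (A : Type*) [CStarAlgebra A] : Prop :=
  ∀ (C : ℝ) (Φ : A → A → A → ℂ), Tri C Φ → Coc Φ →
    ∃ (C' : ℝ) (S : A → A → ℂ), Bil C' S ∧ ∀ a b c, Φ a b c = cob S a b c

/-- Topologically free extreme boundary action: `G` acts on `X` by homeomorphisms, every nonempty open set has at least two points,
for nonempty open `U`, `V` some `g` maps the complement of `U` into `V`, and the fixed point set of `g ≠ 1` has empty interior. -/
structure ExtremeFree (G X : Type*) [Group G] [TopologicalSpace X] [MulAction G X] : Prop where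
  cont : ∀ g : G, Continuous (fun x : X => g • x)
  noiso : ∀ U : Set X, IsOpen U → U.Nonempty → ∃ x ∈ U, ∃ y ∈ U, x ≠ y
  extreme : ∀ U V : Set X, IsOpen U → U.Nonempty → IsOpen V → V.Nonempty →
    ∃ g : G, ∀ x, x ∉ U → g • x ∈ V
  free : ∀ g : G, g ≠ 1 → interior {x : X | g • x = x} = ∅

/-- `A` is (a copy of) the reduced C*-algebra `C*_r(G)` of the discrete group `G`, represented on `H`: `H` has an orthonormal
basis `(b x)_{x ∈ G}`, there are bounded operators `L g` on `H` with `L g (b x) = b (g x)`, and an injective unital *-homomorphism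
`ι : A → B(H)` whose range is the norm closure of the linear span of the `L g`. -/
def IsRedOn (G A H : Type) [Group G] [CStarAlgebra A] [NormedAddCommGroup H] [InnerProductSpace ℂ H]
    [CompleteSpace H] : Prop :=
  ∃ (b : HilbertBasis G ℂ H) (L : G → H →L[ℂ] H) (ι : A →⋆ₐ[ℂ] (H →L[ℂ] H)),
    (∀ g x, L g (b x) = b (g * x)) ∧ Function.Injective ι ∧
      Set.range ι = closure (Submodule.span ℂ (Set.range L) : Set (H →L[ℂ] H))

end SimpCoh
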