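import Pool.Agent.Lib.MP_263cac_an.A11
import Pool.Agent.Lib.MP_263cac_an.Defs2
import Pool.Agent.Lib.MP_263cac_an.B3

/-!
# A12: the vanishing of `H²(A, A*)` in terms of bounded trilinear and bilinear forms
-/

set_option autoImplicit false

namespace SimpCoh

variable {A : Type*} [CStarAlgebra A]

/-- The abstract theorem. -/
theorem H2Zero_of_walk (τ : A →ₗ[ℂ] ℂ) (hτ : τ 1 = 1)
    (hf : ∀ x : A, τ (star x * x) = 0 → x = 0) (hW : WalkProp (fun x => τ x)) : H2Zero A := by
  intro C Φ h hc
  have h' : Tri |C| Φ :=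
    { add₁ := h.add₁, add₂ := h.add₂, add₃ := h.add₃, smul₁ := h.smul₁, smul₂ := h.smul₂,
      smul₃ := h.smul₃,
      bd := fun a b c => (h.bd a b c).trans (by gcongr; exact le_abs_self C) }
  exact H2_forms τ hτ hf hW (abs_nonneg C) h' hc

/-- The reduced group C*-algebra `C*_r(G)`, as a type. -/
def CrG (G : Type*) [Group G] : Type _ := redCstar G

noncomputable instance instCrG (G : Type*) [Group G] : CStarAlgebra (CrG G) :=
  StarSubalgebra.cstarAlgebra (redCstar G)

theorem H2Zero_group {G : Type*} [Group G] (h : PPGroup G) : H2Zero (CrG G) := by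
  have : H2Zero (redCstar G) :=
    H2Zero_of_walk (tr G) tr_one tr_faithful
      (walk_of_pp (redCstar G).subtype Subtype.val_injective (tr G) tr_comm (pp_of_group h))
  exact this

end SimpCoh
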