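import Pool.Agent.Lib.MP_263cac_an.A12

/-!
# A13: copies of the reduced group C*-algebra

`IsRedOn G A H`: `A` is *-isomorphic to the norm closure of the span of the left regular representation.
-/

set_option autoImplicit false

namespace SimpCoh

/-- Vanishing of `H²` transports along *-isomorphisms. -/
theorem H2Zero_congr {A B : Type*} [CStarAlgebra A] [CStarAlgebra B] (e : A ≃⋆ₐ[ℂ] B)
    (h : H2Zero B) : H2Zero A := by
  have hn : ∀ a : A, ‖e a‖ = ‖a‖ := fun a =>
    NonUnitalStarAlgHom.norm_map (e : A →⋆ₙₐ[ℂ] B) e.injective a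
  have hn' : ∀ b : B, ‖e.symm b‖ = ‖b‖ := fun b => by
    rw [← hn, StarAlgEquiv.apply_symm_apply]
  intro C Φ hΦ hc
  obtain ⟨C', S, hS, hS'⟩ := h C (fun x y z => Φ (e.symm x) (e.symm y) (e.symm z))
    { add₁ := fun a a' b c => by
        show Φ (e.symm (a + a')) _ _ = _
        rw [map_add, hΦ.add₁]
      add₂ := fun a b b' c => by
        show Φ _ (e.symm (b + b')) _ = _
        rw [map_add, hΦ.add₂]
      add₃ := fun a b c c' => by
        show Φ _ _ (e.symm (c + c')) = _
        rw [map_add, hΦ.add₃]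
      smul₁ := fun z a b c => by
        show Φ (e.symm (z • a)) _ _ = _
        rw [map_smul, hΦ.smul₁]
      smul₂ := fun z a b c => by
        show Φ _ (e.symm (z • b)) _ = _
        rw [map_smul, hΦ.smul₂]
      smul₃ := fun z a b c => by
        show Φ _ _ (e.symm (z • c)) = _
        rw [map_smul, hΦ.smul₃]
      bd := fun a b c => by
        have := hΦ.bd (e.symm a) (e.symm b) (e.symm c)
        rwa [hn', hn', hn'] at this }
    (by
      intro a b c d
      have := hc (e.symm a) (e.symm b) (e.symm c) (e.symm d)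
      simpa only [map_mul] using this)
  refine ⟨C', fun a c => S (e a) (e c), ?_, ?_⟩
  · exact
      { add₁ := fun a a' b => by
          show S (e (a + a')) _ = _
          rw [map_add, hS.add₁]
        add₂ := fun a b b' => by
          show S _ (e (b + b')) = _
          rw [map_add, hS.add₂]
        smul₁ := fun z a b => by
          show S (e (z • a)) _ = _
          rw [map_smul, hS.smul₁]
        smul₂ := fun z a b => by
          show S _ (e (z • b)) = _
          rw [map_smul, hS.smul₂]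
        bd := fun a b => by
          have := hS.bd (e a) (e b)
          rwa [hn, hn] at this }
  · intro a b c
    have := hS' (e a) (e b) (e c)
    simp only [StarAlgEquiv.symm_apply_apply] at this
    rw [this]
    simp only [cob, map_mul]

open Classical in
theorem conj_L {G : Type} [Group G] {H : Type} [NormedAddCommGroup H] [InnerProductSpace ℂ H]
    [CompleteSpace H] (b : HilbertBasis G ℂ H) (L : G → H →L[ℂ] H)
    (hL : ∀ g x, L g (b x) = b (g * x)) (g : G) :
    b.repr.conjStarAlgEquiv (L g) = lam g := by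
  refine ext_del _ _ fun x => ?_
  have h1 : ∀ y : G, b.repr.symm (del y) = b y := fun y => by
    unfold del
    rw [HilbertBasis.repr_symm_single]
  have h2 : ∀ y : G, b.repr (b y) = del y := fun y => by
    rw [← h1, LinearIsometryEquiv.apply_symm_apply]
  rw [LinearIsometryEquiv.conjStarAlgEquiv_apply_apply, h1, hL, h2, lam_del]

theorem equiv_of_isRed {G A H : Type} [Group G] [CStarAlgebra A] [NormedAddCommGroup H]
    [InnerProductSpace ℂ H] [CompleteSpace H] (h : IsRedOn G A H) :
    Nonempty (A ≃⋆ₐ[ℂ] redCstar G) := by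
  obtain ⟨b, L, ι, hL, hι, hr⟩ := h
  let c : (H →L[ℂ] H) ≃⋆ₐ[ℂ] (ell2 G →L[ℂ] ell2 G) := b.repr.conjStarAlgEquiv
  have hcL : ∀ g, c (L g) = lam g := conj_L b L hL
  let cs : (H →L[ℂ] H) →⋆ₐ[ℂ] (ell2 G →L[ℂ] ell2 G) := c
  have hcn : ∀ T, ‖c T‖ = ‖T‖ := fun T =>
    NonUnitalStarAlgHom.norm_map (c : (H →L[ℂ] H) →⋆ₙₐ[ℂ] (ell2 G →L[ℂ] ell2 G)) c.injective T
  have hci : Isometry c := AddMonoidHomClass.isometry_of_norm c hcn
  let ch : (H →L[ℂ] H) ≃ₜ (ell2 G →L[ℂ] ell2 G) :=
    (IsometryEquiv.mk c.toEquiv hci).toHomeomorph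
  have hrange : c '' (closure (Submodule.span ℂ (Set.range L) : Set (H →L[ℂ] H))) =
      (redCstar G : Set (ell2 G →L[ℂ] ell2 G)) := by
    rw [redCstar_eq_closure_span]
    have h1 : c '' (closure (Submodule.span ℂ (Set.range L) : Set (H →L[ℂ] H))) =
        closure (c '' (Submodule.span ℂ (Set.range L) : Set (H →L[ℂ] H))) :=
      ch.image_closure _
    rw [h1]
    congr 1
    have h2 : (c '' (Submodule.span ℂ (Set.range L) : Set (H →L[ℂ] H))) =
        ((Submodule.map (cs.toAlgHom.toLinearMap)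
          (Submodule.span ℂ (Set.range L)) : Submodule ℂ _) : Set _) := rfl
    rw [h2, Submodule.map_span]
    congr 2
    ext T
    constructor
    · rintro ⟨_, ⟨g, rfl⟩, rfl⟩
      exact ⟨g, (hcL g).symm⟩
    · rintro ⟨g, rfl⟩
      exact ⟨L g, ⟨g, rfl⟩, hcL g⟩
  have hmem : ∀ a : A, c (ι a) ∈ redCstar G := fun a => by
    have : c (ι a) ∈ (redCstar G : Set (ell2 G →L[ℂ] ell2 G)) := by
      rw [← hrange, ← hr]
      exact ⟨ι a, ⟨a, rfl⟩, rfl⟩
    exact this
  let f : A →⋆ₐ[ℂ] redCstar G := StarAlgHom.codRestrict (cs.comp ι) (redCstar G) hmem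
  refine ⟨StarAlgEquiv.ofBijective f ⟨?_, ?_⟩⟩
  · intro x y hxy
    have h1 : c (ι x) = c (ι y) := congrArg Subtype.val hxy
    exact hι (c.injective h1)
  · rintro ⟨T, hT⟩
    have hT' : T ∈ (redCstar G : Set (ell2 G →L[ℂ] ell2 G)) := hT
    rw [← hrange, ← hr] at hT'
    obtain ⟨_, ⟨a, rfl⟩, rfl⟩ := hT'
    exact ⟨a, rfl⟩

theorem H2Zero_isRed {G A H : Type} [Group G] [CStarAlgebra A] [NormedAddCommGroup H]
    [InnerProductSpace ℂ H] [CompleteSpace H] (h : PPGroup G)
    (hA : IsRedOn G A H) : H2Zero A := by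
  obtain ⟨e⟩ := equiv_of_isRed hA
  have h1 : H2Zero (redCstar G) := H2Zero_group h
  exact H2Zero_congr e h1

end SimpCoh
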