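import Pool.Agent.Lib.MP_263cac_an.Defs

/-!
# A2: nearly stationary means

`PR w f (V) = avg_i f (V w_i)` (right Markov operator) and `PL w f (V) = avg_i f (w_i V)` are linear operators on all
functions on the unitary group; their powers evaluated at `1`, and Cesàro averages of those, are means.
* `mu w n f = (1/n) Σ_{k<n} (PR^k f)(1)` is a mean for `n ≥ 1`.
* `exists_mean`: for `η > 0` choose `M ≥ 2/η` and `E f = (1/M) Σ_{K<M} (PL^K f)(1)`.  By linearity
  `avg_i E(f(w_i ·)) = E(PL f) = (1/M) Σ_{K<M} (PL^{K+1} f)(1) = E f + ((PL^M f)(1) - f(1))/M`.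
-/

set_option autoImplicit false

namespace SimpCoh

variable {A : Type*} [CStarAlgebra A] {I : Type*} [Fintype I]

theorem avg_bd [Nonempty I] (f : I → ℂ) (C : ℝ) (h : ∀ i, ‖f i‖ ≤ C) : ‖avg f‖ ≤ C := by
  unfold avg
  have hc : (0 : ℝ) < (Fintype.card I : ℝ) := by exact_mod_cast Fintype.card_pos
  rw [norm_mul, norm_inv, Complex.norm_natCast]
  have h1 : ‖∑ i, f i‖ ≤ (Fintype.card I : ℝ) * C := by
    calc ‖∑ i, f i‖ ≤ ∑ i, ‖f i‖ := norm_sum_le _ _
      _ ≤ ∑ _i : I, C := Finset.sum_le_sum fun i _ => h i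
      _ = (Fintype.card I : ℝ) * C := by simp
  calc (Fintype.card I : ℝ)⁻¹ * ‖∑ i, f i‖ ≤ (Fintype.card I : ℝ)⁻¹ * ((Fintype.card I : ℝ) * C) :=
        mul_le_mul_of_nonneg_left h1 (inv_nonneg.2 hc.le)
    _ = C := by rw [inv_mul_cancel_left₀ hc.ne']

theorem avg_const [Nonempty I] (z : ℂ) : avg (fun _ : I => z) = z := by
  unfold avg
  have hc : (Fintype.card I : ℂ) ≠ 0 := by exact_mod_cast Fintype.card_ne_zero
  rw [Finset.sum_const, Finset.card_univ, nsmul_eq_mul, inv_mul_cancel_left₀ hc]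

theorem avg_add (f g : I → ℂ) : avg (fun i => f i + g i) = avg f + avg g := by
  unfold avg
  rw [Finset.sum_add_distrib, mul_add]

theorem avg_sub (f g : I → ℂ) : avg (fun i => f i - g i) = avg f - avg g := by
  unfold avg
  rw [Finset.sum_sub_distrib, mul_sub]

theorem avg_mul (z : ℂ) (f : I → ℂ) : avg (fun i => z * f i) = z * avg f := by
  unfold avg
  rw [← Finset.mul_sum, mul_left_comm]

theorem map_avg {V : Type*} (E : (V → ℂ) →ₗ[ℂ] ℂ) (f : I → V → ℂ) :
    E (fun v => avg (fun i => f i v)) = avg (fun i => E (f i)) := by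
  have h : (fun v => avg (fun i => f i v)) = (Fintype.card I : ℂ)⁻¹ • ∑ i, f i := by
    funext v
    simp [avg, Finset.sum_apply]
  rw [h, map_smul, map_sum, smul_eq_mul]
  rfl

/-- The right Markov operator. -/
noncomputable def PR (w : I → unitary A) (f : unitary A → ℂ) : unitary A → ℂ :=
  fun V => avg (fun i => f (V * w i))

/-- general averaging operator -/
private noncomputable def a2_P (T : I → unitary A → unitary A) (f : unitary A → ℂ) :
    unitary A → ℂ :=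
  fun V => avg (fun i => f (T i V))

private theorem a2_P_add (T : I → unitary A → unitary A) (f g : unitary A → ℂ) :
    a2_P T (f + g) = a2_P T f + a2_P T g := by
  funext V
  exact avg_add (fun i => f (T i V)) (fun i => g (T i V))

private theorem a2_P_smul (T : I → unitary A → unitary A) (z : ℂ) (f : unitary A → ℂ) :
    a2_P T (z • f) = z • a2_P T f := by
  funext V
  exact avg_mul z (fun i => f (T i V))

private theorem a2_it_add (T : I → unitary A → unitary A) (k : ℕ) (f g : unitary A → ℂ) :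
    (a2_P T)^[k] (f + g) = (a2_P T)^[k] f + (a2_P T)^[k] g := by
  induction k generalizing f g with
  | zero => rfl
  | succ k ih => rw [Function.iterate_succ_apply, Function.iterate_succ_apply,
      Function.iterate_succ_apply, a2_P_add, ih]

private theorem a2_it_smul (T : I → unitary A → unitary A) (k : ℕ) (z : ℂ)
    (f : unitary A → ℂ) : (a2_P T)^[k] (z • f) = z • (a2_P T)^[k] f := by
  induction k generalizing f with
  | zero => rfl
  | succ k ih => rw [Function.iterate_succ_apply, Function.iterate_succ_apply, a2_P_smul, ih]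

private theorem a2_it_one [Nonempty I] (T : I → unitary A → unitary A) (k : ℕ) :
    (a2_P T)^[k] (fun _ => 1) = fun _ => 1 := by
  induction k with
  | zero => rfl
  | succ k ih =>
    rw [Function.iterate_succ_apply]
    have : a2_P T (fun _ => 1) = fun _ => 1 := by
      funext V
      exact avg_const 1
    rw [this, ih]

private theorem a2_it_bd [Nonempty I] (T : I → unitary A → unitary A) (k : ℕ)
    (f : unitary A → ℂ) (C : ℝ) (h : ∀ V, ‖f V‖ ≤ C) : ∀ V, ‖((a2_P T)^[k] f) V‖ ≤ C := by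
  induction k generalizing f with
  | zero => exact h
  | succ k ih =>
    rw [Function.iterate_succ_apply]
    exact ih (a2_P T f) fun V => avg_bd _ C fun i => h (T i V)

private theorem a2_sum_add (T : I → unitary A → unitary A) (n : ℕ) (f g : unitary A → ℂ) :
    (n : ℂ)⁻¹ * ∑ k ∈ Finset.range n, ((a2_P T)^[k] (f + g)) 1 =
      (n : ℂ)⁻¹ * ∑ k ∈ Finset.range n, ((a2_P T)^[k] f) 1 +
      (n : ℂ)⁻¹ * ∑ k ∈ Finset.range n, ((a2_P T)^[k] g) 1 := by
  rw [← mul_add, ← Finset.sum_add_distrib]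
  congr 1
  refine Finset.sum_congr rfl fun k _ => ?_
  rw [a2_it_add]
  rfl

private theorem a2_sum_smul (T : I → unitary A → unitary A) (n : ℕ) (z : ℂ)
    (f : unitary A → ℂ) :
    (n : ℂ)⁻¹ * ∑ k ∈ Finset.range n, ((a2_P T)^[k] (z • f)) 1 =
      z * ((n : ℂ)⁻¹ * ∑ k ∈ Finset.range n, ((a2_P T)^[k] f) 1) := by
  rw [mul_left_comm]
  congr 1
  rw [Finset.mul_sum]
  refine Finset.sum_congr rfl fun k _ => ?_
  rw [a2_it_smul]
  rfl

/-- The Cesàro mean of the laws of the right random walk started at `1`. -/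
noncomputable def mu (w : I → unitary A) (n : ℕ) : (unitary A → ℂ) →ₗ[ℂ] ℂ where
  toFun f := (n : ℂ)⁻¹ * ∑ k ∈ Finset.range n, ((PR w)^[k] f) 1
  map_add' := a2_sum_add (fun i V => V * w i) n
  map_smul' := a2_sum_smul (fun i V => V * w i) n

/-- the general Cesàro mean -/
private noncomputable def a2_mu (T : I → unitary A → unitary A) (n : ℕ) :
    (unitary A → ℂ) →ₗ[ℂ] ℂ where
  toFun f := (n : ℂ)⁻¹ * ∑ k ∈ Finset.range n, ((a2_P T)^[k] f) 1
  map_add' := a2_sum_add T n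
  map_smul' := a2_sum_smul T n

private theorem a2_mean [Nonempty I] (T : I → unitary A → unitary A) (n : ℕ) (hn : 1 ≤ n) :
    IsMean (a2_mu T n) := by
  have hn0 : (0 : ℝ) < (n : ℝ) := by exact_mod_cast hn
  have hn1 : (n : ℂ) ≠ 0 := by exact_mod_cast (by omega : n ≠ 0)
  constructor
  · change (n : ℂ)⁻¹ * ∑ k ∈ Finset.range n, ((a2_P T)^[k] (fun _ => 1)) 1 = 1
    have h : ∀ k ∈ Finset.range n, ((a2_P T)^[k] (fun _ => 1)) 1 = (1 : ℂ) := fun k _ => by
      rw [a2_it_one]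
    rw [Finset.sum_congr rfl h]
    simp [hn1]
  · intro f C h
    change ‖(n : ℂ)⁻¹ * ∑ k ∈ Finset.range n, ((a2_P T)^[k] f) 1‖ ≤ C
    rw [norm_mul, norm_inv, Complex.norm_natCast]
    have h1 : ‖∑ k ∈ Finset.range n, ((a2_P T)^[k] f) 1‖ ≤ (n : ℝ) * C := by
      calc ‖∑ k ∈ Finset.range n, ((a2_P T)^[k] f) 1‖
          ≤ ∑ k ∈ Finset.range n, ‖((a2_P T)^[k] f) 1‖ := norm_sum_le _ _
        _ ≤ ∑ _k ∈ Finset.range n, C := Finset.sum_le_sum fun k _ => a2_it_bd T k f C h 1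
        _ = (n : ℝ) * C := by simp
    calc (n : ℝ)⁻¹ * ‖∑ k ∈ Finset.range n, ((a2_P T)^[k] f) 1‖ ≤ (n : ℝ)⁻¹ * ((n : ℝ) * C) :=
          mul_le_mul_of_nonneg_left h1 (inv_nonneg.2 hn0.le)
      _ = C := by rw [inv_mul_cancel_left₀ hn0.ne']

theorem mu_mean [Nonempty I] (w : I → unitary A) (n : ℕ) (hn : 1 ≤ n) : IsMean (mu w n) :=
  a2_mean (fun i V => V * w i) n hn

theorem mean_sub_const {E : (unitary A → ℂ) →ₗ[ℂ] ℂ} (hE : IsMean E) (f : unitary A → ℂ) (z : ℂ)
    (C : ℝ) (h : ∀ V, ‖f V - z‖ ≤ C) : ‖E f - z‖ ≤ C := by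
  have h1 : E (fun V => f V - z) = E f - z := by
    have h2 : (fun V => f V - z) = f - z • (fun _ => (1 : ℂ)) := by
      funext V
      simp
    rw [h2, map_sub, map_smul, hE.one, smul_eq_mul, mul_one]
  rw [← h1]
  exact hE.bd _ C h

theorem exists_mean [Nonempty I] (w : I → unitary A) (η : ℝ) (hη : 0 < η) :
    ∃ E : (unitary A → ℂ) →ₗ[ℂ] ℂ, IsMean E ∧
      ∀ (f : unitary A → ℂ) (C : ℝ), (∀ V, ‖f V‖ ≤ C) →
        ‖avg (fun i => E (fun V => f (w i * V))) - E f‖ ≤ η * C := by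
  obtain ⟨M, hM⟩ := exists_nat_ge (2 / η)
  have hM0 : (0 : ℝ) < (M : ℝ) := lt_of_lt_of_le (by positivity) hM
  have hM1 : 1 ≤ M := by exact_mod_cast hM0
  obtain ⟨T, hT⟩ : ∃ T : I → unitary A → unitary A, T = fun i V => w i * V := ⟨_, rfl⟩
  refine ⟨a2_mu T M, a2_mean T M hM1, fun f C h => ?_⟩
  have hC : 0 ≤ C := (norm_nonneg _).trans (h 1)
  have e1 : avg (fun i => a2_mu T M (fun V => f (w i * V))) = a2_mu T M (a2_P T f) := by
    rw [← map_avg (a2_mu T M) (fun i V => f (w i * V)), hT]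
    rfl
  rw [e1]
  have e2 : a2_mu T M (a2_P T f) - a2_mu T M f =
      (M : ℂ)⁻¹ * (((a2_P T)^[M] f) 1 - ((a2_P T)^[0] f) 1) := by
    change (M : ℂ)⁻¹ * ∑ k ∈ Finset.range M, ((a2_P T)^[k] (a2_P T f)) 1 -
      (M : ℂ)⁻¹ * ∑ k ∈ Finset.range M, ((a2_P T)^[k] f) 1 = _
    rw [← mul_sub, ← Finset.sum_sub_distrib]
    congr 1
    rw [← Finset.sum_range_sub (fun k => ((a2_P T)^[k] f) 1) M]
    refine Finset.sum_congr rfl fun k _ => ?_
    rw [← Function.iterate_succ_apply]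
  rw [e2, norm_mul, norm_inv, Complex.norm_natCast]
  have h1 : ‖((a2_P T)^[M] f) 1 - ((a2_P T)^[0] f) 1‖ ≤ 2 * C := by
    calc ‖((a2_P T)^[M] f) 1 - ((a2_P T)^[0] f) 1‖
        ≤ ‖((a2_P T)^[M] f) 1‖ + ‖((a2_P T)^[0] f) 1‖ := norm_sub_le _ _
      _ ≤ C + C := add_le_add (a2_it_bd T M f C h 1) (a2_it_bd T 0 f C h 1)
      _ = 2 * C := by ring
  calc (M : ℝ)⁻¹ * ‖((a2_P T)^[M] f) 1 - ((a2_P T)^[0] f) 1‖
      ≤ (M : ℝ)⁻¹ * (2 * C) := mul_le_mul_of_nonneg_left h1 (inv_nonneg.2 hM0.le)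
    _ = ((M : ℝ)⁻¹ * 2) * C := by ring
    _ ≤ η * C := by
        refine mul_le_mul_of_nonneg_right ?_ hC
        rw [inv_mul_le_iff₀ hM0]
        rw [div_le_iff₀ hη] at hM
        linarith

end SimpCoh
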