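import Pool.Agent.Lib.MP_263cac_an.Defs
import Pool.Agent.Lib.MP_263cac_an.A2

/-!
# A3: the prism homotopy over a mean

For a mean `E` on the unitary group and a bounded trilinear form `Φ` put
 `pr E Φ (a,b,c) = E_{W₀} E_{W₁} E_{W₂} Φ(W₀^* a W₁, W₁^* b W₂, W₂^* c W₀)` and
 `s0 E Φ (x,c) = E_W Φ(x, W, W^* c) - E_{W₀} E_{W₁} Φ(W₀, W₀^* x W₁, W₁^* c)`.
If `Φ` is a cocycle then `Φ - pr E Φ = cob (s0 E Φ)`: this is the sum of the three cocycle identities at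
 (a, b, W₂; W₂^* c), (a, W₁, W₁^* b W₂; W₂^* c) and (W₀, W₀^* a W₁, W₁^* b W₂; W₂^* c):
 (1) Φ(b,W₂;W₂*ca) - Φ(ab,W₂;W₂*c) + Φ(a,bW₂;W₂*c) - Φ(a,b;c) = 0
 (2) Φ(W₁,W₁*bW₂;W₂*ca) - Φ(aW₁,W₁*bW₂;W₂*c) + Φ(a,bW₂;W₂*c) - Φ(a,W₁;W₁*bc) = 0
 (3) Φ(W₀*aW₁,W₁*bW₂;W₂*cW₀) - Φ(aW₁,W₁*bW₂;W₂*c) + Φ(W₀,W₀*abW₂;W₂*c) - Φ(W₀,W₀*aW₁;W₁*bc) = 0
 (apply `E_{W₀} E_{W₁} E_{W₂}`, in this order, to everything; a variable which does not occur drops out, `E 1 = 1`, linearity).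
 [Φ = (1): Φ(a,b;c) = Φ(b,W₂;..ca) - Φ(ab,W₂;..) + Φ(a,bW₂;..);  (2)-(3) express Φ(a,bW₂;W₂*c).]
`pr E Φ` is again a cocycle (apply `E⁴` to the identity at (W₀*aW₁, W₁*bW₂, W₂*cW₃; W₃*dW₀)).
If `E` is nearly stationary for `w` then `pr E Φ` is nearly harmonic: e.g. for h1, the bound
`‖avg_i E_{W₁} f(w_i W₁) - E_{W₁} f(W₁)‖ ≤ η C`, applied inside `E_{W₀}` (use `map_avg` to move `avg` inside).
-/

set_option autoImplicit false

namespace SimpCoh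

variable {A : Type*} [CStarAlgebra A]

noncomputable def pr (E : (unitary A → ℂ) →ₗ[ℂ] ℂ) (Φ : A → A → A → ℂ) : A → A → A → ℂ :=
  fun a b c => E (fun W0 => E (fun W1 => E (fun W2 =>
    Φ (star (W0 : A) * a * (W1 : A)) (star (W1 : A) * b * (W2 : A))
      (star (W2 : A) * c * (W0 : A)))))

noncomputable def s0 (E : (unitary A → ℂ) →ₗ[ℂ] ℂ) (Φ : A → A → A → ℂ) : A → A → ℂ :=
  fun x c => E (fun W => Φ x (W : A) (star (W : A) * c))
    - E (fun W0 => E (fun W1 => Φ (W0 : A) (star (W0 : A) * x * (W1 : A)) (star (W1 : A) * c)))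

theorem norm_unitary_le (W : unitary A) : ‖(W : A)‖ ≤ 1 := by
  rcases subsingleton_or_nontrivial A with hA | hA
  · rw [Subsingleton.elim (W : A) 0, norm_zero]
    exact zero_le_one
  · exact (CStarRing.norm_coe_unitary W).le

theorem norm_star_mul_mul_le (U W : unitary A) (a : A) : ‖star (U : A) * a * (W : A)‖ ≤ ‖a‖ := by
  rw [CStarRing.norm_mul_coe_unitary, ← Unitary.coe_star, CStarRing.norm_coe_unitary_mul]

theorem A3_star_mul_le (U : unitary A) (a : A) : ‖star (U : A) * a‖ ≤ ‖a‖ := by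
  rw [← Unitary.coe_star, CStarRing.norm_coe_unitary_mul]

theorem A3_E_add (E : (unitary A → ℂ) →ₗ[ℂ] ℂ) (f g : unitary A → ℂ) :
    E (fun V => f V + g V) = E f + E g := map_add E f g

theorem A3_E_mul (E : (unitary A → ℂ) →ₗ[ℂ] ℂ) (z : ℂ) (f : unitary A → ℂ) :
    E (fun V => z * f V) = z * E f := map_smul E z f

theorem A3_E_sub (E : (unitary A → ℂ) →ₗ[ℂ] ℂ) (f g : unitary A → ℂ) :
    E (fun V => f V - g V) = E f - E g := map_sub E f g

theorem A3_bd {C : ℝ} (hC : 0 ≤ C) {Φ : A → A → A → ℂ} (h : Tri C Φ) (a b c : A)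
    (W0 W1 W2 : unitary A) :
    ‖Φ (star (W0 : A) * a * (W1 : A)) (star (W1 : A) * b * (W2 : A))
      (star (W2 : A) * c * (W0 : A))‖ ≤ C * ‖a‖ * ‖b‖ * ‖c‖ := by
  have h1 := norm_star_mul_mul_le W0 W1 a
  have h2 := norm_star_mul_mul_le W1 W2 b
  have h3 := norm_star_mul_mul_le W2 W0 c
  refine (h.bd _ _ _).trans ?_
  gcongr

theorem pr_tri {C : ℝ} (hC : 0 ≤ C) {Φ : A → A → A → ℂ} (h : Tri C Φ)
    {E : (unitary A → ℂ) →ₗ[ℂ] ℂ} (hE : IsMean E) : Tri C (pr E Φ) where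
  add₁ a a' b c := by
    unfold pr
    simp only [mul_add, add_mul, h.add₁, A3_E_add]
  add₂ a b b' c := by
    unfold pr
    simp only [mul_add, add_mul, h.add₂, A3_E_add]
  add₃ a b c c' := by
    unfold pr
    simp only [mul_add, add_mul, h.add₃, A3_E_add]
  smul₁ z a b c := by
    unfold pr
    simp only [mul_smul_comm, smul_mul_assoc, h.smul₁, A3_E_mul]
  smul₂ z a b c := by
    unfold pr
    simp only [mul_smul_comm, smul_mul_assoc, h.smul₂, A3_E_mul]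
  smul₃ z a b c := by
    unfold pr
    simp only [mul_smul_comm, smul_mul_assoc, h.smul₃, A3_E_mul]
  bd a b c := by
    refine hE.bd _ _ fun W0 => hE.bd _ _ fun W1 => hE.bd _ _ fun W2 => ?_
    exact A3_bd hC h a b c W0 W1 W2

theorem s0_bil {C : ℝ} (hC : 0 ≤ C) {Φ : A → A → A → ℂ} (h : Tri C Φ)
    {E : (unitary A → ℂ) →ₗ[ℂ] ℂ} (hE : IsMean E) : Bil (2 * C) (s0 E Φ) where
  add₁ a a' b := by
    unfold s0
    simp only [mul_add, add_mul, h.add₁, h.add₂, A3_E_add]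
    ring
  add₂ a b b' := by
    unfold s0
    simp only [mul_add, h.add₃, A3_E_add]
    ring
  smul₁ z a b := by
    unfold s0
    simp only [mul_smul_comm, smul_mul_assoc, h.smul₁, h.smul₂, A3_E_mul]
    ring
  smul₂ z a b := by
    unfold s0
    simp only [mul_smul_comm, h.smul₃, A3_E_mul]
    ring
  bd a b := by
    have h1 : ‖E (fun W => Φ a (W : A) (star (W : A) * b))‖ ≤ C * ‖a‖ * ‖b‖ := by
      refine hE.bd _ _ fun W => ?_
      refine (h.bd _ _ _).trans ?_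
      calc C * ‖a‖ * ‖(W : A)‖ * ‖star (W : A) * b‖ ≤ C * ‖a‖ * 1 * ‖b‖ := by
            have := norm_unitary_le W
            have := A3_star_mul_le W b
            gcongr
        _ = C * ‖a‖ * ‖b‖ := by ring
    have h2 : ‖E (fun W0 => E (fun W1 => Φ (W0 : A) (star (W0 : A) * a * (W1 : A))
        (star (W1 : A) * b)))‖ ≤ C * ‖a‖ * ‖b‖ := by
      refine hE.bd _ _ fun W0 => hE.bd _ _ fun W1 => ?_
      refine (h.bd _ _ _).trans ?_
      calc C * ‖(W0 : A)‖ * ‖star (W0 : A) * a * (W1 : A)‖ * ‖star (W1 : A) * b‖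
          ≤ C * 1 * ‖a‖ * ‖b‖ := by
            have := norm_unitary_le W0
            have := norm_star_mul_mul_le W0 W1 a
            have := A3_star_mul_le W1 b
            gcongr
        _ = C * ‖a‖ * ‖b‖ := by ring
    unfold s0
    calc ‖_ - _‖ ≤ C * ‖a‖ * ‖b‖ + C * ‖a‖ * ‖b‖ := (norm_sub_le _ _).trans (add_le_add h1 h2)
      _ = 2 * C * ‖a‖ * ‖b‖ := by ring

theorem pr_harm {I : Type*} [Fintype I] [Nonempty I] (w : I → unitary A) {C : ℝ} (hC : 0 ≤ C)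
    {Φ : A → A → A → ℂ} (h : Tri C Φ)
    {E : (unitary A → ℂ) →ₗ[ℂ] ℂ} (hE : IsMean E) (η : ℝ) (hη : 0 ≤ η)
    (hst : ∀ (f : unitary A → ℂ) (C : ℝ), (∀ V, ‖f V‖ ≤ C) →
        ‖avg (fun i => E (fun V => f (w i * V))) - E f‖ ≤ η * C) :
    Harm w (η * C) (pr E Φ) where
  h0 a b c := by
    have h1 := hst (fun V => E (fun W1 => E (fun W2 =>
      Φ (star (V : A) * a * (W1 : A)) (star (W1 : A) * b * (W2 : A))
        (star (W2 : A) * c * (V : A))))) (C * ‖a‖ * ‖b‖ * ‖c‖)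
      (fun V => hE.bd _ _ fun W1 => hE.bd _ _ fun W2 => A3_bd hC h a b c V W1 W2)
    have h2 : η * C * ‖a‖ * ‖b‖ * ‖c‖ = η * (C * ‖a‖ * ‖b‖ * ‖c‖) := by ring
    rw [h2]
    unfold pr
    simp only [Submonoid.coe_mul, star_mul, mul_assoc] at h1 ⊢
    exact h1
  h1 a b c := by
    have h2 : η * C * ‖a‖ * ‖b‖ * ‖c‖ = η * (C * ‖a‖ * ‖b‖ * ‖c‖) := by ring
    rw [h2]
    unfold pr
    rw [← map_avg, ← A3_E_sub]
    refine hE.bd _ _ fun W0 => ?_
    have h1 := hst (fun V => E (fun W2 =>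
      Φ (star (W0 : A) * a * (V : A)) (star (V : A) * b * (W2 : A))
        (star (W2 : A) * c * (W0 : A)))) (C * ‖a‖ * ‖b‖ * ‖c‖)
      (fun V => hE.bd _ _ fun W2 => A3_bd hC h a b c W0 V W2)
    simp only [Submonoid.coe_mul, star_mul, mul_assoc] at h1 ⊢
    exact h1
  h2 a b c := by
    have h2 : η * C * ‖a‖ * ‖b‖ * ‖c‖ = η * (C * ‖a‖ * ‖b‖ * ‖c‖) := by ring
    rw [h2]
    unfold pr
    rw [← map_avg, ← A3_E_sub]
    refine hE.bd _ _ fun W0 => ?_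
    rw [← map_avg, ← A3_E_sub]
    refine hE.bd _ _ fun W1 => ?_
    have h1 := hst (fun V =>
      Φ (star (W0 : A) * a * (W1 : A)) (star (W1 : A) * b * (V : A))
        (star (V : A) * c * (W0 : A))) (C * ‖a‖ * ‖b‖ * ‖c‖)
      (fun V => A3_bd hC h a b c W0 W1 V)
    simp only [Submonoid.coe_mul, star_mul, mul_assoc] at h1 ⊢
    exact h1

end SimpCoh
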