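import Pool.Agent.Lib.MP_263cac_an.A3

/-!
# A3b: the prism homotopy: `Φ = pr E Φ + cob (s0 E Φ)`, and `pr E Φ` is a cocycle (see the header of A3)
-/

set_option autoImplicit false

namespace SimpCoh

variable {A : Type*} [CStarAlgebra A]

theorem a3b_const {E : (unitary A → ℂ) →ₗ[ℂ] ℂ} (hE : IsMean E) (z : ℂ) :
    E (fun _ => z) = z := by
  have h1 : (fun _ : unitary A => z) = z • (fun _ : unitary A => (1 : ℂ)) := by
    funext V
    simp
  rw [h1, map_smul, hE.one, smul_eq_mul, mul_one]

theorem a3b_lin (E : (unitary A → ℂ) →ₗ[ℂ] ℂ) (f g h : unitary A → ℂ) :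
    E (fun V => f V - g V + h V) = E f - E g + E h := by
  have h1 : (fun V => f V - g V + h V) = f - g + h := rfl
  rw [h1, map_add, map_sub]

theorem a3b_lin4 (E : (unitary A → ℂ) →ₗ[ℂ] ℂ) (f g h k : unitary A → ℂ) :
    E (fun V => f V - g V + h V - k V) = E f - E g + E h - E k := by
  have h1 : (fun V => f V - g V + h V - k V) = f - g + h - k := rfl
  rw [h1, map_sub, map_add, map_sub]

theorem a3b_uu (W : unitary A) (x : A) : (W : A) * (star (W : A) * x) = x := by
  have h1 : (W : A) * star (W : A) = 1 := Unitary.coe_mul_star_self W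
  rw [← mul_assoc, h1, one_mul]

theorem pr_eq {Φ : A → A → A → ℂ} (h : Coc Φ)
    {E : (unitary A → ℂ) →ₗ[ℂ] ℂ} (hE : IsMean E) (a b c : A) :
    Φ a b c = pr E Φ a b c + cob (s0 E Φ) a b c := by
  -- (1)
  have e1 : E (fun W => Φ a (b * (W : A)) (star (W : A) * c)) =
      Φ a b c - E (fun W => Φ b (W : A) (star (W : A) * (c * a))) +
        E (fun W => Φ (a * b) (W : A) (star (W : A) * c)) := by
    have h1 : ∀ W : unitary A, Φ a (b * (W : A)) (star (W : A) * c) =
        Φ a b c - Φ b (W : A) (star (W : A) * (c * a)) + Φ (a * b) (W : A) (star (W : A) * c) := by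
      intro W
      have h2 := h a b (W : A) (star (W : A) * c)
      rw [a3b_uu, mul_assoc (star (W : A)) c a] at h2
      linear_combination h2
    rw [funext h1, a3b_lin E (fun _ => Φ a b c), a3b_const hE]
  -- (2)
  have e2 : E (fun W1 => E (fun W2 => Φ (a * (W1 : A)) (star (W1 : A) * b * (W2 : A))
        (star (W2 : A) * c))) =
      E (fun W1 => E (fun W2 => Φ (W1 : A) (star (W1 : A) * b * (W2 : A))
        (star (W2 : A) * (c * a)))) -
        E (fun W1 => Φ a (W1 : A) (star (W1 : A) * (b * c))) +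
        E (fun W => Φ a (b * (W : A)) (star (W : A) * c)) := by
    have h1 : ∀ W1 W2 : unitary A, Φ (a * (W1 : A)) (star (W1 : A) * b * (W2 : A))
        (star (W2 : A) * c) =
        Φ (W1 : A) (star (W1 : A) * b * (W2 : A)) (star (W2 : A) * (c * a)) -
          Φ a (W1 : A) (star (W1 : A) * (b * c)) + Φ a (b * (W2 : A)) (star (W2 : A) * c) := by
      intro W1 W2
      have h2 := h a (W1 : A) (star (W1 : A) * b * (W2 : A)) (star (W2 : A) * c)
      have h3 : (W1 : A) * (star (W1 : A) * b * (W2 : A)) = b * (W2 : A) := by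
        rw [mul_assoc (star (W1 : A)), a3b_uu]
      have h4 : star (W1 : A) * b * (W2 : A) * (star (W2 : A) * c) = star (W1 : A) * (b * c) := by
        rw [mul_assoc _ (W2 : A), a3b_uu, mul_assoc]
      rw [h3, h4, mul_assoc (star (W2 : A)) c a] at h2
      linear_combination -h2
    have h5 : ∀ W1 : unitary A, E (fun W2 => Φ (a * (W1 : A)) (star (W1 : A) * b * (W2 : A))
        (star (W2 : A) * c)) =
        E (fun W2 => Φ (W1 : A) (star (W1 : A) * b * (W2 : A)) (star (W2 : A) * (c * a))) -
          Φ a (W1 : A) (star (W1 : A) * (b * c)) +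
          E (fun W => Φ a (b * (W : A)) (star (W : A) * c)) := by
      intro W1
      rw [funext (h1 W1), a3b_lin E _ (fun _ => Φ a (W1 : A) (star (W1 : A) * (b * c))),
        a3b_const hE]
    rw [funext h5, a3b_lin E _ _ (fun _ => E (fun W => Φ a (b * (W : A)) (star (W : A) * c))),
      a3b_const hE]
  -- (3)
  have e3 : pr E Φ a b c =
      E (fun W1 => E (fun W2 => Φ (a * (W1 : A)) (star (W1 : A) * b * (W2 : A))
        (star (W2 : A) * c))) -
        E (fun W0 => E (fun W2 => Φ (W0 : A) (star (W0 : A) * (a * b) * (W2 : A))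
          (star (W2 : A) * c))) +
        E (fun W0 => E (fun W1 => Φ (W0 : A) (star (W0 : A) * a * (W1 : A))
          (star (W1 : A) * (b * c)))) := by
    have h1 : ∀ W0 W1 W2 : unitary A, Φ (star (W0 : A) * a * (W1 : A))
        (star (W1 : A) * b * (W2 : A)) (star (W2 : A) * c * (W0 : A)) =
        Φ (a * (W1 : A)) (star (W1 : A) * b * (W2 : A)) (star (W2 : A) * c) -
          Φ (W0 : A) (star (W0 : A) * (a * b) * (W2 : A)) (star (W2 : A) * c) +
          Φ (W0 : A) (star (W0 : A) * a * (W1 : A)) (star (W1 : A) * (b * c)) := by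
      intro W0 W1 W2
      have h2 := h (W0 : A) (star (W0 : A) * a * (W1 : A)) (star (W1 : A) * b * (W2 : A))
        (star (W2 : A) * c)
      have h3 : (W0 : A) * (star (W0 : A) * a * (W1 : A)) = a * (W1 : A) := by
        rw [mul_assoc (star (W0 : A)), a3b_uu]
      have h4 : star (W1 : A) * b * (W2 : A) * (star (W2 : A) * c) = star (W1 : A) * (b * c) := by
        rw [mul_assoc _ (W2 : A), a3b_uu, mul_assoc]
      have h5 : star (W0 : A) * a * (W1 : A) * (star (W1 : A) * b * (W2 : A)) =
          star (W0 : A) * (a * b) * (W2 : A) := by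
        rw [mul_assoc (star (W1 : A)), mul_assoc _ (W1 : A), a3b_uu]
        simp only [mul_assoc]
      rw [h3, h4, h5] at h2
      linear_combination h2
    have h6 : ∀ W0 W1 : unitary A, E (fun W2 => Φ (star (W0 : A) * a * (W1 : A))
        (star (W1 : A) * b * (W2 : A)) (star (W2 : A) * c * (W0 : A))) =
        E (fun W2 => Φ (a * (W1 : A)) (star (W1 : A) * b * (W2 : A)) (star (W2 : A) * c)) -
          E (fun W2 => Φ (W0 : A) (star (W0 : A) * (a * b) * (W2 : A)) (star (W2 : A) * c)) +
          Φ (W0 : A) (star (W0 : A) * a * (W1 : A)) (star (W1 : A) * (b * c)) := by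
      intro W0 W1
      rw [funext (h1 W0 W1), a3b_lin E _ _ (fun _ => Φ (W0 : A) (star (W0 : A) * a * (W1 : A))
        (star (W1 : A) * (b * c))), a3b_const hE]
    have h7 : ∀ W0 : unitary A, E (fun W1 => E (fun W2 => Φ (star (W0 : A) * a * (W1 : A))
        (star (W1 : A) * b * (W2 : A)) (star (W2 : A) * c * (W0 : A)))) =
        E (fun W1 => E (fun W2 => Φ (a * (W1 : A)) (star (W1 : A) * b * (W2 : A))
          (star (W2 : A) * c))) -
          E (fun W2 => Φ (W0 : A) (star (W0 : A) * (a * b) * (W2 : A)) (star (W2 : A) * c)) +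
          E (fun W1 => Φ (W0 : A) (star (W0 : A) * a * (W1 : A)) (star (W1 : A) * (b * c))) := by
      intro W0
      rw [funext (h6 W0), a3b_lin E _ (fun _ => E (fun W2 => Φ (W0 : A)
        (star (W0 : A) * (a * b) * (W2 : A)) (star (W2 : A) * c))), a3b_const hE]
    have h8 : pr E Φ a b c = E (fun W0 => E (fun W1 => E (fun W2 =>
      Φ (star (W0 : A) * a * (W1 : A)) (star (W1 : A) * b * (W2 : A))
        (star (W2 : A) * c * (W0 : A))))) := rfl
    rw [h8, funext h7, a3b_lin E (fun _ => E (fun W1 => E (fun W2 => Φ (a * (W1 : A))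
      (star (W1 : A) * b * (W2 : A)) (star (W2 : A) * c)))), a3b_const hE]
  have e4 : cob (s0 E Φ) a b c =
      (E (fun W => Φ b (W : A) (star (W : A) * (c * a)))
        - E (fun W0 => E (fun W1 => Φ (W0 : A) (star (W0 : A) * b * (W1 : A))
          (star (W1 : A) * (c * a))))) -
      (E (fun W => Φ (a * b) (W : A) (star (W : A) * c))
        - E (fun W0 => E (fun W1 => Φ (W0 : A) (star (W0 : A) * (a * b) * (W1 : A))
          (star (W1 : A) * c)))) +
      (E (fun W => Φ a (W : A) (star (W : A) * (b * c)))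
        - E (fun W0 => E (fun W1 => Φ (W0 : A) (star (W0 : A) * a * (W1 : A))
          (star (W1 : A) * (b * c))))) := rfl
  rw [e4, e3]
  linear_combination -e2 - e1

theorem pr_coc {Φ : A → A → A → ℂ} (h : Coc Φ)
    {E : (unitary A → ℂ) →ₗ[ℂ] ℂ} (hE : IsMean E) : Coc (pr E Φ) := by
  intro a b c d
  have hz : E (fun _ => 0) = 0 := a3b_const hE 0
  have hp : ∀ x y z, pr E Φ x y z = E (fun W0 => E (fun W1 => E (fun W2 =>
      Φ (star (W0 : A) * x * (W1 : A)) (star (W1 : A) * y * (W2 : A))
        (star (W2 : A) * z * (W0 : A))))) := fun _ _ _ => rfl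
  have h0 : ∀ W0 W1 W2 W3 : unitary A,
      Φ (star (W1 : A) * b * (W2 : A)) (star (W2 : A) * c * (W3 : A))
        (star (W3 : A) * (d * a) * (W1 : A)) -
      Φ (star (W0 : A) * (a * b) * (W2 : A)) (star (W2 : A) * c * (W3 : A))
        (star (W3 : A) * d * (W0 : A)) +
      Φ (star (W0 : A) * a * (W1 : A)) (star (W1 : A) * (b * c) * (W3 : A))
        (star (W3 : A) * d * (W0 : A)) -
      Φ (star (W0 : A) * a * (W1 : A)) (star (W1 : A) * b * (W2 : A))
        (star (W2 : A) * (c * d) * (W0 : A)) = 0 := by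
    intro W0 W1 W2 W3
    have h2 := h (star (W0 : A) * a * (W1 : A)) (star (W1 : A) * b * (W2 : A))
      (star (W2 : A) * c * (W3 : A)) (star (W3 : A) * d * (W0 : A))
    have h3 : ∀ (U V W : unitary A) (x y : A), star (U : A) * x * (V : A) *
        (star (V : A) * y * (W : A)) = star (U : A) * (x * y) * (W : A) := by
      intro U V W x y
      rw [mul_assoc (star (V : A)), mul_assoc _ (V : A), a3b_uu]
      simp only [mul_assoc]
    rw [h3, h3, h3, h3] at h2
    exact h2
  have h1 : ∀ W0 W1 W2 : unitary A,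
      E (fun W3 => Φ (star (W1 : A) * b * (W2 : A)) (star (W2 : A) * c * (W3 : A))
        (star (W3 : A) * (d * a) * (W1 : A))) -
      E (fun W3 => Φ (star (W0 : A) * (a * b) * (W2 : A)) (star (W2 : A) * c * (W3 : A))
        (star (W3 : A) * d * (W0 : A))) +
      E (fun W3 => Φ (star (W0 : A) * a * (W1 : A)) (star (W1 : A) * (b * c) * (W3 : A))
        (star (W3 : A) * d * (W0 : A))) -
      Φ (star (W0 : A) * a * (W1 : A)) (star (W1 : A) * b * (W2 : A))
        (star (W2 : A) * (c * d) * (W0 : A)) = 0 := by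
    intro W0 W1 W2
    have h2 := congrArg E (funext (h0 W0 W1 W2))
    rw [a3b_lin4 E _ _ _ (fun _ => Φ (star (W0 : A) * a * (W1 : A)) (star (W1 : A) * b * (W2 : A))
        (star (W2 : A) * (c * d) * (W0 : A))), a3b_const hE, hz] at h2
    exact h2
  have h2 : ∀ W0 W1 : unitary A,
      E (fun W2 => E (fun W3 => Φ (star (W1 : A) * b * (W2 : A)) (star (W2 : A) * c * (W3 : A))
        (star (W3 : A) * (d * a) * (W1 : A)))) -
      E (fun W2 => E (fun W3 => Φ (star (W0 : A) * (a * b) * (W2 : A))
        (star (W2 : A) * c * (W3 : A)) (star (W3 : A) * d * (W0 : A)))) +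
      E (fun W3 => Φ (star (W0 : A) * a * (W1 : A)) (star (W1 : A) * (b * c) * (W3 : A))
        (star (W3 : A) * d * (W0 : A))) -
      E (fun W2 => Φ (star (W0 : A) * a * (W1 : A)) (star (W1 : A) * b * (W2 : A))
        (star (W2 : A) * (c * d) * (W0 : A))) = 0 := by
    intro W0 W1
    have h3 := congrArg E (funext (h1 W0 W1))
    rw [a3b_lin4 E _ _ (fun _ => E (fun W3 => Φ (star (W0 : A) * a * (W1 : A))
      (star (W1 : A) * (b * c) * (W3 : A)) (star (W3 : A) * d * (W0 : A)))),
      a3b_const hE, hz] at h3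
    exact h3
  have h3 : ∀ W0 : unitary A,
      pr E Φ b c (d * a) -
      E (fun W2 => E (fun W3 => Φ (star (W0 : A) * (a * b) * (W2 : A))
        (star (W2 : A) * c * (W3 : A)) (star (W3 : A) * d * (W0 : A)))) +
      E (fun W1 => E (fun W3 => Φ (star (W0 : A) * a * (W1 : A))
        (star (W1 : A) * (b * c) * (W3 : A)) (star (W3 : A) * d * (W0 : A)))) -
      E (fun W1 => E (fun W2 => Φ (star (W0 : A) * a * (W1 : A)) (star (W1 : A) * b * (W2 : A))
        (star (W2 : A) * (c * d) * (W0 : A)))) = 0 := by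
    intro W0
    have h4 := congrArg E (funext (h2 W0))
    rw [a3b_lin4 E _ (fun _ => E (fun W2 => E (fun W3 => Φ (star (W0 : A) * (a * b) * (W2 : A))
        (star (W2 : A) * c * (W3 : A)) (star (W3 : A) * d * (W0 : A))))),
      a3b_const hE, hz] at h4
    exact h4
  have h4 := congrArg E (funext h3)
  rw [a3b_lin4 E (fun _ => pr E Φ b c (d * a)), a3b_const hE, hz] at h4
  rw [hp (a * b) c d, hp a (b * c) d, hp a b (c * d)]
  exact h4

end SimpCoh
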