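import Pool.Agent.Lib.MP_263cac_an.Defs
import Pool.Agent.Lib.MP_263cac_an.A2

/-!
# A4: the Markov chain argument

`φ` bounded (constant `C`) trilinear cocycle, nearly harmonic for `w : I → U(A)`; `y ∈ A`, `g : I → ℂ` with `Σ g = 0`, `|g| ≤ 1`.
State space `U(A) × A`, steps `(V, c) ↦ (V w_i, c + g_i V y V^*)`, `i` uniform in `I`; `Pn f n x` is the expectation of `f` after
`n` steps from `x`.  For `f (V, c) = φ(V, V^*, c)` (`ftest φ`):
* (inc) `f(Vw, VyV*) - f(V, VyV*) = φ(w,w*;y) - φ(w*,V*;Vyw) - φ(V,w;w*yV*) + φ(1,1;y)` for unitaries `V, w`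
  (two cocycle identities, at (V, w, w*V*; VyV*) and (w, w*, V*; Vy) [note (VyV*)V = Vy], and φ(1,x;d) = φ(1,1;xd)).
* `β V = avg_i g_i (φ(w_i,w_i*;y) - φ(w_i*,V*;Vyw_i) - φ(V,w_i;w_i*yV*))`.
* (main) by induction on `n`, for all `(V, c)`:
   `‖Pn f n (V,c) - f(V,c) - Σ_{k<n} ((PR w)^k β)(V)‖ ≤ n η (‖c‖ + n ‖y‖)`:
   `avg_i f(Vw_i, c) = f(V,c) + O(η‖c‖)` (h1), `avg_i g_i f(Vw_i, VyV*) = β(V)` by (inc) and `Σ g = 0`,
   `f` is additive in `c`, `avg_i ((PR^k β)(V w_i)) = (PR^{k+1} β)(V)`, and `‖c + g_i V y V*‖ ≤ ‖c‖ + ‖y‖`.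
* So if `‖Pn f n (1,0)‖ ≤ T` then `‖Σ_{k<n} (PR^k β)(1)‖ ≤ T + n² η ‖y‖`, i.e. with `At = φ(V, x; cV*)`, `Bt = φ(x, V*; Vc)` averaged
   with `mu w n`: `‖avg_i g_i D_i‖ ≤ (T + n² η)/n`, `D_i = φ(w_i,w_i*;y) - At(w_i; w_i*y) - Bt(w_i*; y w_i)` (`‖y‖ ≤ 1`).
* `avg_i D_i = - φ(1,1;y) + O(3η)` by h1, h2, h0.  With `g = δ_{i₀} - 1/|I|`: `avg g D = (D_{i₀} - avg D)/|I|`.
-/

set_option autoImplicit false

namespace SimpCoh

variable {A : Type*} [CStarAlgebra A] {I : Type*} [Fintype I]

/-- one step of the chain -/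
noncomputable def stp (w : I → unitary A) (g : I → ℂ) (y : A) (x : unitary A × A) (i : I) :
    unitary A × A :=
  (x.1 * w i, x.2 + g i • ((x.1 : A) * y * star (x.1 : A)))

/-- expectation after `n` steps -/
noncomputable def Pn (w : I → unitary A) (g : I → ℂ) (y : A) (f : unitary A × A → ℂ) :
    ℕ → unitary A × A → ℂ
  | 0 => f
  | n + 1 => fun x => avg (fun i => Pn w g y f n (stp w g y x i))

def ftest (φ : A → A → A → ℂ) : unitary A × A → ℂ :=
  fun x => φ (x.1 : A) (star (x.1 : A)) x.2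

noncomputable def At (φ : A → A → A → ℂ) (w : I → unitary A) (n : ℕ) : A → A → ℂ :=
  fun x c => mu w n (fun V => φ (V : A) x (c * star (V : A)))

noncomputable def Bt (φ : A → A → A → ℂ) (w : I → unitary A) (n : ℕ) : A → A → ℂ :=
  fun x c => mu w n (fun V => φ x (star (V : A)) ((V : A) * c))

noncomputable def Dt (φ : A → A → A → ℂ) (w : I → unitary A) (n : ℕ) (y : A) (i : I) : ℂ :=
  φ (w i : A) (star (w i : A)) y - At φ w n (w i : A) (star (w i : A) * y)
    - Bt φ w n (star (w i : A)) (y * (w i : A))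

private lemma A4_norm_le (W : unitary A) : ‖(W : A)‖ ≤ 1 := by
  rcases subsingleton_or_nontrivial A with h | h
  · rw [Subsingleton.elim (W : A) 0, norm_zero]
    exact zero_le_one
  · exact (CStarRing.norm_coe_unitary W).le

private lemma A4_norm_mul_star (b : A) (V : unitary A) : ‖b * star (V : A)‖ ≤ ‖b‖ := by
  refine (norm_mul_le _ _).trans ?_
  rw [norm_star]
  exact mul_le_of_le_one_right (norm_nonneg b) (A4_norm_le V)

private lemma A4_norm_mul (b : A) (V : unitary A) : ‖(V : A) * b‖ ≤ ‖b‖ := by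
  refine (norm_mul_le _ _).trans ?_
  exact mul_le_of_le_one_left (norm_nonneg b) (A4_norm_le V)

theorem At_bil [Nonempty I] {φ : A → A → A → ℂ} {C : ℝ} (hC : 0 ≤ C) (h : Tri C φ)
    (w : I → unitary A) (n : ℕ) (hn : 1 ≤ n) : Bil C (At φ w n) := by
  have hE := mu_mean w n hn
  refine ⟨?_, ?_, ?_, ?_, ?_⟩
  · intro a a' b
    unfold At
    rw [← map_add]
    refine congrArg _ (funext fun V => ?_)
    exact h.add₂ _ _ _ _
  · intro a b b'
    unfold At
    rw [← map_add]
    refine congrArg _ (funext fun V => ?_)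
    rw [add_mul]
    exact h.add₃ _ _ _ _
  · intro z a b
    unfold At
    rw [← smul_eq_mul, ← map_smul]
    refine congrArg _ (funext fun V => ?_)
    exact h.smul₂ _ _ _ _
  · intro z a b
    unfold At
    rw [← smul_eq_mul, ← map_smul]
    refine congrArg _ (funext fun V => ?_)
    rw [smul_mul_assoc]
    exact h.smul₃ _ _ _ _
  · intro a b
    refine hE.bd _ _ (fun V => ?_)
    refine (h.bd _ _ _).trans ?_
    have h1 : C * ‖(V : A)‖ * ‖a‖ ≤ C * ‖a‖ :=
      mul_le_mul_of_nonneg_right (mul_le_of_le_one_right hC (A4_norm_le V)) (norm_nonneg a)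
    exact mul_le_mul h1 (A4_norm_mul_star b V) (norm_nonneg _)
      (mul_nonneg hC (norm_nonneg a))

theorem Bt_bil [Nonempty I] {φ : A → A → A → ℂ} {C : ℝ} (hC : 0 ≤ C) (h : Tri C φ)
    (w : I → unitary A) (n : ℕ) (hn : 1 ≤ n) : Bil C (Bt φ w n) := by
  have hE := mu_mean w n hn
  refine ⟨?_, ?_, ?_, ?_, ?_⟩
  · intro a a' b
    unfold Bt
    rw [← map_add]
    refine congrArg _ (funext fun V => ?_)
    exact h.add₁ _ _ _ _
  · intro a b b'
    unfold Bt
    rw [← map_add]
    refine congrArg _ (funext fun V => ?_)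
    rw [mul_add]
    exact h.add₃ _ _ _ _
  · intro z a b
    unfold Bt
    rw [← smul_eq_mul, ← map_smul]
    refine congrArg _ (funext fun V => ?_)
    exact h.smul₁ _ _ _ _
  · intro z a b
    unfold Bt
    rw [← smul_eq_mul, ← map_smul]
    refine congrArg _ (funext fun V => ?_)
    rw [mul_smul_comm]
    exact h.smul₃ _ _ _ _
  · intro a b
    refine hE.bd _ _ (fun V => ?_)
    refine (h.bd _ _ _).trans ?_
    have h1 : C * ‖a‖ * ‖star (V : A)‖ ≤ C * ‖a‖ := by
      rw [norm_star]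
      exact mul_le_of_le_one_right (mul_nonneg hC (norm_nonneg a)) (A4_norm_le V)
    exact mul_le_mul h1 (A4_norm_mul b V) (norm_nonneg _)
      (mul_nonneg hC (norm_nonneg a))

theorem inc {φ : A → A → A → ℂ} (h : Coc φ) (V W : unitary A) (y : A) :
    φ ((V : A) * W) (star ((V : A) * W)) ((V : A) * y * star (V : A))
      - φ (V : A) (star (V : A)) ((V : A) * y * star (V : A))
    = φ (W : A) (star (W : A)) y - φ (star (W : A)) (star (V : A)) ((V : A) * (y * W))
      - φ (V : A) (W : A) (star (W : A) * y * star (V : A)) + φ 1 1 y := by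
  have hV : star (V : A) * (V : A) = 1 := by simp
  have hW : (W : A) * star (W : A) = 1 := by simp
  have e1 := h (V : A) (W : A) (star (W : A) * star (V : A)) ((V : A) * y * star (V : A))
  have e2 := h (W : A) (star (W : A)) (star (V : A)) ((V : A) * y)
  have s1 : (V : A) * y * star (V : A) * (V : A) = (V : A) * y := by rw [mul_assoc, hV, mul_one]
  have s2 : (W : A) * (star (W : A) * star (V : A)) = star (V : A) := by
    rw [← mul_assoc, hW, one_mul]
  have s4 : star (V : A) * ((V : A) * y) = y := by rw [← mul_assoc, hV, one_mul]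
  have s3 : star (W : A) * star (V : A) * ((V : A) * y * star (V : A)) =
      star (W : A) * y * star (V : A) := by
    have : star (W : A) * star (V : A) * ((V : A) * y * star (V : A)) =
      star (W : A) * (star (V : A) * ((V : A) * y)) * star (V : A) := by
      simp only [mul_assoc]
    rw [this, s4]
  rw [s1, s2, s3] at e1
  rw [hW, coc_one_left h, s4, mul_assoc (V : A) y (W : A)] at e2
  rw [star_mul]
  linear_combination e2 - e1

/-- the drift function -/
noncomputable def beta (φ : A → A → A → ℂ) (w : I → unitary A) (g : I → ℂ) (y : A) :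
    unitary A → ℂ :=
  fun V => avg (fun i => g i * (φ (w i : A) (star (w i : A)) y
      - φ (star (w i : A)) (star (V : A)) ((V : A) * (y * (w i : A)))
      - φ (V : A) (w i : A) (star (w i : A) * y * star (V : A))))

end SimpCoh
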