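import Pool.Agent.Lib.MP_263cac_an.A4

/-!
# A4b: expansion of the expectation after n steps (see the header of A4 for the proof)
-/

set_option autoImplicit false

namespace SimpCoh

variable {A : Type*} [CStarAlgebra A] {I : Type*} [Fintype I]

theorem a4b_norm_unit (V : unitary A) : ‖(V : A)‖ ≤ 1 := by
  rcases subsingleton_or_nontrivial A with h | h
  · have h1 : (V : A) = 0 := Subsingleton.elim _ _
    rw [h1, norm_zero]
    exact zero_le_one
  · exact (CStarRing.norm_coe_unitary V).le

theorem a4b_conj (V : unitary A) (y : A) : ‖(V : A) * y * star (V : A)‖ ≤ ‖y‖ := by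
  have h1 := a4b_norm_unit V
  have h2 : ‖(V : A) * y‖ ≤ ‖y‖ :=
    (norm_mul_le _ _).trans (by nlinarith [norm_nonneg y, norm_nonneg (V : A)])
  refine (norm_mul_le _ _).trans ?_
  rw [norm_star]
  nlinarith [norm_nonneg y, norm_nonneg (V : A), norm_nonneg ((V : A) * y)]

theorem a4b_avgf {φ : A → A → A → ℂ} {C η : ℝ} (hη : 0 ≤ η)
    (h : Tri C φ) (hc : Coc φ) (w : I → unitary A) (hh : Harm w η φ) (g : I → ℂ)
    (hg0 : ∑ i, g i = 0) (y : A) (V : unitary A) (c : A) :
    ‖avg (fun i => ftest φ (stp w g y (V, c) i)) - ftest φ (V, c) - beta φ w g y V‖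
      ≤ η * ‖c‖ := by
  have e1 : ∀ i, ftest φ (stp w g y (V, c) i)
      = φ ((V : A) * (w i : A)) (star (w i : A) * star (V : A)) c
        + (g i * (φ (w i : A) (star (w i : A)) y
            - φ (star (w i : A)) (star (V : A)) ((V : A) * (y * (w i : A)))
            - φ (V : A) (w i : A) (star (w i : A) * y * star (V : A)))
          + (φ 1 1 y + φ (V : A) (star (V : A)) ((V : A) * y * star (V : A))) * g i) := by
    intro i
    have h1 := inc hc V (w i) y
    unfold ftest stp
    simp only [Submonoid.coe_mul, h.add₃, h.smul₃]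
    rw [star_mul] at h1 ⊢
    linear_combination (g i) * h1
  have e2 : avg (fun i => ftest φ (stp w g y (V, c) i))
      = avg (fun i => φ ((V : A) * (w i : A)) (star (w i : A) * star (V : A)) c)
        + beta φ w g y V := by
    have e3 : (fun i => ftest φ (stp w g y (V, c) i)) = fun i =>
        φ ((V : A) * (w i : A)) (star (w i : A) * star (V : A)) c
        + (g i * (φ (w i : A) (star (w i : A)) y
            - φ (star (w i : A)) (star (V : A)) ((V : A) * (y * (w i : A)))
            - φ (V : A) (w i : A) (star (w i : A) * y * star (V : A)))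
          + (φ 1 1 y + φ (V : A) (star (V : A)) ((V : A) * y * star (V : A))) * g i) :=
      funext e1
    rw [e3, avg_add, avg_add, avg_mul]
    have e4 : avg g = 0 := by
      unfold avg
      rw [hg0, mul_zero]
    rw [e4, mul_zero, add_zero]
    rfl
  rw [e2]
  have e5 : avg (fun i => φ ((V : A) * (w i : A)) (star (w i : A) * star (V : A)) c)
        + beta φ w g y V - ftest φ (V, c) - beta φ w g y V
      = avg (fun i => φ ((V : A) * (w i : A)) (star (w i : A) * star (V : A)) c)
        - φ (V : A) (star (V : A)) c := by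
    unfold ftest
    ring
  rw [e5]
  refine (hh.h1 _ _ _).trans ?_
  rw [norm_star]
  have h2 := a4b_norm_unit V
  have h3 : ‖(V : A)‖ * ‖(V : A)‖ ≤ 1 := by nlinarith [norm_nonneg (V : A)]
  have h4 : 0 ≤ η * ‖c‖ := by positivity
  calc η * ‖(V : A)‖ * ‖(V : A)‖ * ‖c‖ = (η * ‖c‖) * (‖(V : A)‖ * ‖(V : A)‖) := by ring
    _ ≤ (η * ‖c‖) * 1 := mul_le_mul_of_nonneg_left h3 h4
    _ = η * ‖c‖ := mul_one _

theorem a4b_avg_sum (f : ℕ → I → ℂ) (s : Finset ℕ) :
    avg (fun i => ∑ k ∈ s, f k i) = ∑ k ∈ s, avg (f k) := by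
  unfold avg
  rw [Finset.sum_comm, Finset.mul_sum]

theorem chain_expand [Nonempty I] {φ : A → A → A → ℂ} {C η : ℝ} (hC : 0 ≤ C) (hη : 0 ≤ η)
    (h : Tri C φ) (hc : Coc φ) (w : I → unitary A) (hh : Harm w η φ) (g : I → ℂ)
    (hg : ∀ i, ‖g i‖ ≤ 1) (hg0 : ∑ i, g i = 0) (y : A) (n : ℕ) (V : unitary A) (c : A) :
    ‖Pn w g y (ftest φ) n (V, c) - ftest φ (V, c)
        - ∑ k ∈ Finset.range n, ((PR w)^[k] (beta φ w g y)) V‖ ≤ n * η * (‖c‖ + n * ‖y‖) := by
  induction n generalizing V c with
  | zero => simp [Pn]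
  | succ n ih =>
    have h1 : ∀ i, ‖Pn w g y (ftest φ) n (stp w g y (V, c) i) - ftest φ (stp w g y (V, c) i)
        - ∑ k ∈ Finset.range n, ((PR w)^[k] (beta φ w g y)) (V * w i)‖
          ≤ n * η * (‖c‖ + (n + 1) * ‖y‖) := by
      intro i
      refine (ih (V * w i) (c + g i • ((V : A) * y * star (V : A)))).trans ?_
      have h2 : ‖c + g i • ((V : A) * y * star (V : A))‖ ≤ ‖c‖ + ‖y‖ := by
        refine (norm_add_le _ _).trans ?_
        rw [norm_smul]
        have h3 := a4b_conj V y
        have h4 := hg i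
        nlinarith [norm_nonneg (g i), norm_nonneg ((V : A) * y * star (V : A)), norm_nonneg y]
      have h5 : (0 : ℝ) ≤ n * η := by positivity
      refine mul_le_mul_of_nonneg_left ?_ h5
      linarith
    have h2 := avg_bd _ _ h1
    have h3 := a4b_avgf hη h hc w hh g hg0 y V c
    have e1 : avg (fun i => Pn w g y (ftest φ) n (stp w g y (V, c) i)
          - ftest φ (stp w g y (V, c) i)
          - ∑ k ∈ Finset.range n, ((PR w)^[k] (beta φ w g y)) (V * w i))
        = Pn w g y (ftest φ) (n + 1) (V, c) - avg (fun i => ftest φ (stp w g y (V, c) i))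
          - ∑ k ∈ Finset.range n, ((PR w)^[k + 1] (beta φ w g y)) V := by
      rw [avg_sub, avg_sub, a4b_avg_sum (fun k i => ((PR w)^[k] (beta φ w g y)) (V * w i))]
      congr 1
      refine Finset.sum_congr rfl fun k _ => ?_
      rw [Function.iterate_succ_apply']
      rfl
    rw [e1] at h2
    have e2 : ∑ k ∈ Finset.range (n + 1), ((PR w)^[k] (beta φ w g y)) V
        = ∑ k ∈ Finset.range n, ((PR w)^[k + 1] (beta φ w g y)) V + beta φ w g y V := by
      rw [Finset.sum_range_succ']
      rfl
    rw [e2]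
    have e3 : Pn w g y (ftest φ) (n + 1) (V, c) - ftest φ (V, c)
          - (∑ k ∈ Finset.range n, ((PR w)^[k + 1] (beta φ w g y)) V + beta φ w g y V)
        = (Pn w g y (ftest φ) (n + 1) (V, c) - avg (fun i => ftest φ (stp w g y (V, c) i))
          - ∑ k ∈ Finset.range n, ((PR w)^[k + 1] (beta φ w g y)) V)
          + (avg (fun i => ftest φ (stp w g y (V, c) i)) - ftest φ (V, c)
            - beta φ w g y V) := by ring
    rw [e3]
    refine (norm_add_le _ _).trans ((add_le_add h2 h3).trans ?_)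
    push_cast
    have h4 : 0 ≤ η * ((n + 1) * ‖y‖) := by positivity
    nlinarith

end SimpCoh
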