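import Pool.Agent.Lib.MP_263cac_an.A4b

/-!
# A4c: the main inequality (see the header of A4 for the proof)
-/

set_option autoImplicit false

namespace SimpCoh

variable {A : Type*} [CStarAlgebra A] {I : Type*} [Fintype I]

private theorem a4c_norm_one : ‖(1 : A)‖ ≤ 1 := by
  have h := CStarRing.norm_star_mul_self (x := (1 : A))
  rw [star_one, mul_one] at h
  by_contra hc
  push Not at hc
  nlinarith

private theorem a4c_unit (V : unitary A) : ‖(V : A)‖ ≤ 1 := by
  have h := CStarRing.norm_star_mul_self (x := (V : A))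
  rw [Unitary.coe_star_mul_self] at h
  have h1 := a4c_norm_one (A := A)
  by_contra hc
  push Not at hc
  nlinarith

private theorem a4c_star (V : unitary A) : ‖star (V : A)‖ ≤ 1 := by
  rw [norm_star]
  exact a4c_unit V

private theorem a4c_const {E : (unitary A → ℂ) →ₗ[ℂ] ℂ} (hE : IsMean E) (z : ℂ) :
    E (fun _ => z) = z := by
  have e : (fun _ : unitary A => z) = z • (fun _ : unitary A => (1 : ℂ)) := by
    funext V
    exact (mul_one z).symm
  rw [e, map_smul, hE.one, smul_eq_mul, mul_one]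

private theorem a4c_three {x y z : ℂ} {η : ℝ} (hx : ‖x‖ ≤ η) (hy : ‖y‖ ≤ η) (hz : ‖z‖ ≤ η) :
    ‖x - y - z‖ ≤ 3 * η := by
  have h1 := norm_sub_le (x - y) z
  have h2 := norm_sub_le x y
  linarith

private theorem a4c_le {η a b c : ℝ} (hη : 0 ≤ η) (ha : a ≤ 1) (hb : b ≤ 1) (hc : c ≤ 1)
    (ha0 : 0 ≤ a) (hb0 : 0 ≤ b) : η * a * b * c ≤ η := by
  have h1 : η * a ≤ η := mul_le_of_le_one_right hη ha
  have h2 : 0 ≤ η * a := mul_nonneg hη ha0
  have h3 : η * a * b ≤ η * a := mul_le_of_le_one_right h2 hb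
  have h4 : 0 ≤ η * a * b := mul_nonneg h2 hb0
  have h5 : η * a * b * c ≤ η * a * b := mul_le_of_le_one_right h4 hc
  linarith

theorem beta_sum {φ : A → A → A → ℂ} {C : ℝ} (h : Tri C φ)
    (w : I → unitary A) (g : I → ℂ) (y : A) (n : ℕ) (hn : 1 ≤ n) (hg0 : ∑ i, g i = 0) :
    (n : ℂ)⁻¹ * ∑ k ∈ Finset.range n, ((PR w)^[k] (beta φ w g y)) 1
      = avg (fun i => g i * Dt φ w n y i) := by
  rcases isEmpty_or_nonempty I with hI | hI
  · have h0 : ∀ f : I → ℂ, avg f = 0 := by
      intro f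
      unfold avg
      rw [Finset.univ_eq_empty, Finset.sum_empty, mul_zero]
    rw [h0]
    have h1 : ∀ k, ((PR w)^[k] (beta φ w g y)) 1 = 0 := by
      intro k
      cases k with
      | zero => exact h0 _
      | succ k =>
        rw [Function.iterate_succ_apply']
        exact h0 _
    rw [Finset.sum_eq_zero fun k _ => h1 k, mul_zero]
  · show mu w n (beta φ w g y) = _
    have h1 : beta φ w g y = fun V : unitary A => avg (fun i => g i * (φ (w i : A) (star (w i : A)) y
        - φ (star (w i : A)) (star (V : A)) ((V : A) * (y * (w i : A)))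
        - φ (V : A) (w i : A) (star (w i : A) * y * star (V : A)))) := rfl
    rw [h1, map_avg (mu w n) (fun i V => g i * (φ (w i : A) (star (w i : A)) y
        - φ (star (w i : A)) (star (V : A)) ((V : A) * (y * (w i : A)))
        - φ (V : A) (w i : A) (star (w i : A) * y * star (V : A))))]
    have h2 : ∀ i, mu w n (fun V => g i * (φ (w i : A) (star (w i : A)) y
        - φ (star (w i : A)) (star (V : A)) ((V : A) * (y * (w i : A)))
        - φ (V : A) (w i : A) (star (w i : A) * y * star (V : A)))) = g i * Dt φ w n y i := by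
      intro i
      have e : (fun V : unitary A => g i * (φ (w i : A) (star (w i : A)) y
          - φ (star (w i : A)) (star (V : A)) ((V : A) * (y * (w i : A)))
          - φ (V : A) (w i : A) (star (w i : A) * y * star (V : A)))) =
          g i • ((fun _ : unitary A => φ (w i : A) (star (w i : A)) y)
          - (fun V : unitary A => φ (star (w i : A)) (star (V : A)) ((V : A) * (y * (w i : A))))
          - (fun V : unitary A => φ (V : A) (w i : A) (star (w i : A) * y * star (V : A)))) := rfl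
      rw [e, map_smul, map_sub, map_sub, a4c_const (mu_mean w n hn), smul_eq_mul]
      unfold Dt At Bt
      ring
    exact congrArg avg (funext h2)

theorem avg_Dt [Nonempty I] {φ : A → A → A → ℂ} {C η : ℝ} (hC : 0 ≤ C) (hη : 0 ≤ η)
    (h : Tri C φ) (hc : Coc φ) (w : I → unitary A) (hh : Harm w η φ) (n : ℕ) (hn : 1 ≤ n)
    (y : A) (hy : ‖y‖ ≤ 1) : ‖avg (Dt φ w n y) + φ 1 1 y‖ ≤ 3 * η := by
  have hM := mu_mean w n hn
  have e1 : avg (Dt φ w n y) = avg (fun i => φ (w i : A) (star (w i : A)) y)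
      - avg (fun i => At φ w n (w i : A) (star (w i : A) * y))
      - avg (fun i => Bt φ w n (star (w i : A)) (y * (w i : A))) := by
    rw [← avg_sub, ← avg_sub]
    rfl
  have h1 : ‖avg (fun i => φ (w i : A) (star (w i : A)) y) - φ 1 1 y‖ ≤ η := by
    have := hh.h1 1 1 y
    simp only [one_mul, mul_one] at this
    exact this.trans (a4c_le hη a4c_norm_one a4c_norm_one hy (norm_nonneg _) (norm_nonneg _))
  have h2 : ‖avg (fun i => At φ w n (w i : A) (star (w i : A) * y)) - φ 1 1 y‖ ≤ η := by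
    unfold At
    rw [← map_avg (mu w n) (fun i V => φ (V : A) (w i : A) (star (w i : A) * y * star (V : A)))]
    refine mean_sub_const hM _ _ _ fun V => ?_
    have h3 := hh.h2 (V : A) 1 (y * star (V : A))
    simp only [one_mul] at h3
    rw [coc_one_right hc, mul_assoc, Unitary.coe_star_mul_self, mul_one] at h3
    simp only [mul_assoc] at h3 ⊢
    refine h3.trans ?_
    have h4 : ‖y * star (V : A)‖ ≤ 1 := by
      refine (norm_mul_le _ _).trans ?_
      exact mul_le_one₀ hy (norm_nonneg _) (a4c_star V)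
    have h5 := a4c_le hη (a4c_unit V) (a4c_norm_one (A := A)) h4 (norm_nonneg _) (norm_nonneg _)
    rw [mul_assoc, mul_assoc] at h5
    exact h5
  have h3 : ‖avg (fun i => Bt φ w n (star (w i : A)) (y * (w i : A))) - φ 1 1 y‖ ≤ η := by
    unfold Bt
    rw [← map_avg (mu w n) (fun i V => φ (star (w i : A)) (star (V : A)) ((V : A) * (y * (w i : A))))]
    refine mean_sub_const hM _ _ _ fun V => ?_
    have h3 := hh.h0 1 (star (V : A)) ((V : A) * y)
    simp only [mul_one] at h3
    rw [coc_one_left hc, ← mul_assoc (star (V : A)), Unitary.coe_star_mul_self, one_mul] at h3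
    simp only [mul_assoc] at h3 ⊢
    refine h3.trans ?_
    have h4 : ‖(V : A) * y‖ ≤ 1 := by
      refine (norm_mul_le _ _).trans ?_
      exact mul_le_one₀ (a4c_unit V) (norm_nonneg _) hy
    have h5 := a4c_le hη (a4c_norm_one (A := A)) (a4c_star V) h4 (norm_nonneg _) (norm_nonneg _)
    rw [mul_assoc, mul_assoc] at h5
    exact h5
  have e2 : avg (Dt φ w n y) + φ 1 1 y =
      (avg (fun i => φ (w i : A) (star (w i : A)) y) - φ 1 1 y)
      - (avg (fun i => At φ w n (w i : A) (star (w i : A) * y)) - φ 1 1 y)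
      - (avg (fun i => Bt φ w n (star (w i : A)) (y * (w i : A))) - φ 1 1 y) := by
    rw [e1]
    ring
  rw [e2]
  exact a4c_three h1 h2 h3

/-- Main inequality. -/
theorem chain_main [Nonempty I] {φ : A → A → A → ℂ} {C η : ℝ} (hC : 0 ≤ C) (hη : 0 ≤ η)
    (h : Tri C φ) (hc : Coc φ) (w : I → unitary A) (hh : Harm w η φ) (n : ℕ) (hn : 1 ≤ n)
    (y : A) (hy : ‖y‖ ≤ 1) (T : ℝ)
    (hT : ∀ g : I → ℂ, (∀ i, ‖g i‖ ≤ 1) → ∑ i, g i = 0 → ‖Pn w g y (ftest φ) n (1, 0)‖ ≤ T)
    (i₀ : I) :
    ‖Dt φ w n y i₀ + φ 1 1 y‖ ≤ Fintype.card I * (T / n + n * η) + 3 * η := by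
  classical
  set m : ℝ := (Fintype.card I : ℝ) with hm
  have hm1 : 1 ≤ m := by
    rw [hm]
    exact_mod_cast Fintype.card_pos (α := I)
  have hm0 : 0 < m := lt_of_lt_of_le one_pos hm1
  have hmC : (Fintype.card I : ℂ) = (m : ℂ) := by
    rw [hm]
    norm_cast
  have hmne : (m : ℂ) ≠ 0 := by
    exact_mod_cast hm0.ne'
  have hn0 : (0 : ℝ) < n := by exact_mod_cast hn
  set g : I → ℂ := fun i => (if i = i₀ then 1 else 0) - (m : ℂ)⁻¹ with hg
  have hg0 : ∑ i, g i = 0 := by
    rw [hg, Finset.sum_sub_distrib, Finset.sum_ite_eq' Finset.univ i₀, if_pos (Finset.mem_univ _),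
      Finset.sum_const, Finset.card_univ, nsmul_eq_mul, hmC, mul_inv_cancel₀ hmne, sub_self]
  have hgb : ∀ i, ‖g i‖ ≤ 1 := by
    intro i
    have hinv1 : m⁻¹ ≤ 1 := inv_le_one_of_one_le₀ hm1
    have hinv0 : 0 ≤ m⁻¹ := inv_nonneg.2 hm0.le
    rw [hg]
    by_cases hi : i = i₀
    · simp only [hi, if_true]
      have e : (1 : ℂ) - (m : ℂ)⁻¹ = ((1 - m⁻¹ : ℝ) : ℂ) := by
        push_cast
        rfl
      rw [e, Complex.norm_real, Real.norm_of_nonneg (by linarith)]
      linarith
    · simp only [hi, if_false, zero_sub, norm_neg]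
      have e : (m : ℂ)⁻¹ = ((m⁻¹ : ℝ) : ℂ) := by
        push_cast
        rfl
      rw [e, Complex.norm_real, Real.norm_of_nonneg hinv0]
      exact hinv1
  have h1 := chain_expand hC hη h hc w hh g hgb hg0 y n 1 0
  have h0 : ftest φ ((1 : unitary A), (0 : A)) = 0 := by
    unfold ftest
    have := h.smul₃ 0 ((1 : unitary A) : A) (star ((1 : unitary A) : A)) 0
    rw [zero_smul, zero_mul] at this
    exact this
  rw [h0, sub_zero, norm_zero, zero_add] at h1
  have h2 := hT g hgb hg0
  have h3 : ‖∑ k ∈ Finset.range n, ((PR w)^[k] (beta φ w g y)) 1‖ ≤ T + n * n * η := by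
    have h4 := norm_sub_norm_le (∑ k ∈ Finset.range n, ((PR w)^[k] (beta φ w g y)) 1)
      (Pn w g y (ftest φ) n (1, 0))
    rw [norm_sub_rev] at h4
    have h5 : n * η * (n * ‖y‖) ≤ n * n * η := by
      have : (n : ℝ) * η * (n * ‖y‖) = n * n * η * ‖y‖ := by ring
      rw [this]
      exact mul_le_of_le_one_right (by positivity) hy
    linarith
  have h4 : ‖avg (fun i => g i * Dt φ w n y i)‖ ≤ T / n + n * η := by
    rw [← beta_sum h w g y n hn hg0, norm_mul, norm_inv, Complex.norm_natCast]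
    calc (n : ℝ)⁻¹ * ‖∑ k ∈ Finset.range n, ((PR w)^[k] (beta φ w g y)) 1‖
        ≤ (n : ℝ)⁻¹ * (T + n * n * η) := mul_le_mul_of_nonneg_left h3 (inv_nonneg.2 hn0.le)
      _ = T / n + n * η := by
        field_simp
  have h5 : Dt φ w n y i₀ - avg (Dt φ w n y) = m * avg (fun i => g i * Dt φ w n y i) := by
    unfold avg
    rw [hmC, ← mul_assoc, mul_inv_cancel₀ hmne, one_mul]
    have e : ∀ i, g i * Dt φ w n y i = (if i = i₀ then Dt φ w n y i else 0) - (m : ℂ)⁻¹ * Dt φ w n y i := by
      intro i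
      rw [hg]
      by_cases hi : i = i₀
      · simp only [hi, if_true]
        ring
      · simp only [hi, if_false]
        ring
    rw [Finset.sum_congr rfl fun i _ => e i, Finset.sum_sub_distrib,
      Finset.sum_ite_eq' Finset.univ i₀, if_pos (Finset.mem_univ _), ← Finset.mul_sum]
  have h6 : ‖Dt φ w n y i₀ - avg (Dt φ w n y)‖ ≤ m * (T / n + n * η) := by
    rw [h5, norm_mul, Complex.norm_real, Real.norm_of_nonneg hm0.le]
    exact mul_le_mul_of_nonneg_left h4 hm0.le
  have h7 := avg_Dt hC hη h hc w hh n hn y hy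
  have e : Dt φ w n y i₀ + φ 1 1 y = (Dt φ w n y i₀ - avg (Dt φ w n y)) + (avg (Dt φ w n y) + φ 1 1 y) := by
    ring
  rw [e]
  exact (norm_add_le _ _).trans (add_le_add h6 h7)

end SimpCoh
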