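import Pool.Agent.Lib.MP_263cac_an.A4

/-!
# A4d: pathwise bound (see the header of A4 for the proof)
-/

set_option autoImplicit false
set_option linter.unusedSectionVars false

namespace SimpCoh

variable {A : Type*} [CStarAlgebra A] {I : Type*} [Fintype I]

/-- the path of the chain with prescribed steps -/
noncomputable def A4d_pt (w : I → unitary A) (g : I → ℂ) (y : A) (x : unitary A × A)
    (s : ℕ → I) : ℕ → unitary A × A
  | 0 => x
  | k + 1 => stp w g y (A4d_pt w g y x s k) (s k)

theorem A4d_pt_cons (w : I → unitary A) (g : I → ℂ) (y : A) (x : unitary A × A) (i : I)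
    (s : ℕ → I) (n : ℕ) :
    A4d_pt w g y x (fun k => Nat.casesOn k i s) (n + 1) = A4d_pt w g y (stp w g y x i) s n := by
  induction n with
  | zero => rfl
  | succ n ih =>
    rw [A4d_pt, ih]
    rfl

theorem A4d_bound [Nonempty I] (w : I → unitary A) (g : I → ℂ) (y : A)
    (f : unitary A × A → ℂ) (K : ℝ) (n : ℕ) :
    ∀ x : unitary A × A, (∀ s : ℕ → I, ‖f (A4d_pt w g y x s n)‖ ≤ K) →
      ‖Pn w g y f n x‖ ≤ K := by
  induction n with
  | zero =>
    intro x hx
    obtain ⟨i⟩ := ‹Nonempty I›
    exact hx (fun _ => i)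
  | succ n ih =>
    intro x hx
    refine avg_bd _ _ (fun i => ih _ (fun s => ?_))
    rw [← A4d_pt_cons]
    exact hx _

theorem A4d_pt_word (u : I → unitary A) (r : unitary A) (g : I → ℂ) (y : A) (s : ℕ → I) (n : ℕ) :
    A4d_pt (fun i => u i * r) g y (1, 0) s n =
      (word (fun k => u (s k)) r n, ∑ j ∈ Finset.range n, g (s j) •
        ((word (fun k => u (s k)) r j : unitary A) * y *
          star ((word (fun k => u (s k)) r j : unitary A) : A))) := by
  induction n with
  | zero => simp [A4d_pt, word]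
  | succ n ih =>
    rw [A4d_pt, ih, Finset.sum_range_succ, stp, word]
    exact Prod.ext (mul_assoc _ _ _).symm rfl

theorem A4d_norm_le (V : unitary A) : ‖(V : A)‖ ≤ 1 := by
  rcases subsingleton_or_nontrivial A with hs | hn
  · rw [Subsingleton.elim (V : A) 0, norm_zero]
    exact zero_le_one
  · exact (CStarRing.norm_coe_unitary V).le

/-- bound of `T` for trace zero elements: all trajectories have small sums of conjugates. -/
theorem Pn_bound_path [Nonempty I] {φ : A → A → A → ℂ} {C : ℝ} (hC : 0 ≤ C) (h : Tri C φ)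
    (u : I → unitary A) (r : unitary A) (g : I → ℂ) (y : A) (n : ℕ) (T : ℝ)
    (hT : ∀ s : ℕ → I, ‖∑ j ∈ Finset.range n, g (s j) •
        ((word (fun k => u (s k)) r j : unitary A) * y *
          star ((word (fun k => u (s k)) r j : unitary A) : A))‖ ≤ T) :
    ‖Pn (fun i => u i * r) g y (ftest φ) n (1, 0)‖ ≤ C * T := by
  refine A4d_bound _ _ _ _ _ _ _ (fun s => ?_)
  rw [A4d_pt_word, ftest]
  refine (h.bd _ _ _).trans ?_
  have h1 := A4d_norm_le (word (fun k => u (s k)) r n)
  have h2 : ‖star ((word (fun k => u (s k)) r n : unitary A) : A)‖ ≤ 1 := by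
    rw [norm_star]; exact h1
  have h3 := hT s
  have h4 : C * ‖((word (fun k => u (s k)) r n : unitary A) : A)‖ *
      ‖star ((word (fun k => u (s k)) r n : unitary A) : A)‖ ≤ C := by
    calc C * ‖((word (fun k => u (s k)) r n : unitary A) : A)‖ *
          ‖star ((word (fun k => u (s k)) r n : unitary A) : A)‖
        ≤ C * 1 * 1 := by gcongr
      _ = C := by ring
  exact mul_le_mul h4 h3 (norm_nonneg _) hC

end SimpCoh
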