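import Pool.Agent.Lib.MP_263cac_an.A4

/-!
# A4e: second moment bound for y = 1 (see the header of A4 for the proof)
-/

set_option autoImplicit false

namespace SimpCoh

variable {A : Type*} [CStarAlgebra A] {I : Type*} [Fintype I]

theorem A4e_one_le : ‖(1 : A)‖ ≤ 1 := by
  rcases subsingleton_or_nontrivial A with h | h
  · have : (1 : A) = 0 := Subsingleton.elim _ _
    rw [this, norm_zero]
    exact zero_le_one
  · rw [CStarRing.norm_one]

theorem A4e_unitary_le (V : unitary A) : ‖(V : A)‖ ≤ 1 := by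
  rcases subsingleton_or_nontrivial A with h | h
  · have : (V : A) = 0 := Subsingleton.elim _ _
    rw [this, norm_zero]
    exact zero_le_one
  · rw [CStarRing.norm_coe_unitary]

theorem A4e_avg_norm (f : I → ℂ) : ‖avg f‖ ≤ (Fintype.card I : ℝ)⁻¹ * ∑ i, ‖f i‖ := by
  rw [avg, norm_mul, norm_inv, Complex.norm_natCast]
  exact mul_le_mul_of_nonneg_left (norm_sum_le _ _) (inv_nonneg.mpr (Nat.cast_nonneg _))

theorem A4e_sum_sq (g : I → ℂ) (hg : ∀ i, ‖g i‖ ≤ 1) (hg0 : ∑ i, g i = 0) (z : ℂ) :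
    ∑ i, ‖z + g i‖ ^ 2 ≤ (Fintype.card I : ℝ) * (‖z‖ ^ 2 + 1) := by
  have h1 : ∀ i, ‖z + g i‖ ^ 2 = ‖z‖ ^ 2 + ‖g i‖ ^ 2 + 2 * (z * (starRingEnd ℂ) (g i)).re := by
    intro i
    rw [Complex.sq_norm, Complex.sq_norm, Complex.sq_norm, Complex.normSq_add]
  have h2 : ∑ i, (z * (starRingEnd ℂ) (g i)).re = 0 := by
    rw [← Complex.re_sum, ← Finset.mul_sum, ← map_sum, hg0, map_zero, mul_zero, Complex.zero_re]
  have h3 : ∑ i, ‖z + g i‖ ^ 2 = ∑ i, (‖z‖ ^ 2 + ‖g i‖ ^ 2) := by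
    rw [Finset.sum_congr rfl (fun i _ => h1 i), Finset.sum_add_distrib, ← Finset.mul_sum, h2]
    ring
  rw [h3]
  calc ∑ i, (‖z‖ ^ 2 + ‖g i‖ ^ 2) ≤ ∑ _i : I, (‖z‖ ^ 2 + 1) := by
        apply Finset.sum_le_sum
        intro i _
        have : ‖g i‖ ^ 2 ≤ 1 := pow_le_one₀ (norm_nonneg _) (hg i)
        linarith
    _ = _ := by rw [Finset.sum_const, Finset.card_univ, nsmul_eq_mul]

omit [Fintype I] in
theorem A4e_stp (w : I → unitary A) (g : I → ℂ) (V : unitary A) (z : ℂ) (i : I) :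
    stp w g 1 (V, z • (1 : A)) i = (V * w i, (z + g i) • (1 : A)) := by
  have hV : (V : A) * 1 * star (V : A) = 1 := by
    rw [mul_one]; exact Unitary.coe_mul_star_self V
  simp only [stp]
  rw [hV, add_smul]

theorem A4e_ind [Nonempty I] {φ : A → A → A → ℂ} {C : ℝ} (hC : 0 ≤ C) (h : Tri C φ)
    (w : I → unitary A) (g : I → ℂ) (hg : ∀ i, ‖g i‖ ≤ 1) (hg0 : ∑ i, g i = 0) (s : ℝ)
    (hs : 0 < s) (n : ℕ) : ∀ (V : unitary A) (z : ℂ),
    ‖Pn w g 1 (ftest φ) n (V, z • (1 : A))‖ ≤ C * ((s + (‖z‖ ^ 2 + n) / s) / 2) := by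
  have hcard : (0 : ℝ) < Fintype.card I := Nat.cast_pos.mpr Fintype.card_pos
  induction n with
  | zero =>
    intro V z
    have h1 : ‖φ (V : A) (star (V : A)) (z • (1 : A))‖ ≤ C * ‖z‖ := by
      rw [h.smul₃, norm_mul]
      have h2 := h.bd (V : A) (star (V : A)) 1
      have h3 : C * ‖(V : A)‖ * ‖star (V : A)‖ * ‖(1 : A)‖ ≤ C := by
        have a1 := A4e_unitary_le V
        have a2 : ‖star (V : A)‖ ≤ 1 := by rw [norm_star]; exact a1
        have a3 := A4e_one_le (A := A)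
        have b1 : C * ‖(V : A)‖ ≤ C := mul_le_of_le_one_right hC a1
        have b2 : C * ‖(V : A)‖ * ‖star (V : A)‖ ≤ C :=
          (mul_le_of_le_one_right (mul_nonneg hC (norm_nonneg _)) a2).trans b1
        exact (mul_le_of_le_one_right
          (mul_nonneg (mul_nonneg hC (norm_nonneg _)) (norm_nonneg _)) a3).trans b2
      calc ‖z‖ * ‖φ (V : A) (star (V : A)) 1‖ ≤ ‖z‖ * C :=
            mul_le_mul_of_nonneg_left (h2.trans h3) (norm_nonneg _)
        _ = C * ‖z‖ := mul_comm _ _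
    have h4 : ‖z‖ ≤ (s + (‖z‖ ^ 2 + (0 : ℕ)) / s) / 2 := by
      rw [Nat.cast_zero, add_zero, le_div_iff₀ two_pos]
      have h5 : s + ‖z‖ ^ 2 / s - ‖z‖ * 2 = (s - ‖z‖) ^ 2 / s := by
        field_simp
        ring
      have h6 : 0 ≤ (s - ‖z‖) ^ 2 / s := div_nonneg (sq_nonneg _) hs.le
      linarith
    exact h1.trans (mul_le_mul_of_nonneg_left h4 hC)
  | succ n ih =>
    intro V z
    have e1 : Pn w g 1 (ftest φ) (n + 1) (V, z • (1 : A)) =
        avg (fun i => Pn w g 1 (ftest φ) n (V * w i, (z + g i) • (1 : A))) := by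
      change avg (fun i => Pn w g 1 (ftest φ) n (stp w g 1 (V, z • (1 : A)) i)) = _
      congr 1
      funext i
      rw [A4e_stp]
    rw [e1]
    refine (A4e_avg_norm _).trans ?_
    have h1 : ∑ i, ‖Pn w g 1 (ftest φ) n (V * w i, (z + g i) • (1 : A))‖ ≤
        ∑ i, C * ((s + (‖z + g i‖ ^ 2 + n) / s) / 2) := Finset.sum_le_sum fun i _ => ih _ _
    have h2 : ∑ i, C * ((s + (‖z + g i‖ ^ 2 + n) / s) / 2) =
        (Fintype.card I : ℝ) * (C * ((s + n / s) / 2)) + C / (2 * s) * ∑ i, ‖z + g i‖ ^ 2 := by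
      rw [Finset.mul_sum, ← nsmul_eq_mul, ← Finset.card_univ, ← Finset.sum_const,
        ← Finset.sum_add_distrib]
      apply Finset.sum_congr rfl
      intro i _
      field_simp
      ring
    have h3 := A4e_sum_sq g hg hg0 z
    have h4 : C / (2 * s) * ∑ i, ‖z + g i‖ ^ 2 ≤
        C / (2 * s) * ((Fintype.card I : ℝ) * (‖z‖ ^ 2 + 1)) :=
      mul_le_mul_of_nonneg_left h3 (div_nonneg hC (by positivity))
    have h5 : (Fintype.card I : ℝ)⁻¹ *
        ((Fintype.card I : ℝ) * (C * ((s + n / s) / 2)) +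
          C / (2 * s) * ((Fintype.card I : ℝ) * (‖z‖ ^ 2 + 1))) =
        C * ((s + (‖z‖ ^ 2 + (n + 1 : ℕ)) / s) / 2) := by
      push_cast
      field_simp
      ring
    rw [← h5]
    apply mul_le_mul_of_nonneg_left _ (inv_nonneg.mpr hcard.le)
    rw [h2] at h1
    linarith

/-- bound of `T` for `y = 1`: `E |Σ g(i_j)| ≤ sqrt n`, via `|z| ≤ (√n + |z|²/√n)/2` and `E|Σ|² ≤ n`. -/
theorem Pn_bound_one [Nonempty I] {φ : A → A → A → ℂ} {C : ℝ} (hC : 0 ≤ C) (h : Tri C φ)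
    (w : I → unitary A) (g : I → ℂ) (hg : ∀ i, ‖g i‖ ≤ 1) (hg0 : ∑ i, g i = 0) (n : ℕ)
    (hn : 1 ≤ n) :
    ‖Pn w g 1 (ftest φ) n (1, 0)‖ ≤ C * Real.sqrt n := by
  have hn0 : (0 : ℝ) < n := Nat.cast_pos.mpr hn
  have hs : 0 < Real.sqrt n := Real.sqrt_pos.mpr hn0
  have h1 := A4e_ind hC h w g hg hg0 (Real.sqrt n) hs n 1 0
  rw [zero_smul] at h1
  refine h1.trans (le_of_eq ?_)
  have h2 : Real.sqrt n * Real.sqrt n = n := Real.mul_self_sqrt hn0.le
  rw [norm_zero]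
  have h3 : (0 ^ 2 + (n : ℝ)) / Real.sqrt n = Real.sqrt n := by
    rw [div_eq_iff hs.ne', h2]
    ring
  rw [h3]
  ring

end SimpCoh
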