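import Pool.Agent.Lib.MP_263cac_an.A3b
import Pool.Agent.Lib.MP_263cac_an.A4

/-!
# A5: the approximate identity for finitely many unitaries

`(E_ε)`: for a finite set `F` of unitaries and a finite set `Y` of trace zero contractions there are bilinear forms `Aε` (bound `7C`),
`Bε` (bound `4C`) with `|Φ(u,u*;y) - Aε(u;u*y) - Bε(u*;yu)| ≤ ε` for `u ∈ F`, `y ∈ Y ∪ {1}`.
Proof: (F empty: trivial).  `I = {u // u ∈ F}`, `f = card I`.  `WalkProp` with `ε' = ε/(4 f (C+1))` and `N ≥ (4 f (C+1)/ε)², N ≥ 1` gives `n, r`; `w i = i r`.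
`exists_mean` with `η` so small that `f n η C + 3 η C ≤ ε/2` gives `E`; `φ = pr E Φ`, `S₀ = s0 E Φ`.
`chain_main` with `T = C ε' n` (by `Pn_bound_path`) for `y ∈ Y` and `T = C √n` (by `Pn_bound_one`) for `y = 1`:
`|Dt φ w n y i + φ(1,1;y)| ≤ ε`.  Transfer (`w = u r`):
`φ(ur, (ur)*; y) = φ(u,u*;y) + φ(r, r*u*; yu) - φ(u, r; r*u*y)` (cocycle identity at (u, r, r*u*; y)), and `Φ = φ + cob S₀`:
 `Aε(x;c) = At(xr; r*c) - φ(1,1;xc) + φ(x,r;r*c) - S₀(1;xc) + S₀(x;c)`,
 `Bε(x;c) = Bt(r*x; cr) - φ(r,r*x;c) + S₀(x;c)`.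
-/

set_option autoImplicit false

namespace SimpCoh

variable {A : Type*} [CStarAlgebra A]

theorem A5_one_le : ‖(1 : A)‖ ≤ 1 := by
  exact norm_unitary_le (1 : unitary A)

theorem A5_mul_r (r : unitary A) (x : A) : ‖x * (r : A)‖ ≤ ‖x‖ := by
  have h := norm_star_mul_mul_le (1 : unitary A) r x
  simpa using h

theorem A5_star_mul (r : unitary A) (x : A) : ‖star (r : A) * x‖ ≤ ‖x‖ := by
  have h := norm_star_mul_mul_le r (1 : unitary A) x
  simpa using h

theorem A5_add {C D : ℝ} {f g : A → A → ℂ} (hf : Bil C f) (hg : Bil D g) :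
    Bil (C + D) (fun x c => f x c + g x c) where
  add₁ a a' b := by rw [hf.add₁, hg.add₁]; ring
  add₂ a b b' := by rw [hf.add₂, hg.add₂]; ring
  smul₁ z a b := by rw [hf.smul₁, hg.smul₁]; ring
  smul₂ z a b := by rw [hf.smul₂, hg.smul₂]; ring
  bd a b := by
    have h1 := hf.bd a b
    have h2 := hg.bd a b
    have h3 := norm_add_le (f a b) (g a b)
    have e : (C + D) * ‖a‖ * ‖b‖ = C * ‖a‖ * ‖b‖ + D * ‖a‖ * ‖b‖ := by ring
    rw [e]
    linarith

theorem A5_sub {C D : ℝ} {f g : A → A → ℂ} (hf : Bil C f) (hg : Bil D g) :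
    Bil (C + D) (fun x c => f x c - g x c) where
  add₁ a a' b := by rw [hf.add₁, hg.add₁]; ring
  add₂ a b b' := by rw [hf.add₂, hg.add₂]; ring
  smul₁ z a b := by rw [hf.smul₁, hg.smul₁]; ring
  smul₂ z a b := by rw [hf.smul₂, hg.smul₂]; ring
  bd a b := by
    have h1 := hf.bd a b
    have h2 := hg.bd a b
    have h3 := norm_sub_le (f a b) (g a b)
    have e : (C + D) * ‖a‖ * ‖b‖ = C * ‖a‖ * ‖b‖ + D * ‖a‖ * ‖b‖ := by ring
    rw [e]
    linarith

theorem A5_le2 {C : ℝ} (hC : 0 ≤ C) {a b a' b' : ℝ} (ha : 0 ≤ a) (hb : 0 ≤ b) (h1 : a ≤ a')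
    (h2 : b ≤ b') : C * a * b ≤ C * a' * b' :=
  mul_le_mul (mul_le_mul_of_nonneg_left h1 hC) h2 hb (mul_nonneg hC (ha.trans h1))

theorem A5_le3 {C : ℝ} (hC : 0 ≤ C) {a b c a' b' c' : ℝ} (ha : 0 ≤ a) (hb : 0 ≤ b) (hc : 0 ≤ c)
    (h1 : a ≤ a') (h2 : b ≤ b') (h3 : c ≤ c') : C * a * b * c ≤ C * a' * b' * c' :=
  mul_le_mul (A5_le2 hC ha hb h1 h2) h3 hc
    (mul_nonneg (mul_nonneg hC (ha.trans h1)) (hb.trans h2))

theorem A5_bilA {C : ℝ} (hC : 0 ≤ C) {f : A → A → ℂ} (hf : Bil C f) (r : unitary A) :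
    Bil C (fun x c => f (x * (r : A)) (star (r : A) * c)) where
  add₁ a a' b := by rw [add_mul, hf.add₁]
  add₂ a b b' := by rw [mul_add, hf.add₂]
  smul₁ z a b := by rw [smul_mul_assoc, hf.smul₁]
  smul₂ z a b := by rw [mul_smul_comm, hf.smul₂]
  bd a b := (hf.bd _ _).trans
    (A5_le2 hC (norm_nonneg _) (norm_nonneg _) (A5_mul_r r a) (A5_star_mul r b))

theorem A5_bilB {C : ℝ} (hC : 0 ≤ C) {f : A → A → ℂ} (hf : Bil C f) (r : unitary A) :
    Bil C (fun x c => f (star (r : A) * x) (c * (r : A))) where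
  add₁ a a' b := by rw [mul_add, hf.add₁]
  add₂ a b b' := by rw [add_mul, hf.add₂]
  smul₁ z a b := by rw [mul_smul_comm, hf.smul₁]
  smul₂ z a b := by rw [smul_mul_assoc, hf.smul₂]
  bd a b := (hf.bd _ _).trans
    (A5_le2 hC (norm_nonneg _) (norm_nonneg _) (A5_star_mul r a) (A5_mul_r r b))

theorem A5_bil11 {C : ℝ} (hC : 0 ≤ C) {f : A → A → A → ℂ} (hf : Tri C f) :
    Bil C (fun x c => f 1 1 (x * c)) where
  add₁ a a' b := by rw [add_mul, hf.add₃]
  add₂ a b b' := by rw [mul_add, hf.add₃]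
  smul₁ z a b := by rw [smul_mul_assoc, hf.smul₃]
  smul₂ z a b := by rw [mul_smul_comm, hf.smul₃]
  bd a b := by
    refine (hf.bd _ _ _).trans ?_
    have h := A5_le3 hC (norm_nonneg (1 : A)) (norm_nonneg (1 : A)) (norm_nonneg (a * b))
      A5_one_le A5_one_le (norm_mul_le a b)
    refine h.trans (le_of_eq ?_)
    ring

theorem A5_bil1 {C : ℝ} (hC : 0 ≤ C) {f : A → A → ℂ} (hf : Bil C f) :
    Bil C (fun x c => f 1 (x * c)) where
  add₁ a a' b := by rw [add_mul, hf.add₂]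
  add₂ a b b' := by rw [mul_add, hf.add₂]
  smul₁ z a b := by rw [smul_mul_assoc, hf.smul₂]
  smul₂ z a b := by rw [mul_smul_comm, hf.smul₂]
  bd a b := by
    refine (hf.bd _ _).trans ?_
    have h := A5_le2 hC (norm_nonneg (1 : A)) (norm_nonneg (a * b)) A5_one_le (norm_mul_le a b)
    refine h.trans (le_of_eq ?_)
    ring

theorem A5_bilC {C : ℝ} (hC : 0 ≤ C) {f : A → A → A → ℂ} (hf : Tri C f) (r : unitary A) :
    Bil C (fun x c => f x (r : A) (star (r : A) * c)) where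
  add₁ a a' b := by rw [hf.add₁]
  add₂ a b b' := by rw [mul_add, hf.add₃]
  smul₁ z a b := by rw [hf.smul₁]
  smul₂ z a b := by rw [mul_smul_comm, hf.smul₃]
  bd a b := by
    refine (hf.bd _ _ _).trans ?_
    have h := A5_le3 hC (norm_nonneg a) (norm_nonneg (r : A)) (norm_nonneg (star (r : A) * b))
      le_rfl (norm_unitary_le r) (A5_star_mul r b)
    refine h.trans (le_of_eq ?_)
    ring

theorem A5_bilD {C : ℝ} (hC : 0 ≤ C) {f : A → A → A → ℂ} (hf : Tri C f) (r : unitary A) :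
    Bil C (fun x c => f (r : A) (star (r : A) * x) c) where
  add₁ a a' b := by rw [mul_add, hf.add₂]
  add₂ a b b' := by rw [hf.add₃]
  smul₁ z a b := by rw [mul_smul_comm, hf.smul₂]
  smul₂ z a b := by rw [hf.smul₃]
  bd a b := by
    refine (hf.bd _ _ _).trans ?_
    have h := A5_le3 hC (norm_nonneg (r : A)) (norm_nonneg (star (r : A) * a)) (norm_nonneg b)
      (norm_unitary_le r) (A5_star_mul r a) le_rfl
    refine h.trans (le_of_eq ?_)
    ring

/-- the transfer step -/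
theorem transfer {I : Type*} [Fintype I] [Nonempty I] {C : ℝ} (hC : 0 ≤ C) {Φ : A → A → A → ℂ}
    (h : Tri C Φ) (hc : Coc Φ)
    {E : (unitary A → ℂ) →ₗ[ℂ] ℂ} (hE : IsMean E) (u : I → unitary A) (r : unitary A) (n : ℕ)
    (hn : 1 ≤ n) :
    ∃ Aε Bε : A → A → ℂ, Bil (7 * C) Aε ∧ Bil (4 * C) Bε ∧ ∀ (i : I) (y : A),
      Φ (u i : A) (star (u i : A)) y - Aε (u i : A) (star (u i : A) * y)
          - Bε (star (u i : A)) (y * (u i : A))
        = Dt (pr E Φ) (fun i => u i * r) n y i + pr E Φ 1 1 y := by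
  have hφ : Tri C (pr E Φ) := pr_tri hC h hE
  have hφc : Coc (pr E Φ) := pr_coc hc hE
  have hS : Bil (2 * C) (s0 E Φ) := s0_bil hC h hE
  have hAt := At_bil hC hφ (fun i => u i * r) n hn
  have hBt := Bt_bil hC hφ (fun i => u i * r) n hn
  have h2C : 0 ≤ 2 * C := by linarith
  have hA := A5_add (A5_sub (A5_add (A5_sub (A5_bilA hC hAt r) (A5_bil11 hC hφ))
    (A5_bilC hC hφ r)) (A5_bil1 h2C hS)) hS
  have hB := A5_add (A5_sub (A5_bilB hC hBt r) (A5_bilD hC hφ r)) hS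
  have eA : C + C + C + 2 * C + 2 * C = 7 * C := by ring
  have eB : C + C + 2 * C = 4 * C := by ring
  rw [eA] at hA
  rw [eB] at hB
  refine ⟨_, _, hA, hB, ?_⟩
  intro i y
  have hu : (u i : A) * star (u i : A) = 1 := Unitary.coe_mul_star_self (u i)
  have hr : (r : A) * star (r : A) = 1 := Unitary.coe_mul_star_self r
  have hcoc := hφc (u i : A) (r : A) (star (r : A) * star (u i : A)) y
  have e1 : (r : A) * (star (r : A) * star (u i : A)) = star (u i : A) := by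
    rw [← mul_assoc, hr, one_mul]
  have e2 : star (r : A) * star (u i : A) * y = star (r : A) * (star (u i : A) * y) :=
    mul_assoc _ _ _
  rw [e1, e2] at hcoc
  have hpr := pr_eq hc hE (u i : A) (star (u i : A)) y
  rw [cob, hu] at hpr
  have e3 : (u i : A) * (star (u i : A) * y) = y := by rw [← mul_assoc, hu, one_mul]
  have e4 : ((u i * r : unitary A) : A) = (u i : A) * (r : A) := rfl
  have e5 : star ((u i * r : unitary A) : A) = star (r : A) * star (u i : A) := by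
    rw [e4, star_mul]
  have e6 : star (r : A) * star (u i : A) * y = star (r : A) * (star (u i : A) * y) :=
    mul_assoc _ _ _
  have e7 : y * ((u i : A) * (r : A)) = y * (u i : A) * (r : A) := (mul_assoc _ _ _).symm
  simp only [Dt]
  rw [e5, e4, e6, e7, e3, hpr]
  linear_combination hcoc

end SimpCoh
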