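import Pool.Agent.Lib.MP_263cac_an.A5
import Pool.Agent.Lib.MP_263cac_an.A4c
import Pool.Agent.Lib.MP_263cac_an.A4d
import Pool.Agent.Lib.MP_263cac_an.A4e

/-!
# A5b: `eps_identity` (see the header of A5 for the proof)
-/

set_option autoImplicit false

namespace SimpCoh

variable {A : Type*} [CStarAlgebra A]

private lemma A5b_zero {C : ℝ} (hC : 0 ≤ C) : Bil C (fun _ _ : A => (0 : ℂ)) := by
  refine ⟨fun _ _ _ => by simp, fun _ _ _ => by simp, fun _ _ _ => by simp,
    fun _ _ _ => by simp, fun a b => ?_⟩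
  rw [norm_zero]
  positivity

theorem eps_identity (τ : A → ℂ) (hW : WalkProp τ) {C : ℝ} (hC : 0 ≤ C) {Φ : A → A → A → ℂ}
    (h : Tri C Φ) (hc : Coc Φ) (F : Finset (unitary A)) (Y : Finset A)
    (hY : ∀ y ∈ Y, τ y = 0 ∧ ‖y‖ ≤ 1) (ε : ℝ) (hε : 0 < ε) :
    ∃ Aε Bε : A → A → ℂ, Bil (7 * C) Aε ∧ Bil (4 * C) Bε ∧
      (∀ u ∈ F, ∀ y ∈ Y, ‖Φ (u : A) (star (u : A)) y - Aε (u : A) (star (u : A) * y)
          - Bε (star (u : A)) (y * (u : A))‖ ≤ ε) ∧
      (∀ u ∈ F, ‖Φ (u : A) (star (u : A)) 1 - Aε (u : A) (star (u : A) * 1)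
          - Bε (star (u : A)) (1 * (u : A))‖ ≤ ε) := by
  rcases F.eq_empty_or_nonempty with hF | hF
  · subst hF
    exact ⟨fun _ _ => 0, fun _ _ => 0, A5b_zero (by positivity), A5b_zero (by positivity),
      by simp, by simp⟩
  have hne : Nonempty {u // u ∈ F} := ⟨⟨hF.choose, hF.choose_spec⟩⟩
  have hf1 : (1 : ℝ) ≤ (Fintype.card {u // u ∈ F} : ℝ) := by
    exact_mod_cast Fintype.card_pos
  obtain ⟨f, hfdef⟩ : ∃ f : ℝ, f = (Fintype.card {u // u ∈ F} : ℝ) := ⟨_, rfl⟩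
  rw [← hfdef] at hf1
  have hf0 : 0 < f := by linarith
  have hC1 : 0 < C + 1 := by linarith
  obtain ⟨n, hnN, r, hr⟩ := hW F Y hY (ε / (4 * f * (C + 1))) (by positivity)
    (max 1 ⌈(4 * f * (C + 1) / ε) ^ 2⌉₊)
  have hn1 : 1 ≤ n := le_trans (le_max_left _ _) hnN
  have hn2 : (4 * f * (C + 1) / ε) ^ 2 ≤ n := by
    refine (Nat.le_ceil _).trans ?_
    exact_mod_cast le_trans (le_max_right _ _) hnN
  have hn0 : (0 : ℝ) < n := by exact_mod_cast hn1
  obtain ⟨η, hηdef⟩ : ∃ η : ℝ, η = ε / (2 * (C + 1) * (f * n + 3)) := ⟨_, rfl⟩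
  have hη : 0 < η := by rw [hηdef]; positivity
  obtain ⟨E, hE, hst⟩ := exists_mean (fun i : {u // u ∈ F} => (i : unitary A) * r) η hη
  have htri := pr_tri hC h hE
  have hcoc := pr_coc hc hE
  have hharm := pr_harm (fun i : {u // u ∈ F} => (i : unitary A) * r) hC h hE η hη.le hst
  obtain ⟨Aε, Bε, hA, hB, hAB⟩ := transfer hC h hc hE
    (fun i : {u // u ∈ F} => (i : unitary A)) r n hn1
  have hηC : 0 ≤ η * C := by positivity
  -- the error terms
  have herr : f * (n * (η * C)) + 3 * (η * C) ≤ ε / 2 := by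
    have e1 : f * (n * (η * C)) + 3 * (η * C) = (η * (f * n + 3)) * C := by ring
    have e2 : η * (f * n + 3) = ε / (2 * (C + 1)) := by
      rw [hηdef]
      have : f * n + 3 ≠ 0 := by positivity
      field_simp
    rw [e1, e2, div_mul_eq_mul_div, div_le_div_iff₀ (by positivity) (by norm_num)]
    nlinarith
  have hbig : ∀ (y : A), ‖y‖ ≤ 1 → ∀ T : ℝ, f * (T / n) ≤ ε / 2 →
      (∀ g : {u // u ∈ F} → ℂ, (∀ i, ‖g i‖ ≤ 1) → ∑ i, g i = 0 →
        ‖Pn (fun i : {u // u ∈ F} => (i : unitary A) * r) g y (ftest (pr E Φ)) n (1, 0)‖ ≤ T) →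
      ∀ i : {u // u ∈ F}, ‖Φ (i : A) (star (i : A)) y - Aε (i : A) (star (i : A) * y)
          - Bε (star (i : A)) (y * (i : A))‖ ≤ ε := by
    intro y hy T hT1 hT2 i
    have h1 := chain_main hC hηC htri hcoc (fun i : {u // u ∈ F} => (i : unitary A) * r)
      hharm n hn1 y hy T hT2 i
    rw [← hAB i y, ← hfdef, mul_add] at h1
    linarith
  refine ⟨Aε, Bε, hA, hB, ?_, ?_⟩
  · intro u hu y hy
    refine hbig y (hY y hy).2 (C * (ε / (4 * f * (C + 1)) * n)) ?_ ?_ ⟨u, hu⟩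
    · have e1 : f * (C * (ε / (4 * f * (C + 1)) * n) / n) = C * ε / (4 * (C + 1)) := by
        field_simp
      rw [e1, div_le_div_iff₀ (by positivity) (by norm_num)]
      nlinarith
    · intro g hg hg0
      refine Pn_bound_path hC htri (fun i : {u // u ∈ F} => (i : unitary A)) r g y n
        (ε / (4 * f * (C + 1)) * n) ?_
      intro s
      exact hr y hy (fun k => (s k : unitary A)) (fun j => (s j).2) (fun j => g (s j))
        (fun j => hg (s j))
  · intro u hu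
    have h1 : ‖(1 : A)‖ ≤ 1 := by
      rcases subsingleton_or_nontrivial A with hs | hs
      · rw [Subsingleton.elim (1 : A) 0, norm_zero]
        exact zero_le_one
      · exact CStarRing.norm_one.le
    refine hbig 1 h1 (C * Real.sqrt n) ?_ ?_ ⟨u, hu⟩
    · have hs0 : 0 < Real.sqrt n := Real.sqrt_pos.2 hn0
      have hs1 : 4 * f * (C + 1) / ε ≤ Real.sqrt n := Real.le_sqrt_of_sq_le hn2
      have hs2 : Real.sqrt n * Real.sqrt n = n := Real.mul_self_sqrt hn0.le
      have e1 : f * (C * Real.sqrt n / n) = f * C / Real.sqrt n := by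
        rw [eq_div_iff hs0.ne']
        have e2 : f * (C * Real.sqrt n / n) * Real.sqrt n =
            f * C * (Real.sqrt n * Real.sqrt n) / n := by ring
        rw [e2, hs2]
        field_simp
      rw [e1, div_le_iff₀ hs0]
      rw [div_le_iff₀ hε] at hs1
      nlinarith
    · intro g hg hg0
      exact Pn_bound_one hC htri (fun i : {u // u ∈ F} => (i : unitary A) * r) g hg hg0 n hn1

end SimpCoh
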