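import Pool.Agent.Lib.MP_263cac_an.A5b

/-!
# A6: the exact identity by an ultralimit

Index set `ι = Finset (unitary A) × Finset A × ℕ` (directed), `𝒰` an ultrafilter finer than `atTop`.  For `(F, Y, k)` take the forms of
`eps_identity` for `F`, `{y ∈ Y | τ y = 0 ∧ ‖y‖ ≤ 1}` and `ε = 1/(k+1)`; bounded functions `ι → ℂ` converge along `𝒰`; the limits
`Af x c = lim Aε x c`, `Bf x c = lim Bε x c` are bilinear with the same bounds and satisfy the identity for all unitaries `u` and all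
`y` with `τ y = 0, ‖y‖ ≤ 1` and `y = 1`, hence for all `y = τ(y) 1 + y°` (scale `y°`).
-/

set_option autoImplicit false

namespace SimpCoh

variable {A : Type*} [CStarAlgebra A]

open Filter Topology

private theorem a6_lim {ι : Type*} (U : Ultrafilter ι) (f : ι → ℂ) (M : ℝ) (hf : ∀ i, ‖f i‖ ≤ M) :
    ∃ a : ℂ, ‖a‖ ≤ M ∧ Tendsto f (U : Filter ι) (𝓝 a) := by
  obtain ⟨a, ha, hle⟩ := (isCompact_closedBall (0 : ℂ) M).ultrafilter_le_nhds (U.map f) (by
    rw [le_principal_iff, Ultrafilter.coe_map]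
    refine Filter.mem_map.mpr (Filter.univ_mem' fun i => ?_)
    show f i ∈ Metric.closedBall (0 : ℂ) M
    rw [mem_closedBall_zero_iff]
    exact hf i)
  exact ⟨a, by simpa using ha, hle⟩

private theorem a6_bil {ι : Type*} (U : Ultrafilter ι) (K : ℝ) (S : ι → A → A → ℂ)
    (hS : ∀ i, Bil K (S i)) :
    ∃ T : A → A → ℂ, Bil K T ∧ ∀ x c, Tendsto (fun i => S i x c) (U : Filter ι) (𝓝 (T x c)) := by
  have h : ∀ x c, ∃ a : ℂ, ‖a‖ ≤ K * ‖x‖ * ‖c‖ ∧
      Tendsto (fun i => S i x c) (U : Filter ι) (𝓝 a) :=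
    fun x c => a6_lim U (fun i => S i x c) _ (fun i => (hS i).bd x c)
  choose T hT1 hT2 using h
  refine ⟨T, ⟨?_, ?_, ?_, ?_, hT1⟩, hT2⟩
  · intro a a' b
    refine tendsto_nhds_unique (hT2 (a + a') b) ?_
    refine ((hT2 a b).add (hT2 a' b)).congr fun i => ?_
    rw [(hS i).add₁]
  · intro a b b'
    refine tendsto_nhds_unique (hT2 a (b + b')) ?_
    refine ((hT2 a b).add (hT2 a b')).congr fun i => ?_
    rw [(hS i).add₂]
  · intro z a b
    refine tendsto_nhds_unique (hT2 (z • a) b) ?_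
    refine ((hT2 a b).const_mul z).congr fun i => ?_
    rw [(hS i).smul₁]
  · intro z a b
    refine tendsto_nhds_unique (hT2 a (z • b)) ?_
    refine ((hT2 a b).const_mul z).congr fun i => ?_
    rw [(hS i).smul₂]

theorem exact_identity (τ : A →ₗ[ℂ] ℂ) (hτ : τ 1 = 1) (hW : WalkProp (fun x => τ x)) {C : ℝ}
    (hC : 0 ≤ C) {Φ : A → A → A → ℂ} (h : Tri C Φ) (hc : Coc Φ) :
    ∃ Af Bf : A → A → ℂ, Bil (7 * C) Af ∧ Bil (4 * C) Bf ∧
      ∀ (u : unitary A) (y : A), Φ (u : A) (star (u : A)) y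
        = Af (u : A) (star (u : A) * y) + Bf (star (u : A)) (y * (u : A)) := by
  classical
  have hex : ∀ i : Finset (unitary A) × Finset A × ℕ, ∃ Aε Bε : A → A → ℂ,
      Bil (7 * C) Aε ∧ Bil (4 * C) Bε ∧
      (∀ u ∈ i.1, ∀ y ∈ i.2.1.filter (fun y => τ y = 0 ∧ ‖y‖ ≤ 1),
        ‖Φ (u : A) (star (u : A)) y - Aε (u : A) (star (u : A) * y)
          - Bε (star (u : A)) (y * (u : A))‖ ≤ 1 / ((i.2.2 : ℝ) + 1)) ∧
      (∀ u ∈ i.1, ‖Φ (u : A) (star (u : A)) 1 - Aε (u : A) (star (u : A) * 1)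
          - Bε (star (u : A)) (1 * (u : A))‖ ≤ 1 / ((i.2.2 : ℝ) + 1)) := by
    intro i
    refine eps_identity (fun x => τ x) hW hC h hc i.1
      (i.2.1.filter (fun y => τ y = 0 ∧ ‖y‖ ≤ 1)) ?_ _ (by positivity)
    intro y hy
    exact (Finset.mem_filter.mp hy).2
  choose Aε Bε hA hB hAB hAB1 using hex
  let U : Ultrafilter (Finset (unitary A) × Finset A × ℕ) := Ultrafilter.of atTop
  have hU : (U : Filter (Finset (unitary A) × Finset A × ℕ)) ≤ atTop := Ultrafilter.of_le atTop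
  obtain ⟨Af, hAf, hAt⟩ := a6_bil U (7 * C) Aε hA
  obtain ⟨Bf, hBf, hBt⟩ := a6_bil U (4 * C) Bε hB
  refine ⟨Af, Bf, hAf, hBf, ?_⟩
  -- a criterion for the vanishing of the limit
  have key : ∀ (u : unitary A) (y : A),
      (∀ k : ℕ, ∀ᶠ i in (U : Filter (Finset (unitary A) × Finset A × ℕ)),
        ‖Φ (u : A) (star (u : A)) y - Aε i (u : A) (star (u : A) * y)
          - Bε i (star (u : A)) (y * (u : A))‖ ≤ 1 / ((k : ℝ) + 1)) →
      Φ (u : A) (star (u : A)) y - Af (u : A) (star (u : A) * y)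
          - Bf (star (u : A)) (y * (u : A)) = 0 := by
    intro u y hk
    have ht : Tendsto (fun i => ‖Φ (u : A) (star (u : A)) y - Aε i (u : A) (star (u : A) * y)
          - Bε i (star (u : A)) (y * (u : A))‖) (U : Filter _)
        (𝓝 ‖Φ (u : A) (star (u : A)) y - Af (u : A) (star (u : A) * y)
          - Bf (star (u : A)) (y * (u : A))‖) :=
      ((tendsto_const_nhds.sub (hAt (u : A) (star (u : A) * y))).sub
        (hBt (star (u : A)) (y * (u : A)))).norm
    have hle : ∀ k : ℕ, ‖Φ (u : A) (star (u : A)) y - Af (u : A) (star (u : A) * y)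
          - Bf (star (u : A)) (y * (u : A))‖ ≤ 1 / ((k : ℝ) + 1) :=
      fun k => le_of_tendsto ht (hk k)
    have h0 : ‖Φ (u : A) (star (u : A)) y - Af (u : A) (star (u : A) * y)
          - Bf (star (u : A)) (y * (u : A))‖ ≤ 0 :=
      ge_of_tendsto' tendsto_one_div_add_atTop_nhds_zero_nat hle
    exact norm_le_zero_iff.mp h0
  have hmono : ∀ (i : Finset (unitary A) × Finset A × ℕ) (k : ℕ), k ≤ i.2.2 →
      1 / ((i.2.2 : ℝ) + 1) ≤ 1 / ((k : ℝ) + 1) := by
    intro i k hk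
    have h1 : (k : ℝ) ≤ (i.2.2 : ℝ) := by exact_mod_cast hk
    exact one_div_le_one_div_of_le (by positivity) (by linarith)
  have key0 : ∀ (u : unitary A) (y : A), τ y = 0 → ‖y‖ ≤ 1 →
      Φ (u : A) (star (u : A)) y - Af (u : A) (star (u : A) * y)
          - Bf (star (u : A)) (y * (u : A)) = 0 := by
    intro u y hy1 hy2
    refine key u y fun k => ?_
    have hmem : {i : Finset (unitary A) × Finset A × ℕ | ({u}, {y}, k) ≤ i} ∈
        (U : Filter (Finset (unitary A) × Finset A × ℕ)) := hU (mem_atTop _)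
    refine Filter.mem_of_superset hmem ?_
    · rintro i ⟨hi1, hi2, hi3⟩
      refine (hAB i u (hi1 (Finset.mem_singleton_self u)) y ?_).trans (hmono i k hi3)
      exact Finset.mem_filter.mpr ⟨hi2 (Finset.mem_singleton_self y), hy1, hy2⟩
  have key1 : ∀ (u : unitary A),
      Φ (u : A) (star (u : A)) 1 - Af (u : A) (star (u : A) * 1)
          - Bf (star (u : A)) (1 * (u : A)) = 0 := by
    intro u
    refine key u 1 fun k => ?_
    have hmem : {i : Finset (unitary A) × Finset A × ℕ | ({u}, ∅, k) ≤ i} ∈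
        (U : Filter (Finset (unitary A) × Finset A × ℕ)) := hU (mem_atTop _)
    refine Filter.mem_of_superset hmem ?_
    · rintro i ⟨hi1, _, hi3⟩
      exact (hAB1 i u (hi1 (Finset.mem_singleton_self u))).trans (hmono i k hi3)
  intro u y
  -- linearity
  let L : A → ℂ := fun y => Φ (u : A) (star (u : A)) y - Af (u : A) (star (u : A) * y)
          - Bf (star (u : A)) (y * (u : A))
  have hLadd : ∀ y y', L (y + y') = L y + L y' := by
    intro y y'
    simp only [L, h.add₃, mul_add, add_mul, hAf.add₂, hBf.add₂]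
    ring
  have hLsmul : ∀ (z : ℂ) y, L (z • y) = z * L y := by
    intro z y
    simp only [L, h.smul₃, mul_smul_comm, smul_mul_assoc, hAf.smul₂, hBf.smul₂]
    ring
  have hL0 : L y = 0 := by
    let y0 : A := y - τ y • (1 : A)
    have hy0 : τ y0 = 0 := by
      simp only [y0, map_sub, map_smul, hτ, smul_eq_mul, mul_one, sub_self]
    let t : ℝ := ‖y0‖ + 1
    have ht : 0 < t := by positivity
    have ht' : (t : ℂ) ≠ 0 := by exact_mod_cast ht.ne'
    let y1 : A := ((t : ℂ)⁻¹) • y0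
    have hy1 : τ y1 = 0 := by
      simp only [y1, map_smul, hy0, smul_zero]
    have hy1' : ‖y1‖ ≤ 1 := by
      have : ‖y1‖ = t⁻¹ * ‖y0‖ := by
        simp only [y1]
        rw [norm_smul, norm_inv, Complex.norm_real, Real.norm_of_nonneg ht.le]
      rw [this, inv_mul_le_iff₀ ht]
      simp only [t]
      linarith
    have hy : y = (t : ℂ) • y1 + τ y • (1 : A) := by
      simp only [y1, y0]
      rw [smul_smul, mul_inv_cancel₀ ht', one_smul, sub_add_cancel]
    have h1 : L y1 = 0 := key0 u y1 hy1 hy1'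
    have h2 : L 1 = 0 := key1 u
    calc L y = L ((t : ℂ) • y1 + τ y • (1 : A)) := congrArg L hy
      _ = (t : ℂ) * L y1 + τ y * L 1 := by rw [hLadd, hLsmul (t : ℂ) y1, hLsmul (τ y) 1]
      _ = 0 := by rw [h1, h2, mul_zero, mul_zero, add_zero]
  have h3 : Φ (u : A) (star (u : A)) y - Af (u : A) (star (u : A) * y)
          - Bf (star (u : A)) (y * (u : A)) = 0 := hL0
  linear_combination h3

end SimpCoh
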