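import Mathlib

/-!
# B1: the left regular representation and the reduced C*-algebra of a discrete group

`ell2 G = ℓ²(G)`, `(lam g f)(x) = f (g⁻¹ x)`, `(rho g f)(x) = f (x g)`, `ind S` = multiplication by the indicator of `S`,
`del x` = the unit vector at `x`.
-/

set_option autoImplicit false

open scoped ENNReal

namespace SimpCoh

variable {G : Type*}

/-- `ℓ²(G)` -/
noncomputable abbrev ell2 (G : Type*) := lp (fun _ : G => ℂ) 2

theorem B1_two : (0 : ℝ) < (2 : ℝ≥0∞).toReal := by norm_num

theorem B1_mem_comp (e : G ≃ G) (f : ell2 G) : Memℓp (fun x => f (e x)) 2 := by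
  have h := (memℓp_gen_iff B1_two).1 (lp.memℓp f)
  exact (memℓp_gen_iff B1_two).2
    ((e.summable_iff (f := fun x => ‖f x‖ ^ (2 : ℝ≥0∞).toReal)).2 h)

theorem B1_norm_comp (e : G ≃ G) (f : ell2 G) :
    ‖(⟨fun x => f (e x), B1_mem_comp e f⟩ : ell2 G)‖ = ‖f‖ := by
  rw [lp.norm_eq_tsum_rpow B1_two, lp.norm_eq_tsum_rpow B1_two]
  congr 1
  exact e.tsum_eq (fun x => ‖f x‖ ^ (2 : ℝ≥0∞).toReal)

theorem B1_le_ind (S : Set G) (f : ell2 G) (x : G) :
    ‖S.indicator (fun y => (f y : ℂ)) x‖ ≤ ‖f x‖ := by
  by_cases hx : x ∈ S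
  · rw [Set.indicator_of_mem hx]
  · rw [Set.indicator_of_notMem hx, norm_zero]
    exact norm_nonneg _

theorem B1_mem_ind (S : Set G) (f : ell2 G) :
    Memℓp (fun x => S.indicator (fun y => (f y : ℂ)) x) 2 := by
  have h := (memℓp_gen_iff B1_two).1 (lp.memℓp f)
  refine (memℓp_gen_iff B1_two).2 (Summable.of_nonneg_of_le (fun x => by positivity) (fun x => ?_) h)
  exact Real.rpow_le_rpow (norm_nonneg _) (B1_le_ind S f x) B1_two.le

theorem B1_norm_ind (S : Set G) (f : ell2 G) :
    ‖(⟨fun x => S.indicator (fun y => (f y : ℂ)) x, B1_mem_ind S f⟩ : ell2 G)‖ ≤ ‖f‖ := by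
  rw [lp.norm_eq_tsum_rpow B1_two, lp.norm_eq_tsum_rpow B1_two]
  have h := (memℓp_gen_iff B1_two).1 (lp.memℓp f)
  have h' := (memℓp_gen_iff B1_two).1 (B1_mem_ind S f)
  refine Real.rpow_le_rpow (tsum_nonneg fun x => by positivity) ?_ (by positivity)
  refine h'.tsum_le_tsum (fun x => ?_) h
  exact Real.rpow_le_rpow (norm_nonneg _) (B1_le_ind S f x) B1_two.le

/-- composition with a permutation, as a unitary operator of `ℓ²(G)`. -/
noncomputable def compE (e : G ≃ G) : ell2 G →L[ℂ] ell2 G :=
  LinearMap.mkContinuous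
    { toFun := fun f => ⟨fun x => f (e x), by exact B1_mem_comp e f⟩
      map_add' := by
        intro f g
        rfl
      map_smul' := by
        intro c f
        rfl } 1 (by
      intro f
      rw [one_mul]
      exact (B1_norm_comp e f).le)

theorem compE_apply (e : G ≃ G) (f : ell2 G) (x : G) : (compE e f) x = f (e x) := by
  rfl

/-- multiplication by the indicator function of `S`. -/
noncomputable def ind (S : Set G) : ell2 G →L[ℂ] ell2 G :=
  LinearMap.mkContinuous
    { toFun := fun f => ⟨fun x => S.indicator (fun y => (f y : ℂ)) x, by exact B1_mem_ind S f⟩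
      map_add' := by
        intro f g
        apply lp.ext
        funext x
        show S.indicator (fun y => ((f + g) y : ℂ)) x =
          S.indicator (fun y => (f y : ℂ)) x + S.indicator (fun y => (g y : ℂ)) x
        by_cases hx : x ∈ S
        · simp only [Set.indicator_of_mem hx, lp.coeFn_add, Pi.add_apply]
        · simp only [Set.indicator_of_notMem hx, add_zero]
      map_smul' := by
        intro c f
        apply lp.ext
        funext x
        show S.indicator (fun y => ((c • f) y : ℂ)) x = c • S.indicator (fun y => (f y : ℂ)) x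
        by_cases hx : x ∈ S
        · simp only [Set.indicator_of_mem hx, lp.coeFn_smul, Pi.smul_apply]
        · simp only [Set.indicator_of_notMem hx, smul_zero] } 1 (by
      intro f
      rw [one_mul]
      exact B1_norm_ind S f)

theorem ind_apply (S : Set G) (f : ell2 G) (x : G) : (ind S f) x = S.indicator (fun y => f y) x := by
  rfl

theorem ind_mul (S T : Set G) : ind S * ind T = ind (S ∩ T) := by
  refine ContinuousLinearMap.ext fun f => lp.ext (funext fun x => ?_)
  show (ind S (ind T f)) x = (ind (S ∩ T) f) x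
  rw [ind_apply, ind_apply]
  by_cases hS : x ∈ S
  · rw [Set.indicator_of_mem hS, ind_apply]
    by_cases hT : x ∈ T
    · rw [Set.indicator_of_mem hT, Set.indicator_of_mem (Set.mem_inter hS hT)]
    · rw [Set.indicator_of_notMem hT, Set.indicator_of_notMem (fun h => hT h.2)]
  · rw [Set.indicator_of_notMem hS, Set.indicator_of_notMem (fun h => hS h.1)]

theorem ind_selfAdjoint (S : Set G) : IsSelfAdjoint (ind S) := by
  rw [ContinuousLinearMap.isSelfAdjoint_iff_isSymmetric]
  intro f g
  show inner ℂ (ind S f) g = inner ℂ f (ind S g)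
  rw [lp.inner_eq_tsum, lp.inner_eq_tsum]
  refine tsum_congr fun x => ?_
  rw [ind_apply, ind_apply]
  by_cases hS : x ∈ S
  · rw [Set.indicator_of_mem hS, Set.indicator_of_mem hS]
  · rw [Set.indicator_of_notMem hS, Set.indicator_of_notMem hS, inner_zero_left, inner_zero_right]

theorem star_compE (e : G ≃ G) : star (compE e) = compE e.symm := by
  rw [ContinuousLinearMap.star_eq_adjoint]
  symm
  rw [ContinuousLinearMap.eq_adjoint_iff]
  intro f g
  rw [lp.inner_eq_tsum, lp.inner_eq_tsum]
  rw [← e.tsum_eq (fun x => inner ℂ ((compE e.symm f) x) (g x))]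
  refine tsum_congr fun x => ?_
  rw [compE_apply, compE_apply, Equiv.symm_apply_apply]

theorem compE_mul (e e' : G ≃ G) : compE e * compE e' = compE (e.trans e') := by
  rfl

theorem compE_refl : compE (Equiv.refl G) = 1 := by
  rfl

/-- the unit vectors -/
noncomputable def del [DecidableEq G] (x : G) : ell2 G := lp.single 2 x (1 : ℂ)

theorem del_apply [DecidableEq G] (x y : G) : del x y = if y = x then 1 else 0 := by
  rw [del, lp.single_apply, Pi.single_apply]

theorem ext_del [DecidableEq G] (S T : ell2 G →L[ℂ] ell2 G) (h : ∀ x, S (del x) = T (del x)) :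
    S = T := by
  refine ContinuousLinearMap.ext fun f => ?_
  have h1 := lp.hasSum_single (p := 2) (by norm_num) f
  have h2 := h1.mapL S
  have h3 := h1.mapL T
  refine h2.unique ?_
  have h4 : (fun i => S (lp.single 2 i (f i))) = fun i => T (lp.single 2 i (f i)) := by
    funext i
    have h5 : lp.single 2 i (f i) = (f i : ℂ) • del i := by
      rw [del, ← lp.single_smul, smul_eq_mul, mul_one]
    rw [h5, map_smul, map_smul, h i]
  rw [h4]
  exact h3

variable [Group G]

/-- left regular representation `(λ(g) f)(x) = f(g⁻¹ x)`. -/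
noncomputable def lam (g : G) : ell2 G →L[ℂ] ell2 G := compE (Equiv.mulLeft g⁻¹)

/-- right translations `(ρ(g) f)(x) = f(x g)`. -/
noncomputable def rho (g : G) : ell2 G →L[ℂ] ell2 G := compE (Equiv.mulRight g)

theorem lam_apply (g : G) (f : ell2 G) (x : G) : (lam g f) x = f (g⁻¹ * x) := by
  rfl

theorem lam_mul (g h : G) : lam g * lam h = lam (g * h) := by
  refine ContinuousLinearMap.ext fun f => lp.ext (funext fun x => ?_)
  show (lam g (lam h f)) x = (lam (g * h) f) x
  rw [lam_apply, lam_apply, lam_apply, mul_inv_rev, mul_assoc]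

theorem lam_one : lam (1 : G) = 1 := by
  refine ContinuousLinearMap.ext fun f => lp.ext (funext fun x => ?_)
  show (lam (1 : G) f) x = f x
  rw [lam_apply, inv_one, one_mul]

theorem star_lam (g : G) : star (lam g) = lam g⁻¹ := by
  rw [lam, star_compE, lam]
  congr 1
  ext x
  rw [Equiv.mulLeft_symm]

theorem lam_unitary (g : G) : lam g ∈ unitary (ell2 G →L[ℂ] ell2 G) := by
  rw [Unitary.mem_iff, star_lam, lam_mul, lam_mul, inv_mul_cancel, mul_inv_cancel, lam_one]
  exact ⟨rfl, rfl⟩

theorem lam_del [DecidableEq G] (g x : G) : lam g (del x) = del (g * x) := by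
  refine lp.ext (funext fun y => ?_)
  rw [lam_apply, del_apply, del_apply]
  simp only [inv_mul_eq_iff_eq_mul]

theorem rho_del [DecidableEq G] (g x : G) : rho g (del x) = del (x * g⁻¹) := by
  refine lp.ext (funext fun y => ?_)
  show del x (y * g) = del (x * g⁻¹) y
  rw [del_apply, del_apply]
  simp only [eq_mul_inv_iff_mul_eq]

theorem rho_lam_comm (g h : G) : rho g * lam h = lam h * rho g := by
  refine ContinuousLinearMap.ext fun f => lp.ext (funext fun x => ?_)
  show f (h⁻¹ * (x * g)) = f (h⁻¹ * x * g)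
  rw [mul_assoc]

/-- The reduced group C*-algebra `C*_r(G) ⊆ B(ℓ²(G))`: the norm closure of the *-algebra generated by `λ(G)`. -/
noncomputable def redCstar (G : Type*) [Group G] : StarSubalgebra ℂ (ell2 G →L[ℂ] ell2 G) :=
  (StarAlgebra.adjoin ℂ (Set.range (lam (G := G)))).topologicalClosure

instance instIsClosedRed (G : Type*) [Group G] : IsClosed (redCstar G : Set (ell2 G →L[ℂ] ell2 G)) :=
  StarSubalgebra.isClosed_topologicalClosure _

end SimpCoh
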