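import Pool.Agent.Lib.MP_263cac_an.B1

/-!
# B1b: `C*_r(G)` is the norm closure of the linear span of `λ(G)`

`Set.range lam` is a submonoid closed under `star`, so its linear span is a star subalgebra (`StarAlgebra.adjoin` = span), and
`StarSubalgebra.topologicalClosure_coe`.
-/

set_option autoImplicit false

namespace SimpCoh

theorem redCstar_eq_closure_span (G : Type*) [Group G] :
    (redCstar G : Set (ell2 G →L[ℂ] ell2 G))
      = closure ((Submodule.span ℂ (Set.range (lam (G := G))) : Submodule ℂ _) : Set _) := by
  have hstar : star (Set.range (lam (G := G))) = Set.range (lam (G := G)) := by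
    ext T
    constructor
    · intro hT
      obtain ⟨g, hg⟩ := Set.mem_star.1 hT
      refine ⟨g⁻¹, ?_⟩
      rw [← star_lam, hg, star_star]
    · rintro ⟨g, rfl⟩
      refine Set.mem_star.2 ⟨g⁻¹, ?_⟩
      rw [star_lam]
  have hspan : ((StarAlgebra.adjoin ℂ (Set.range (lam (G := G)))) : Set (ell2 G →L[ℂ] ell2 G))
      = ((Submodule.span ℂ (Set.range (lam (G := G))) : Submodule ℂ _) : Set _) := by
    let M : Submonoid (ell2 G →L[ℂ] ell2 G) :=
      { carrier := Set.range (lam (G := G))
        mul_mem' := by
          rintro _ _ ⟨g, rfl⟩ ⟨h, rfl⟩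
          exact ⟨g * h, (lam_mul g h).symm⟩
        one_mem' := ⟨1, lam_one⟩ }
    have h1 : (StarAlgebra.adjoin ℂ (Set.range (lam (G := G)))).toSubalgebra =
        Algebra.adjoin ℂ (Set.range (lam (G := G))) := by
      rw [StarAlgebra.adjoin_toSubalgebra, hstar, Set.union_self]
    have h2 : Subalgebra.toSubmodule (Algebra.adjoin ℂ (Set.range (lam (G := G)))) =
        Submodule.span ℂ (Set.range (lam (G := G))) := by
      rw [Algebra.adjoin_eq_span]
      have h3 : Submonoid.closure (Set.range (lam (G := G))) = M := by
        have : (Set.range (lam (G := G))) = (M : Set (ell2 G →L[ℂ] ell2 G)) := rfl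
        rw [this, Submonoid.closure_eq]
      rw [h3]
      rfl
    rw [← StarSubalgebra.coe_toSubalgebra, h1, ← Subalgebra.coe_toSubmodule, h2]
  rw [redCstar, StarSubalgebra.topologicalClosure_coe, hspan]

end SimpCoh
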