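import Pool.Agent.Lib.MP_263cac_an.B1b

/-!
# B2: the canonical trace of `C*_r(G)`

`tr T = (T δ₁)(1)`.  `tr (λ(g) λ(h)) = [gh = 1] = tr (λ(h) λ(g))`, so `tr` is a trace by `redCstar_eq_closure_span`, bilinearity and
continuity.  Faithful: `tr (T* T) = ⟪T δ₁, T δ₁⟫ = ‖T δ₁‖²`, and `T` commutes with all `ρ(g)` (closure of `rho_lam_comm`), so
`T δ_x = T ρ(x⁻¹) δ₁ = ρ(x⁻¹) T δ₁ = 0`.
-/

set_option autoImplicit false

namespace SimpCoh

variable {G : Type*} [Group G]

open Classical in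
/-- evaluation of the matrix coefficient at `1`, on all operators -/
noncomputable def B2_E (G : Type*) [Group G] : (ell2 G →L[ℂ] ell2 G) →L[ℂ] ℂ :=
  (innerSL ℂ (del (1 : G))).comp (ContinuousLinearMap.apply ℂ (ell2 G) (del (1 : G)))

open Classical in
theorem B2_E_apply (T : ell2 G →L[ℂ] ell2 G) : B2_E G T = (T (del 1)) 1 := by
  show inner ℂ (del (1 : G)) (T (del (1 : G))) = (T (del 1)) 1
  unfold del
  rw [lp.inner_single_left]
  simp

open Classical in
/-- the canonical trace -/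
noncomputable def tr (G : Type*) [Group G] : redCstar G →ₗ[ℂ] ℂ where
  toFun T := ((T : ell2 G →L[ℂ] ell2 G) (del 1)) 1
  map_add' := by
    intro S T
    rw [← B2_E_apply, ← B2_E_apply, ← B2_E_apply, ← map_add]
    rfl
  map_smul' := by
    intro c T
    rw [← B2_E_apply, ← B2_E_apply, RingHom.id_apply, ← map_smul]
    rfl

theorem B2_tr_eq (T : redCstar G) : tr G T = B2_E G (T : ell2 G →L[ℂ] ell2 G) := by
  rw [B2_E_apply]
  rfl

theorem tr_one : tr G 1 = 1 := by
  classical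
  show ((((1 : redCstar G) : ell2 G →L[ℂ] ell2 G)) (del 1)) 1 = 1
  rw [OneMemClass.coe_one, one_apply_eq_self, del_apply, if_pos rfl]

omit [Group G] in
theorem B2_norm_del [DecidableEq G] (x : G) : ‖(del x : ell2 G)‖ = 1 := by
  unfold del
  rw [lp.norm_single (by norm_num)]
  exact norm_one

theorem tr_bd (T : redCstar G) : ‖tr G T‖ ≤ ‖T‖ := by
  classical
  have h1 : ‖((T : ell2 G →L[ℂ] ell2 G) (del 1)) 1‖ ≤ ‖(T : ell2 G →L[ℂ] ell2 G) (del 1)‖ :=
    lp.norm_apply_le_norm (by norm_num) _ 1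
  have h2 : ‖(T : ell2 G →L[ℂ] ell2 G) (del 1)‖ ≤ ‖(T : ell2 G →L[ℂ] ell2 G)‖ * ‖(del 1 : ell2 G)‖ :=
    ContinuousLinearMap.le_opNorm _ _
  rw [B2_norm_del, mul_one] at h2
  exact h1.trans h2

/-- a closed linear condition which holds on `λ(G)` holds on `C*_r(G)` -/
theorem B2_ind {F : Type*} [NormedAddCommGroup F] [NormedSpace ℂ F]
    (L : (ell2 G →L[ℂ] ell2 G) →L[ℂ] F) (h : ∀ g : G, L (lam g) = 0)
    (T : redCstar G) : L (T : ell2 G →L[ℂ] ell2 G) = 0 := by
  have hT : (T : ell2 G →L[ℂ] ell2 G) ∈ (redCstar G : Set (ell2 G →L[ℂ] ell2 G)) := T.2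
  rw [redCstar_eq_closure_span] at hT
  have hcl : IsClosed {S : ell2 G →L[ℂ] ell2 G | L S = 0} :=
    isClosed_eq L.continuous continuous_const
  refine hcl.closure_subset_iff.mpr ?_ hT
  intro S hS
  show L S = 0
  have hS' : S ∈ Submodule.span ℂ (Set.range (lam (G := G))) := hS
  have hle : Submodule.span ℂ (Set.range (lam (G := G))) ≤ LinearMap.ker L.toLinearMap := by
    rw [Submodule.span_le]
    rintro _ ⟨g, rfl⟩
    exact h g
  exact hle hS'

open Classical in
theorem B2_E_lam (g : G) : B2_E G (lam g) = if g = 1 then 1 else 0 := by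
  rw [B2_E_apply, lam_del, mul_one, del_apply]
  by_cases hg : g = 1
  · rw [if_pos hg.symm, if_pos hg]
  · rw [if_neg (fun h => hg h.symm), if_neg hg]

theorem B2_comm_lam (h : G) (T : redCstar G) :
    B2_E G ((T : ell2 G →L[ℂ] ell2 G) * lam h) = B2_E G (lam h * (T : ell2 G →L[ℂ] ell2 G)) := by
  have key := B2_ind
    ((B2_E G).comp ((ContinuousLinearMap.mul ℂ (ell2 G →L[ℂ] ell2 G)).flip (lam h) -
      ContinuousLinearMap.mul ℂ (ell2 G →L[ℂ] ell2 G) (lam h))) ?_ T
  · rw [ContinuousLinearMap.comp_apply, sub_apply,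
      ContinuousLinearMap.flip_apply, ContinuousLinearMap.mul_apply',
      ContinuousLinearMap.mul_apply', map_sub, sub_eq_zero] at key
    exact key
  · intro g
    rw [ContinuousLinearMap.comp_apply, sub_apply,
      ContinuousLinearMap.flip_apply, ContinuousLinearMap.mul_apply',
      ContinuousLinearMap.mul_apply', map_sub, sub_eq_zero, lam_mul, lam_mul, B2_E_lam, B2_E_lam]
    have h1 : g * h = 1 ↔ h * g = 1 :=
      ⟨fun h2 => by rw [eq_inv_of_mul_eq_one_left h2, mul_inv_cancel],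
        fun h2 => by rw [eq_inv_of_mul_eq_one_left h2, mul_inv_cancel]⟩
    by_cases h2 : g * h = 1
    · rw [if_pos h2, if_pos (h1.mp h2)]
    · rw [if_neg h2, if_neg (fun h3 => h2 (h1.mpr h3))]

theorem tr_comm (S T : redCstar G) : tr G (S * T) = tr G (T * S) := by
  rw [B2_tr_eq, B2_tr_eq]
  have key := B2_ind
    ((B2_E G).comp (ContinuousLinearMap.mul ℂ (ell2 G →L[ℂ] ell2 G) (S : ell2 G →L[ℂ] ell2 G) -
      (ContinuousLinearMap.mul ℂ (ell2 G →L[ℂ] ell2 G)).flip (S : ell2 G →L[ℂ] ell2 G))) ?_ T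
  · rw [ContinuousLinearMap.comp_apply, sub_apply,
      ContinuousLinearMap.flip_apply, ContinuousLinearMap.mul_apply',
      ContinuousLinearMap.mul_apply', map_sub, sub_eq_zero] at key
    exact key
  · intro g
    rw [ContinuousLinearMap.comp_apply, sub_apply,
      ContinuousLinearMap.flip_apply, ContinuousLinearMap.mul_apply',
      ContinuousLinearMap.mul_apply', map_sub, sub_eq_zero]
    exact B2_comm_lam g S

theorem B2_rho_comm (g : G) (T : redCstar G) :
    rho g * (T : ell2 G →L[ℂ] ell2 G) = (T : ell2 G →L[ℂ] ell2 G) * rho g := by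
  have key := B2_ind
    (ContinuousLinearMap.mul ℂ (ell2 G →L[ℂ] ell2 G) (rho g) -
      (ContinuousLinearMap.mul ℂ (ell2 G →L[ℂ] ell2 G)).flip (rho g)) ?_ T
  · rw [sub_apply,
      ContinuousLinearMap.flip_apply, ContinuousLinearMap.mul_apply',
      ContinuousLinearMap.mul_apply', sub_eq_zero] at key
    exact key
  · intro h
    rw [sub_apply,
      ContinuousLinearMap.flip_apply, ContinuousLinearMap.mul_apply',
      ContinuousLinearMap.mul_apply', sub_eq_zero]
    exact rho_lam_comm g h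

theorem tr_faithful (T : redCstar G) (h : tr G (star T * T) = 0) : T = 0 := by
  classical
  have h1 : inner ℂ ((T : ell2 G →L[ℂ] ell2 G) (del 1)) ((T : ell2 G →L[ℂ] ell2 G) (del 1)) =
      (0 : ℂ) := by
    rw [← ContinuousLinearMap.adjoint_inner_right, ← ContinuousLinearMap.star_eq_adjoint]
    rw [B2_tr_eq] at h
    exact h
  have h2 : (T : ell2 G →L[ℂ] ell2 G) (del 1) = 0 := inner_self_eq_zero.mp h1
  refine Subtype.ext ?_
  refine ext_del _ _ fun x => ?_
  have h3 : (del x : ell2 G) = rho x⁻¹ (del 1) := by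
    rw [rho_del, one_mul, inv_inv]
  rw [h3]
  have h4 := congrArg (fun L : ell2 G →L[ℂ] ell2 G => L (del 1)) (B2_rho_comm x⁻¹ T)
  simp only [mul_apply_eq_comp] at h4
  rw [← h4, h2, map_zero]
  rfl

end SimpCoh
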