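import Pool.Agent.Lib.MP_263cac_an.B3
import Pool.Agent.Lib.MP_263cac_an.Defs2

/-!
# B4: groups with a topologically free extreme boundary are ping-pong groups

`X` a Hausdorff space without isolated points, `G` acting by homeomorphisms such that
* (extreme) for all nonempty open `U, V` there is `g` with `g (X \ U) ⊆ V`,
* (topologically free) for `e ≠ 1` the fixed point set of `e` has empty interior.
Given `E` finite, `1 ∉ E`: the complement of the union of the fixed point sets of `e ∈ E` is dense open (finite intersection of dense open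
sets), so there is `x` with `e x ≠ x` for all `e ∈ E`; by the Hausdorff property and continuity there is an open `U ∋ x` with `e U ∩ U = ∅` for all `e ∈ E`;
`U` has two points, so it contains two disjoint nonempty open sets `Up, Um`; take `g` with `g (X \ Um) ⊆ Up`,
`Sp = {γ | γ x₀ ∈ Up}`, `Sm = {γ | γ x₀ ∈ Um}` for any point `x₀`.
-/

set_option autoImplicit false

namespace SimpCoh

private theorem b4_shrink (G X : Type*) [Group G] [TopologicalSpace X] [T2Space X]
    [MulAction G X] (h : ExtremeFree G X) (E : Finset G) (hE : 1 ∉ E) :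
    ∀ W : Set X, IsOpen W → W.Nonempty →
      ∃ U : Set X, U ⊆ W ∧ IsOpen U ∧ U.Nonempty ∧ ∀ e ∈ E, ∀ x ∈ U, e • x ∉ U := by
  classical
  induction E using Finset.induction_on with
  | empty =>
    intro W hW hne
    exact ⟨W, subset_rfl, hW, hne, fun e he => absurd he (Finset.notMem_empty e)⟩
  | insert e E heE ih =>
    intro W hW hne
    have h1 : (1 : G) ∉ E := fun h1 => hE (Finset.mem_insert_of_mem h1)
    have he1 : e ≠ 1 := fun h1 => hE (h1 ▸ Finset.mem_insert_self e E)
    obtain ⟨U, hUW, hU, hUne, hUE⟩ := ih h1 W hW hne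
    have h2 : ¬ U ⊆ {x : X | e • x = x} := by
      intro hsub
      have h3 : U ⊆ interior {x : X | e • x = x} := interior_maximal hsub hU
      rw [h.free e he1] at h3
      exact hUne.ne_empty (Set.subset_empty_iff.1 h3)
    obtain ⟨x, hxU, hx⟩ := Set.not_subset.1 h2
    obtain ⟨P, Q, hP, hQ, hxP, hxQ, hPQ⟩ := t2_separation (show e • x ≠ x from hx)
    refine ⟨U ∩ Q ∩ ((fun y : X => e • y) ⁻¹' P), ?_, ?_, ?_, ?_⟩
    · exact fun y hy => hUW hy.1.1
    · exact (hU.inter hQ).inter (hP.preimage (h.cont e))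
    · exact ⟨x, ⟨hxU, hxQ⟩, hxP⟩
    · intro e' he' y hy hy'
      rcases Finset.mem_insert.1 he' with h4 | h4
      · subst h4
        exact Set.disjoint_left.1 hPQ hy.2 hy'.1.2
      · exact hUE e' h4 y hy.1.1 hy'.1.1

theorem pp_of_extreme (G X : Type*) [Group G] [TopologicalSpace X] [T2Space X] [Nonempty X]
    [MulAction G X] (h : ExtremeFree G X) : PPGroup G := by
  intro E hE
  obtain ⟨U, -, hU, hUne, hUE⟩ := b4_shrink G X h E hE Set.univ isOpen_univ Set.univ_nonempty
  obtain ⟨a, haU, b, hbU, hab⟩ := h.noiso U hU hUne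
  obtain ⟨P, Q, hP, hQ, haP, hbQ, hPQ⟩ := t2_separation hab
  obtain ⟨g, hg⟩ := h.extreme (U ∩ Q) (U ∩ P) (hU.inter hQ) ⟨b, hbU, hbQ⟩ (hU.inter hP)
    ⟨a, haU, haP⟩
  obtain ⟨x₀⟩ := (inferInstance : Nonempty X)
  refine ⟨g, {γ | γ • x₀ ∈ U ∩ P}, {γ | γ • x₀ ∈ U ∩ Q}, ?_, ?_, ?_⟩
  · rw [Set.disjoint_left]
    intro γ h1 h2
    exact Set.disjoint_left.1 hPQ h1.2 h2.2
  · intro γ hγ
    show (g * γ) • x₀ ∈ U ∩ P
    rw [mul_smul]
    exact hg _ hγ
  · intro e he γ hγ hcon
    have h1 : γ • x₀ ∈ U := by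
      rcases hγ with h2 | h2
      · exact h2.1
      · exact h2.1
    have h2 : (e * γ) • x₀ ∈ U := by
      rcases hcon with h3 | h3
      · exact h3.1
      · exact h3.1
    rw [mul_smul] at h2
    exact hUE e he _ h1 h2

end SimpCoh
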