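import Pool.Agent.Lib.MP_263cac_an.B3

/-!
# B5: non-abelian free groups are ping-pong groups

`F = FreeGroup α`, `a ≠ b` in `α`.  `st z` = first letter of the reduced word of `z` (`(toWord z).head?`).
`B₊ = {z | st z = (b, true)}`, `B₋ = {z | st z = (b, false)}`, `m > max_{e ∈ E} (length of e)`, `Sp = a^m B₊`, `Sm = a^m B₋`, `g = a^m b² a^{-m}`.
* `z ∉ B₋ ⟹ b z ∈ B₊` (the word of `b z` is `b :: word z`), and `B₊ ∩ B₋ = ∅`; so `z ∉ B₋ ⟹ b² z ∈ B₊`: `g (F \ Sm) ⊆ Sp`.
* Let `e ≠ 1`, `|e| < m`, `z ∈ B = B₊ ∪ B₋`; claim `f z ∉ B` for `f = a^{-m} e a^m`.  Write `e = a^l e₁ a^{-k}` with `|l|, |k| ≤ |e| < m` and either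
  `e₁ = 1` (then `e = a^{l-k}`, `l - k ≠ 0`, `f z = a^{l-k} z` starts with `a^{±1}`) or `e₁ ≠ 1` starts and ends with letters different from `a^{±1}`: then
  `f z = a^{l-m} e₁ a^{m-k} z` is reduced as written (`m - k > 0`, `l - m < 0`, `z` starts with `b^{±1}`), it starts with `a^{-1}`.
-/

set_option autoImplicit false

namespace SimpCoh

section
variable {α : Type*} [DecidableEq α]

theorem B5_toWord_mk {L : List (α × Bool)} (h : FreeGroup.IsReduced L) :
    (FreeGroup.mk L).toWord = L := by
  rw [FreeGroup.toWord_mk, h.reduce_eq]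

theorem B5_red_rep {a b : α} (hab : a ≠ b) (m : ℕ) {s : Bool} {L : List (α × Bool)}
    (hL : FreeGroup.IsReduced ((b, s) :: L)) :
    FreeGroup.IsReduced (List.replicate m (a, true) ++ (b, s) :: L) := by
  unfold FreeGroup.IsReduced at *
  rw [List.isChain_append]
  refine ⟨List.isChain_replicate_of_rel _ (fun _ => rfl), hL, ?_⟩
  intro x hx y hy
  have hx2 : x = (a, true) := by
    have := List.mem_of_mem_getLast? hx
    exact List.eq_of_mem_replicate this
  have hy2 : y = (b, s) := by
    simpa using hy.symm
  subst hx2 hy2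
  intro h
  exact absurd h hab

theorem B5_mk_rep (l : α × Bool) (n : ℕ) :
    (FreeGroup.mk (List.replicate n l) : FreeGroup α) = (FreeGroup.mk [l]) ^ n := by
  induction n with
  | zero => rfl
  | succ n ih =>
    rw [List.replicate_succ, pow_succ', ← ih, FreeGroup.mul_mk]
    rfl

theorem B5_decomp (l : α × Bool) (w : List (α × Bool)) :
    ∃ e' k, w = e' ++ List.replicate k l ∧ ∀ x ∈ e'.getLast?, x ≠ l := by
  induction w using List.reverseRecOn with
  | nil => exact ⟨[], 0, rfl, by simp⟩
  | append_singleton w c ih =>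
    by_cases h : c = l
    · obtain ⟨e', k, h1, h2⟩ := ih
      refine ⟨e', k + 1, ?_, h2⟩
      rw [h1, h, List.replicate_succ', List.append_assoc]
    · refine ⟨w ++ [c], 0, by simp, ?_⟩
      intro x hx
      have hx2 : x = c := by
        simpa using hx.symm
      rw [hx2]
      exact h

theorem B5_main {a b : α} (hab : a ≠ b) {m : ℕ} {e z : FreeGroup α} (he : e ≠ 1)
    (hlen : e.toWord.length < m) {s s' : Bool} {X Y : List (α × Bool)}
    (hz : z.toWord = List.replicate m (a, true) ++ (b, s) :: Y)
    (hez : (e * z).toWord = List.replicate m (a, true) ++ (b, s') :: X) : False := by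
  obtain ⟨e', k, hw, hlast⟩ := B5_decomp (a, false) e.toWord
  have hl2 : e'.length + k < m := by
    have h1 : e.toWord.length = e'.length + k := by
      rw [hw, List.length_append, List.length_replicate]
    omega
  have hred1 : FreeGroup.IsReduced (e' ++ List.replicate k (a, false)) :=
    hw ▸ FreeGroup.isReduced_toWord
  have hred2 : FreeGroup.IsReduced (List.replicate m (a, true) ++ (b, s) :: Y) :=
    hz ▸ FreeGroup.isReduced_toWord
  have hred2' : FreeGroup.IsReduced ((b, s) :: Y) := by
    unfold FreeGroup.IsReduced at *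
    rw [List.isChain_append] at hred2
    exact hred2.2.1
  have hmk : m - k ≠ 0 := by omega
  have hred3 : FreeGroup.IsReduced
      (e' ++ (List.replicate (m - k) (a, true) ++ (b, s) :: Y)) := by
    have h3 := B5_red_rep hab (m - k) hred2'
    unfold FreeGroup.IsReduced at *
    rw [List.isChain_append] at hred1 ⊢
    refine ⟨hred1.1, h3, ?_⟩
    intro x hx y hy
    have hy2 : y = (a, true) := by
      obtain ⟨j, hj⟩ := Nat.exists_eq_succ_of_ne_zero hmk
      rw [hj, List.replicate_succ] at hy
      simpa using hy.symm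
    subst hy2
    intro h4
    have h5 := hlast x hx
    by_contra h6
    apply h5
    refine Prod.ext h4 ?_
    simpa using h6
  have hprod : e * z = FreeGroup.mk (e' ++ (List.replicate (m - k) (a, true) ++ (b, s) :: Y)) := by
    have h1 : e = FreeGroup.mk e' * (FreeGroup.mk [(a, true)])⁻¹ ^ k := by
      conv_lhs => rw [← FreeGroup.mk_toWord (x := e), hw]
      have h2 : (FreeGroup.mk [(a, true)])⁻¹ = FreeGroup.mk [(a, false)] := by
        rw [FreeGroup.inv_mk]
        rfl
      rw [h2, ← B5_mk_rep, FreeGroup.mul_mk]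
    have h2 : z = (FreeGroup.mk [(a, true)]) ^ m * FreeGroup.mk ((b, s) :: Y) := by
      conv_lhs => rw [← FreeGroup.mk_toWord (x := z), hz]
      rw [← B5_mk_rep, FreeGroup.mul_mk]
    have h3 : (FreeGroup.mk [(a, true)] : FreeGroup α) ^ m =
        (FreeGroup.mk [(a, true)]) ^ k * (FreeGroup.mk [(a, true)]) ^ (m - k) := by
      rw [← pow_add]
      congr 1
      omega
    rw [h1, h2, h3, inv_pow, ← FreeGroup.mul_mk, ← FreeGroup.mul_mk, B5_mk_rep]
    group
  have heq : e' ++ (List.replicate (m - k) (a, true) ++ (b, s) :: Y) =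
      List.replicate m (a, true) ++ (b, s') :: X := by
    rw [← hez, hprod, B5_toWord_mk hred3]
  rcases lt_trichotomy e'.length k with h | h | h
  · have h1 := congrArg (fun L => L[e'.length + (m - k)]?) heq
    rw [List.getElem?_append_right (by omega), List.getElem?_append_right
      (by rw [List.length_replicate]; omega), List.getElem?_append_left
      (by rw [List.length_replicate]; omega)] at h1
    rw [List.length_replicate, Nat.add_sub_cancel_left, Nat.sub_self, List.getElem?_cons_zero,
      List.getElem?_replicate_of_lt (by omega)] at h1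
    have h2 := congrArg Prod.fst (Option.some.inj h1)
    exact hab h2.symm
  · rcases Nat.eq_zero_or_pos k with hk | hk
    · apply he
      have h1 : e' = [] := List.length_eq_zero_iff.1 (by omega)
      rw [h1, hk] at hw
      rw [← FreeGroup.toWord_eq_nil_iff, hw]
      rfl
    · have h1 := congrArg (fun L => L[e'.length - 1]?) heq
      rw [List.getElem?_append_left (by omega), List.getElem?_append_left
        (by rw [List.length_replicate]; omega), List.getElem?_replicate_of_lt (by omega),
        ← List.getLast?_eq_getElem?] at h1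
      unfold FreeGroup.IsReduced at hred1
      rw [List.isChain_append] at hred1
      have h2 := hred1.2.2 (a, true) h1 (a, false) (by
        obtain ⟨j, hj⟩ := Nat.exists_eq_succ_of_ne_zero hk.ne'
        rw [hj, List.replicate_succ]
        rfl) rfl
      exact absurd h2 (by simp)
  · have h1 := congrArg (fun L => L[m]?) heq
    rw [List.getElem?_append_right (by omega), List.getElem?_append_left
      (by rw [List.length_replicate]; omega), List.getElem?_append_right
      (by rw [List.length_replicate])] at h1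
    rw [List.length_replicate, Nat.sub_self, List.getElem?_cons_zero,
      List.getElem?_replicate_of_lt (by omega)] at h1
    have h2 := congrArg Prod.fst (Option.some.inj h1)
    exact hab h2

theorem B5_rep_mul {a b : α} (hab : a ≠ b) (m : ℕ) {v : FreeGroup α} {s : Bool}
    {L : List (α × Bool)} (hv : v.toWord = (b, s) :: L) :
    ((FreeGroup.mk [(a, true)]) ^ m * v).toWord = List.replicate m (a, true) ++ (b, s) :: L := by
  have hred : FreeGroup.IsReduced ((b, s) :: L) := hv ▸ FreeGroup.isReduced_toWord
  rw [← B5_toWord_mk (B5_red_rep hab m hred), ← FreeGroup.mul_mk, B5_mk_rep, ← hv,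
    FreeGroup.mk_toWord]

theorem B5_step {b : α} {u : FreeGroup α} (hu : ∀ L, u.toWord ≠ (b, false) :: L) :
    ∃ L, (FreeGroup.mk [(b, true)] * u).toWord = (b, true) :: L := by
  refine ⟨u.toWord, ?_⟩
  have hred : FreeGroup.IsReduced ((b, true) :: u.toWord) := by
    have h := FreeGroup.isReduced_toWord (x := u)
    unfold FreeGroup.IsReduced at *
    rcases hw : u.toWord with _ | ⟨c, L⟩
    · exact List.isChain_singleton _
    · rw [hw] at h
      rw [List.isChain_cons_cons]
      refine ⟨?_, h⟩
      intro h1
      by_contra h2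
      apply hu L
      rw [hw]
      congr 1
      refine Prod.ext h1.symm ?_
      have h3 : ¬ (true = c.2) := h2
      simpa using fun h4 => h3 (Eq.symm h4)
  rw [← B5_toWord_mk hred]
  congr 1
  conv_lhs => rw [← FreeGroup.mk_toWord (x := u)]
  rw [FreeGroup.mul_mk]
  rfl

end

theorem pp_freeGroup (α : Type*) (a b : α) (hab : a ≠ b) : PPGroup (FreeGroup α) := by
  classical
  intro E hE
  let m : ℕ := E.sup (fun e => e.toWord.length) + 1
  let A : FreeGroup α := FreeGroup.mk [(a, true)]
  refine ⟨A ^ m * FreeGroup.mk [(b, true)] * (A ^ m)⁻¹,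
    {z | ∃ L, z.toWord = List.replicate m (a, true) ++ (b, true) :: L},
    {z | ∃ L, z.toWord = List.replicate m (a, true) ++ (b, false) :: L}, ?_, ?_, ?_⟩
  · rw [Set.disjoint_left]
    rintro z ⟨L, hL⟩ ⟨L', hL'⟩
    rw [hL] at hL'
    have h := List.append_cancel_left hL'
    simp at h
  · intro z hz
    have hu : ∀ L, ((A ^ m)⁻¹ * z).toWord ≠ (b, false) :: L := by
      intro L hL
      apply hz
      refine ⟨L, ?_⟩
      rw [← B5_rep_mul hab m hL, mul_inv_cancel_left]
    obtain ⟨L, hL⟩ := B5_step hu
    refine ⟨L, ?_⟩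
    rw [← B5_rep_mul hab m hL, mul_assoc, mul_assoc]
  · intro e he x hx hex
    have hlen : e.toWord.length < m :=
      Nat.lt_succ_of_le (Finset.le_sup (f := fun e => e.toWord.length) he)
    have he1 : e ≠ 1 := fun h => hE (h ▸ he)
    have h1 : ∃ s L, x.toWord = List.replicate m (a, true) ++ (b, s) :: L := by
      rcases hx with ⟨L, hL⟩ | ⟨L, hL⟩
      · exact ⟨true, L, hL⟩
      · exact ⟨false, L, hL⟩
    have h2 : ∃ s L, (e * x).toWord = List.replicate m (a, true) ++ (b, s) :: L := by
      rcases hex with ⟨L, hL⟩ | ⟨L, hL⟩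
      · exact ⟨true, L, hL⟩
      · exact ⟨false, L, hL⟩
    obtain ⟨s, L, hL⟩ := h1
    obtain ⟨s', L', hL'⟩ := h2
    exact B5_main hab he1 hlen hL hL'

end SimpCoh
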