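import Mathlib

/-!
# Bounded bilinear / trilinear forms on a C*-algebra, given as plain functions

A bounded 2-cochain `A × A → A*` is the same thing as a bounded trilinear form `f a b c = Φ(a,b)(c)`,
a bounded 1-cochain `A → A*` is a bounded bilinear form `S x c = ψ(x)(c)`.  With the bimodule structure
`(a·φ)(x) = φ(xa)`, `(φ·a)(x) = φ(ax)` of `A*` the cocycle identity reads `Coc f`, and the coboundary of `S`
is `cob S`.
-/

set_option autoImplicit false

namespace SimpCoh

variable {A : Type*} [CStarAlgebra A]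

/-- A bounded trilinear form, as a plain function, with bound `C`. -/
structure Tri (C : ℝ) (f : A → A → A → ℂ) : Prop where
  add₁ : ∀ a a' b c, f (a + a') b c = f a b c + f a' b c
  add₂ : ∀ a b b' c, f a (b + b') c = f a b c + f a b' c
  add₃ : ∀ a b c c', f a b (c + c') = f a b c + f a b c'
  smul₁ : ∀ (z : ℂ) a b c, f (z • a) b c = z * f a b c
  smul₂ : ∀ (z : ℂ) a b c, f a (z • b) c = z * f a b c
  smul₃ : ∀ (z : ℂ) a b c, f a b (z • c) = z * f a b c
  bd : ∀ a b c, ‖f a b c‖ ≤ C * ‖a‖ * ‖b‖ * ‖c‖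

/-- A bounded bilinear form, as a plain function, with bound `C`. -/
structure Bil (C : ℝ) (f : A → A → ℂ) : Prop where
  add₁ : ∀ a a' b, f (a + a') b = f a b + f a' b
  add₂ : ∀ a b b', f a (b + b') = f a b + f a b'
  smul₁ : ∀ (z : ℂ) a b, f (z • a) b = z * f a b
  smul₂ : ∀ (z : ℂ) a b, f a (z • b) = z * f a b
  bd : ∀ a b, ‖f a b‖ ≤ C * ‖a‖ * ‖b‖

/-- The 2-cocycle identity for trilinear forms. -/
def Coc (f : A → A → A → ℂ) : Prop :=
  ∀ a b c d, f b c (d * a) - f (a * b) c d + f a (b * c) d - f a b (c * d) = 0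

/-- The coboundary of a bilinear form. -/
def cob (S : A → A → ℂ) : A → A → A → ℂ :=
  fun a b c => S b (c * a) - S (a * b) c + S a (b * c)

/-- The average of a function on a finite type. -/
noncomputable def avg {I : Type*} [Fintype I] (f : I → ℂ) : ℂ :=
  (Fintype.card I : ℂ)⁻¹ * ∑ i, f i

/-- The words `V₀ = 1`, `V_{j+1} = V_j u_j r`. -/
def word {M : Type*} [Monoid M] (u : ℕ → M) (r : M) : ℕ → M
  | 0 => 1
  | j + 1 => word u r j * u j * r

/-- A mean: a linear functional on all functions on the unitary group, of norm one, `E 1 = 1`. -/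
structure IsMean (E : (unitary A → ℂ) →ₗ[ℂ] ℂ) : Prop where
  one : E (fun _ => 1) = 1
  bd : ∀ (f : unitary A → ℂ) (C : ℝ), (∀ V, ‖f V‖ ≤ C) → ‖E f‖ ≤ C

/-- Approximate harmonicity of a trilinear form at its three vertices, for the uniform random
choice of one of the unitaries `w i`. -/
structure Harm {I : Type*} [Fintype I] (w : I → unitary A) (η : ℝ) (φ : A → A → A → ℂ) : Prop where
  h0 : ∀ a b c, ‖avg (fun i => φ (star (w i : A) * a) b (c * (w i : A))) - φ a b c‖
        ≤ η * ‖a‖ * ‖b‖ * ‖c‖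
  h1 : ∀ a b c, ‖avg (fun i => φ (a * (w i : A)) (star (w i : A) * b) c) - φ a b c‖
        ≤ η * ‖a‖ * ‖b‖ * ‖c‖
  h2 : ∀ a b c, ‖avg (fun i => φ a (b * (w i : A)) (star (w i : A) * c)) - φ a b c‖
        ≤ η * ‖a‖ * ‖b‖ * ‖c‖

/-- The random walk averaging property of `(A, τ)`: for finitely many unitaries `F` and finitely many
trace zero contractions `Y` there is a unitary `r` such that along every walk with increments in `F r`
the sums of the conjugates of `y ∈ Y` (with arbitrary coefficients in the unit disc) are small. -/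
def WalkProp (τ : A → ℂ) : Prop :=
  ∀ (F : Finset (unitary A)) (Y : Finset A), (∀ y ∈ Y, τ y = 0 ∧ ‖y‖ ≤ 1) →
    ∀ ε : ℝ, 0 < ε → ∀ N : ℕ, ∃ n : ℕ, N ≤ n ∧ ∃ r : unitary A,
      ∀ y ∈ Y, ∀ u : ℕ → unitary A, (∀ j, u j ∈ F) → ∀ g : ℕ → ℂ, (∀ j, ‖g j‖ ≤ 1) →
        ‖∑ j ∈ Finset.range n,
            g j • ((word u r j : unitary A) * y * star ((word u r j : unitary A) : A))‖ ≤ ε * n

theorem coc_one_left {φ : A → A → A → ℂ} (h : Coc φ) (x d : A) : φ 1 x d = φ 1 1 (x * d) := by
  have := h 1 1 x d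
  simp only [mul_one, one_mul] at this
  linear_combination this

theorem coc_one_right {φ : A → A → A → ℂ} (h : Coc φ) (x d : A) : φ x 1 d = φ 1 1 (d * x) := by
  have := h x 1 1 d
  simp only [mul_one, one_mul] at this
  linear_combination -this

end SimpCoh
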