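import Pool.Agent.Lib.MP_263cac_an.A13
import Pool.Agent.Lib.MP_263cac_an.B4
import Pool.Agent.Lib.MP_263cac_an.B5

set_option autoImplicit false

namespace Pool.Agent.Results.MP_263cac_an.FreeSecondCohomology

open SimpCoh

/-- Second simplicial cohomology (`H2Zero`).
(1) Every unital C*-algebra `A` with a faithful functional `τ`, `τ 1 = 1`, having the random walk averaging property `WalkProp τ`
satisfies `H²(A, A*) = 0`.
(2) In particular `H²(A, A*) = 0` for the reduced C*-algebra `A = C*_r(G)` of every discrete group `G` having a topologically free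
extreme boundary action (`ExtremeFree G X` for some Hausdorff space `X`).
(3) In particular `H²(A, A*) = 0` for `A = C*_r(F)`, `F` any non-abelian free group. -/
theorem result :
    (∀ (A : Type) [CStarAlgebra A] (τ : A →ₗ[ℂ] ℂ), τ 1 = 1 →
      (∀ x : A, τ (star x * x) = 0 → x = 0) → WalkProp (fun x => τ x) → H2Zero A) ∧
    (∀ (G X A H : Type) [Group G] [TopologicalSpace X] [T2Space X] [Nonempty X] [MulAction G X]
      [CStarAlgebra A] [NormedAddCommGroup H] [InnerProductSpace ℂ H] [CompleteSpace H],
      ExtremeFree G X → IsRedOn G A H → H2Zero A) ∧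
    (∀ (α A H : Type) [CStarAlgebra A] [NormedAddCommGroup H] [InnerProductSpace ℂ H]
      [CompleteSpace H] (a b : α), a ≠ b → IsRedOn (FreeGroup α) A H → H2Zero A) :=
  ⟨fun _ _ τ h1 hf hW => H2Zero_of_walk τ h1 hf hW,
   fun G X _ _ _ _ _ _ _ _ _ _ _ h hA => H2Zero_isRed (pp_of_extreme G X h) hA,
   fun α _ _ _ _ _ _ a b hab hA => H2Zero_isRed (pp_freeGroup α a b hab) hA⟩

end Pool.Agent.Results.MP_263cac_an.FreeSecondCohomology
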